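import Pool.Agent.P.MP_b01859_ag.SG.Iface
import Pool.Agent.P.MP_b01859_ag.SD.Iface

/-!
Cochains on the standard cover, rings of fractions with derivations, local connections.
-/

set_option linter.unusedSectionVars false

namespace Pool.Agent.P.MP_b01859_ag.SC

open MvPolynomial Matrix

/-- Vanishing of the cohomology of the sheaf of a graded module, denominators cleared. -/
def Van (σ : Type) {M : Type} [AddCommGroup M] [Module ℂ M] [Module (MvPolynomial σ ℂ) M]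
    (ℳ : ℤ → Submodule ℂ M) (q : ℕ) (t : ℤ) : Prop :=
  ∀ (ν : ℕ) (ξ : (Fin (q + 1) → σ) → M), (∀ s, ξ s ∈ ℳ (t + ν * (q + 1))) →
    (∀ s : Fin (q + 2) → σ, ∑ k : Fin (q + 2),
      ((-1) ^ (k : ℕ) * X (s k) ^ ν : MvPolynomial σ ℂ) • ξ (s ∘ k.succAbove) = 0) →
    ∃ (μ : ℕ) (η : (Fin q → σ) → M), (∀ s, η s ∈ ℳ (t + (ν + μ) * q)) ∧ (q = 0 → η = 0) ∧
      ∀ s : Fin (q + 1) → σ, ((∏ k, X (s k)) ^ μ : MvPolynomial σ ℂ) • ξ s = ∑ k : Fin (q + 1),
        ((-1) ^ (k : ℕ) * X (s k) ^ (ν + μ) : MvPolynomial σ ℂ) • η (s ∘ k.succAbove)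

section cech

variable {σ : Type} [DecidableEq σ] {V V' : Type} [AddCommGroup V] [Module ℂ V] [AddCommGroup V']
  [Module ℂ V'] {r : ℕ}

/-- The set of entries of a tuple. -/
def im (s : Fin r → σ) : Finset σ := Finset.univ.image s

/-- The coboundary. -/
def cd (ξ : (Fin r → σ) → V) : (Fin (r + 1) → σ) → V :=
  fun s => ∑ k : Fin (r + 1), (-1 : ℂ) ^ (k : ℕ) • ξ (s ∘ k.succAbove)

/-- Cochains with values in a family. -/
def Cc (F : Finset σ → Submodule ℂ V) (ξ : (Fin r → σ) → V) : Prop := ∀ s, ξ s ∈ F (im s)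

/-- Vanishing of the cohomology of a family. -/
def Vn (F : Finset σ → Submodule ℂ V) (q : ℕ) : Prop :=
  ∀ ξ : (Fin (q + 1) → σ) → V, Cc F ξ → cd ξ = 0 →
    ∃ η : (Fin q → σ) → V, Cc F η ∧ (q = 0 → η = 0) ∧ cd η = ξ

lemma mem_im (s : Fin r → σ) (k : Fin r) : s k ∈ im s :=
  Finset.mem_image_of_mem _ (Finset.mem_univ k)

lemma im_comp {r' : ℕ} (s : Fin r → σ) (f : Fin r' → Fin r) : im (s ∘ f) ⊆ im s := by
  intro x hx
  obtain ⟨k, -, rfl⟩ := Finset.mem_image.1 hx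
  exact mem_im s _

lemma Cc.cd {F : Finset σ → Submodule ℂ V} (hF : Monotone F) {ξ : (Fin r → σ) → V}
    (h : Cc F ξ) : Cc F (cd ξ) := fun s =>
  Submodule.sum_mem _ fun _ _ => Submodule.smul_mem _ _ (hF (im_comp s _) (h _))

omit [DecidableEq σ] in
lemma cd_map (u : V →ₗ[ℂ] V') (ξ : (Fin r → σ) → V) (s : Fin (r + 1) → σ) :
    cd (fun s => u (ξ s)) s = u (cd ξ s) := by
  simp [cd, map_sum]

omit [DecidableEq σ] in
lemma cd_add (ξ η : (Fin r → σ) → V) : cd (ξ + η) = cd ξ + cd η := by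
  funext s; simp [cd, Finset.sum_add_distrib]

omit [DecidableEq σ] in
lemma cd_sub (ξ η : (Fin r → σ) → V) : cd (ξ - η) = cd ξ - cd η := by
  funext s; simp [cd, smul_sub, Finset.sum_sub_distrib]

omit [DecidableEq σ] in
lemma cd_smul (c : ℂ) (ξ : (Fin r → σ) → V) : cd (c • ξ) = c • cd ξ := by
  funext s; simp [cd, Finset.smul_sum, smul_comm c]

omit [DecidableEq σ] in
lemma cd_zero : cd (0 : (Fin r → σ) → V) = 0 := by
  funext s; simp [cd]

omit [DecidableEq σ] in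
lemma cd_sum {κ : Type} (A : Finset κ) (ξ : κ → (Fin r → σ) → V) :
    cd (∑ i ∈ A, ξ i) = ∑ i ∈ A, cd (ξ i) := by
  funext s
  simp only [cd, Finset.sum_apply, Finset.smul_sum]
  exact Finset.sum_comm

omit [DecidableEq σ] in
lemma cd_cons_zero (ξ : (Fin 0 → σ) → V) (a : σ) (s : Fin 0 → σ) :
    cd ξ (Fin.cons a s) = ξ s := by
  simp only [cd, Nat.reduceAdd, Finset.univ_unique, Finset.sum_singleton]
  simp [Subsingleton.elim (_ ∘ _) s]

omit [DecidableEq σ] in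
lemma cd_cons (ξ : (Fin (r + 1) → σ) → V) (a : σ) (s : Fin (r + 1) → σ) :
    cd ξ (Fin.cons a s) = ξ s - cd (fun s' => ξ (Fin.cons a s')) s := by
  rw [cd, Fin.sum_univ_succ, cd, sub_eq_add_neg, ← Finset.sum_neg_distrib]
  congr 1
  · simp only [Fin.val_zero, pow_zero, one_smul]
    congr 1
  · refine Finset.sum_congr rfl fun k _ => ?_
    rw [Fin.val_succ, pow_succ, mul_neg_one, neg_smul]
    congr 3
    funext l
    refine Fin.cases ?_ (fun l => ?_) l <;> simp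

omit [DecidableEq σ] in
lemma cd_cd (ξ : (Fin r → σ) → V) : cd (cd ξ) = 0 := by
  induction r with
  | zero =>
    funext s
    rw [← Fin.cons_self_tail s, cd_cons, ← Fin.cons_self_tail (Fin.tail s), cd_cons_zero,
      cd_cons_zero, cd_cons_zero]
    simp
  | succ r ih =>
    funext s
    rw [← Fin.cons_self_tail s, cd_cons]
    have : (fun s' => cd ξ (Fin.cons (s 0) s')) = ξ - cd fun s' => ξ (Fin.cons (s 0) s') :=
      funext fun s' => cd_cons ξ _ s'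
    rw [this, cd_sub, ih]
    simp

end cech

/-- A ring in which the variables are invertible, with the derivatives. -/
structure LR (σ : Type) : Type 1 where
  L : Type
  [ring : CommRing L]
  [alg : Algebra ℂ L]
  e : Pol σ →ₐ[ℂ] L
  y : σ → L
  D : σ → Derivation ℂ L L
  inj : Function.Injective e
  xy : ∀ s, e (X s) * y s = 1
  De : ∀ i f, D i (e f) = e (pderiv i f)

attribute [instance] LR.ring LR.alg

namespace LR

variable {σ : Type} (R : LR σ)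

lemma prod_xy {κ : Type} (A : Finset κ) (s : κ → σ) (k : ℕ) :
    R.e ((∏ i ∈ A, X (s i)) ^ k) * (∏ i ∈ A, R.y (s i)) ^ k = 1 := by
  rw [map_pow, ← mul_pow, map_prod, ← Finset.prod_mul_distrib]
  simp [R.xy]

lemma hom_prod {κ : Type} (A : Finset κ) (s : κ → σ) (k : ℕ) :
    Hom ((∏ i ∈ A, X (s i) : Pol σ) ^ k) (k * A.card) := by
  have h := (IsWeightedHomogeneous.prod (w := fun _ : σ => (1 : ℤ)) A (fun i => (X (s i) : Pol σ))
    (fun _ => 1) fun i _ => isWeightedHomogeneous_X ℂ _ _).pow k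
  simpa using h

lemma lift {κ : Type} (A : Finset κ) (s : κ → σ) (p : Pol σ) (ν k : ℕ) :
    R.e p * (∏ i ∈ A, R.y (s i)) ^ ν =
      R.e (p * (∏ i ∈ A, X (s i)) ^ k) * (∏ i ∈ A, R.y (s i)) ^ (ν + k) := by
  rw [map_mul, pow_add]
  linear_combination (-(R.e p * (∏ i ∈ A, R.y (s i)) ^ ν)) * R.prod_xy A s k

/-- Homogeneous fractions whose denominators are products of variables in `I`. -/
def O (I : Finset σ) (t : ℤ) : Submodule ℂ R.L where
  carrier := {f | ∃ (ν : ℕ) (p : Pol σ), Hom p (t + ν * I.card) ∧ f = R.e p * (∏ i ∈ I, R.y i) ^ ν}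
  add_mem' := by
    rintro _ _ ⟨ν, p, hp, rfl⟩ ⟨ν', p', hp', rfl⟩
    refine ⟨ν + ν', p * (∏ i ∈ I, X i) ^ ν' + p' * (∏ i ∈ I, X i) ^ ν,
      (hom_congr (hp.mul (hom_prod I id ν')) (by push_cast; ring)).add
        (hom_congr (hp'.mul (hom_prod I id ν)) (by push_cast; ring)), ?_⟩
    rw [map_add, add_mul, ← R.lift I (fun i => i), add_comm ν, ← R.lift I (fun i => i)]
  zero_mem' := ⟨0, 0, isWeightedHomogeneous_zero _ _ _, by simp⟩
  smul_mem' := by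
    rintro c _ ⟨ν, p, hp, rfl⟩
    exact ⟨ν, C c * p, hp.C_mul c, by
      rw [← smul_eq_C_mul, map_smul, smul_mul_assoc]⟩

lemma mem_O {I : Finset σ} {t : ℤ} {f : R.L} : f ∈ R.O I t ↔
    ∃ (ν : ℕ) (p : Pol σ), Hom p (t + ν * I.card) ∧ f = R.e p * (∏ i ∈ I, R.y i) ^ ν := Iff.rfl

end LR

section mat

variable {σ J A : Type} [CommRing A] [Algebra ℂ A]

/-- Vectors of cohomological degree `k`. -/
def Sup (c : J → ℤ) (k : ℤ) (v : J → A) : Prop := ∀ a, v a ≠ 0 → c a = k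

/-- Matrices that raise the cohomological degree by `k`. -/
def Dg (c : J → ℤ) (k : ℤ) (B : Matrix J J A) : Prop := ∀ a b, B a b ≠ 0 → c a = c b + k

/-- The supertrace. -/
noncomputable def str [Fintype J] (c : J → ℤ) (B : Matrix J J A) : A :=
  ∑ a, (-1 : ℂ) ^ c a • B a a

end mat

variable {σ ι : Type} [Fintype σ] [DecidableEq σ] [Fintype ι]

open SG in
/-- A finite graded free resolution of the module spanned by the rows of a skew matrix. -/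
structure Res {I : Type} [Fintype I] (T : VB σ I) (c γ : I → ℤ) (g : ℤ)
    (d : Matrix I I (Pol σ)) : Prop where
  gr : Gr (SD.w1 σ) γ g T.ω
  cx : Cx c γ d
  c0 : ∀ a, c a ≤ 0
  sup : ∀ a b, T.ω a b ≠ 0 → c a = 0 ∧ c b = 0
  ωd : of T.ω * d = 0
  ex0 : ∀ v, Supp c 0 v → of T.ω *ᵥ v = 0 → ∃ u, Supp c (-1) u ∧ d *ᵥ u = v
  ex : ∀ k, k ≤ -1 → Ex c d k

/-- A finite complex of free modules that resolves the bundle on the right. -/
structure Pk (T : VB σ ι) (γ : ι → ℤ) (g c₂ : ℤ) (J : Type) [Fintype J] [DecidableEq J] where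
  c : J → ℤ
  gJ : J → ℤ
  d : Matrix J J (Pol σ)
  ω : Matrix J J (Pol σ)
  j : ι → J
  cx : SG.Cx c gJ d
  pos : ∀ x, 0 ≤ c x
  inj : Function.Injective j
  c0 : ∀ x, c x = 0 ↔ ∃ a, j a = x
  gj : ∀ a, gJ (j a) = - γ a
  ωj : ∀ a b, ω (j a) (j b) = T.ω a b
  ω0 : ∀ x z, ω x z ≠ 0 → c x = 0 ∧ c z = 0
  dω : d * ω = 0
  cert : ∀ s, ∃ (N : ℕ) (h ψ : Matrix J J (Pol σ)), SG.Deg c c (-1) h ∧
    SG.Hom gJ (fun x => gJ x + N) h ∧ ψᵀ = -ψ ∧ (∀ x z, ψ x z ≠ 0 → c x = 0 ∧ c z = 0) ∧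
    (∀ x z, Hom (ψ x z) (N + g + gJ x + gJ z)) ∧
    d * h + h * d + ω * ψ = (X s ^ N : Pol σ) • (1 : Matrix J J (Pol σ))
  s0 : ∑ x, (-1 : ℂ) ^ c x = 2
  s1 : ∑ x, (-1 : ℂ) ^ c x * gJ x = - g
  s2 : ∑ x, (-1 : ℂ) ^ c x * (gJ x : ℂ) ^ 2 = g ^ 2 - 2 * c₂

variable {T : VB σ ι} {γ : ι → ℤ} {g c₂ : ℤ} {J : Type} [Fintype J] [DecidableEq J]

/-- The differential over the ring of fractions. -/
noncomputable def Pk.dL (P : Pk T γ g c₂ J) (R : LR σ) : Matrix J J R.L := P.d.map R.e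

/-- The terms of the complex on the charts. -/
def Pk.F (P : Pk T γ g c₂ J) (R : LR σ) (k t : ℤ) (I : Finset σ) : Submodule ℂ (J → R.L) where
  carrier := {v | Sup P.c k v ∧ ∀ x, v x ∈ R.O I (t - P.gJ x)}
  add_mem' := fun {v w} hv hw => ⟨fun a h => by
    by_cases h1 : v a = 0
    · exact hw.1 a (by simpa [h1] using h)
    · exact hv.1 a h1, fun x => add_mem (hv.2 x) (hw.2 x)⟩
  zero_mem' := ⟨fun _ h => absurd rfl h, fun _ => zero_mem _⟩
  smul_mem' := fun c v hv => ⟨fun a h => hv.1 a fun h1 => h (by simp [h1]),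
    fun x => Submodule.smul_mem _ c (hv.2 x)⟩

/-- The cycles on the charts; `Z 0 t` is the sheaf of sections of level `t`. -/
def Pk.Z (P : Pk T γ g c₂ J) (R : LR σ) (k t : ℤ) (I : Finset σ) : Submodule ℂ (J → R.L) where
  carrier := {v | v ∈ P.F R k t I ∧ P.dL R *ᵥ v = 0}
  add_mem' := fun {v w} hv hw => ⟨add_mem hv.1 hw.1, by rw [mulVec_add, hv.2, hw.2, add_zero]⟩
  zero_mem' := ⟨zero_mem _, mulVec_zero _⟩
  smul_mem' := fun c v hv => ⟨Submodule.smul_mem _ c hv.1, by rw [mulVec_smul, hv.2, smul_zero]⟩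

lemma Pk.mem_F (P : Pk T γ g c₂ J) (R : LR σ) {k t : ℤ} {I : Finset σ} {v : J → R.L} :
    v ∈ P.F R k t I ↔ Sup P.c k v ∧ ∀ x, v x ∈ R.O I (t - P.gJ x) := Iff.rfl

lemma Pk.mem_Z (P : Pk T γ g c₂ J) (R : LR σ) {k t : ℤ} {I : Finset σ} {v : J → R.L} :
    v ∈ P.Z R k t I ↔ v ∈ P.F R k t I ∧ P.dL R *ᵥ v = 0 := Iff.rfl

/-- A section as a vector over the ring of fractions. -/
noncomputable def Pk.ext (P : Pk T γ g c₂ J) (R : LR σ) (φ : ι → Pol σ) : J → R.L :=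
  fun x => R.e (Function.extend P.j φ 0 x)

/-- Connections on the charts that commute with the differential. -/
structure Conn (P : Pk T γ g c₂ J) (R : LR σ) (B : σ → σ → Matrix J J R.L) : Prop where
  deg : ∀ s i, Dg P.c 0 (B s i)
  mem : ∀ s i a b, B s i a b ∈ R.O {s} (P.gJ b - P.gJ a - 1)
  com : ∀ s i, P.dL R * B s i - B s i * P.dL R = (P.dL R).map (R.D i)
  tr : ∀ s i, str P.c (B s i) = 0
  eul : ∀ s, ∑ i, R.e (X i) • B s i =
    diagonal fun a => algebraMap ℂ R.L ((P.gJ a : ℂ) + (g : ℂ) / 2)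

/-- The operators used in one step. -/
structure Op {L V : Type} [CommRing L] [Algebra ℂ L] [AddCommGroup V] [Module ℂ V] [Module L V]
    (x : σ → L) (F : ℤ → Finset σ → Submodule ℂ V) (lam : ℤ → ℂ) (c₀ : ℂ) where
  D : σ → σ → V →ₗ[ℂ] V
  G : σ → σ → V →ₗ[ℂ] V
  Z : σ → σ → σ → σ → V →ₗ[ℂ] V
  mono : ∀ t, Monotone (F t)
  xm : ∀ i t I v, v ∈ F t I → x i • v ∈ F (t + 1) I
  Dm : ∀ s j t I v, s ∈ I → v ∈ F t I → D s j v ∈ F (t - 1) I
  Gm : ∀ s j t I v, s ∈ I → v ∈ F t I → G s j v ∈ F (t - 1) I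
  Zm : ∀ s u i j t I v, s ∈ I → u ∈ I → v ∈ F t I → Z s u i j v ∈ F (t - 2) I
  anti : ∀ s u i j v, Z s u j i v = - Z s u i j v
  coc : ∀ s u w i j t I v, v ∈ F t I → Z u w i j v - Z s w i j v + Z s u i j v = 0
  con : ∀ s u j t I v, v ∈ F t I → ∑ i, x i • Z s u i j v =
    (G u j v - G s j v) - (2 * lam t) • (D u j v - D s j v)
  eul : ∀ s t I v, v ∈ F t I → ∑ j, x j • D s j v = lam t • v
  gam : ∀ s t I v, v ∈ F t I → ∑ j, x j • G s j v = c₀ • v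

/-- A graded module maps to a family, bijectively up to denominators. -/
structure Br (R : LR σ) {M V : Type} [AddCommGroup M] [Module ℂ M] [Module (Pol σ) M]
    [AddCommGroup V] [Module ℂ V] [Module R.L V] (ℳ : ℤ → Submodule ℂ M)
    (Z : ℤ → Finset σ → Submodule ℂ V) (E : M →+ V) : Prop where
  smul : ∀ f m, E (f • m) = R.e f • E m
  mem : ∀ (r : ℕ) (s : Fin r → σ) (t : ℤ) (ν : ℕ) (m : M), m ∈ ℳ (t + ν * r) →
    (∏ k, R.y (s k)) ^ ν • E m ∈ Z t (im s)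
  sur : ∀ (r : ℕ) (s : Fin (r + 1) → σ) (t : ℤ) (v : V), v ∈ Z t (im s) → ∃ ν₀ : ℕ, ∀ ν : ℕ,
    ν₀ ≤ ν → ∃ m ∈ ℳ (t + ν * (r + 1)), v = (∏ k, R.y (s k)) ^ ν • E m
  ker : ∀ m, E m = 0 → ∀ i, ∃ k : ℕ, (X i : Pol σ) ^ k • m = 0

end Pool.Agent.P.MP_b01859_ag.SC
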