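import Pool.Agent.P.MP_b01859_ag.SC.TFR2

/-!
Cocycles that are combinations of cocycles of the previous degree.
-/

set_option linter.unusedSectionVars false

namespace Pool.Agent.P.MP_b01859_ag.SC

open MvPolynomial Matrix

section step

variable {σ L V : Type} [CommRing L] [Algebra ℂ L] [AddCommGroup V] [Module ℂ V] [Module L V]
  [IsScalarTower ℂ L V] {r : ℕ}

lemma cd_x (y : L) (ξ : (Fin r → σ) → V) (s : Fin (r + 1) → σ) :
    cd (fun s => y • ξ s) s = y • cd ξ s :=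
  cd_map (DistribSMul.toLinearMap ℂ V y) ξ s

lemma cd_sx {κ : Type} [Fintype κ] (y : κ → L) (ξ : κ → (Fin r → σ) → V) (s : Fin (r + 1) → σ) :
    cd (fun s => ∑ i, y i • ξ i s) s = ∑ i, y i • cd (ξ i) s := by
  have : (fun s => ∑ i, y i • ξ i s) = ∑ i, fun s => y i • ξ i s := by
    funext s; rw [Finset.sum_apply]
  rw [this, cd_sum, Finset.sum_apply]
  simp only [cd_x]

lemma cd_head (A : σ → V →ₗ[ℂ] V) {ξ : (Fin (r + 1) → σ) → V} (h : cd ξ = 0) (a : σ)
    (s : Fin (r + 1) → σ) :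
    cd (fun s => A (s 0) (ξ s)) (Fin.cons a s) = A (s 0) (ξ s) - A a (ξ s) := by
  have h1 := cd_cons ξ a s
  rw [h, Pi.zero_apply, eq_comm, sub_eq_zero] at h1
  rw [cd_cons]
  simp only [Fin.cons_zero]
  rw [cd_map (A a), ← h1]

variable [Fintype σ] [DecidableEq σ]

/-- No new generator of the cohomology of a family in degree `t`. -/
def Gn (x : σ → L) (F : ℤ → Finset σ → Submodule ℂ V) (q : ℕ) (t : ℤ) : Prop :=
  ∀ ξ : (Fin (q + 1) → σ) → V, Cc (F t) ξ → cd ξ = 0 → ∃ η : σ → (Fin (q + 1) → σ) → V,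
    (∀ j, Cc (F (t - 1)) (η j) ∧ cd (η j) = 0) ∧ ∀ s, ξ s = ∑ j, x j • η j s

variable {x : σ → L} {F : ℤ → Finset σ → Submodule ℂ V} {lam : ℤ → ℂ} {c₀ : ℂ} {q : ℕ} {t : ℤ}

theorem Op.gn (O : Op x F lam c₀) (hne : 2 * lam t ^ 2 ≠ c₀) (h2 : Vn (F (t - 2)) (q + 1)) :
    Gn x F q t := by
  intro ξ hξ h0
  let ζ : σ → σ → (Fin (q + 1 + 1) → σ) → V := fun i j s =>
    O.Z (s 0) (Fin.tail s 0) i j (ξ (Fin.tail s))
  have hζ : ∀ i j a s, ζ i j (Fin.cons a s) = O.Z a (s 0) i j (ξ s) := fun i j a s => by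
    simp only [ζ, Fin.cons_zero, Fin.tail_cons]
  have hm : ∀ i j, ∃ m : (Fin (q + 1) → σ) → V, Cc (F (t - 2)) m ∧ cd m = ζ i j := fun i j => by
    obtain ⟨m, a, -, b⟩ := h2 (ζ i j) (fun s => O.Zm _ _ _ _ _ _ _ (mem_im s 0) (mem_im s _)
      (O.mono t (im_comp s Fin.succ) (hξ _))) (by
        funext s
        rw [← Fin.cons_self_tail s, cd_cons, ← Fin.cons_self_tail (Fin.tail s)]
        simp only [hζ]
        rw [cd_head (fun b => O.Z (s 0) b i j) h0, Pi.zero_apply, ← sub_add]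
        exact O.coc _ _ _ _ _ t _ _ (hξ _))
    exact ⟨m, a, b⟩
  choose m hm1 hm2 using hm
  let m' : σ → σ → (Fin (q + 1) → σ) → V := fun i j => (1 / 2 : ℂ) • (m i j - m j i)
  have hm3 : ∀ i j a s, cd (m' i j) (Fin.cons a s) = O.Z a (s 0) i j (ξ s) := fun i j a s => by
    simp only [m', cd_smul, cd_sub, hm2, Pi.smul_apply, Pi.sub_apply, hζ]
    rw [O.anti a (s 0) i j]
    module
  let ν : σ → (Fin (q + 1) → σ) → V := fun j => (fun s => ∑ i, x i • m' i j s) +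
    (2 * lam t) • (fun s => O.D (s 0) j (ξ s)) - fun s => O.G (s 0) j (ξ s)
  refine ⟨fun j => (2 * lam t ^ 2 - c₀)⁻¹ • ν j, fun j => ⟨fun s => ?_, ?_⟩, fun s => ?_⟩
  · refine Submodule.smul_mem _ _ (sub_mem (add_mem (Submodule.sum_mem _ fun i _ => ?_)
      (Submodule.smul_mem _ _ (O.Dm _ _ _ _ _ (mem_im s 0) (hξ s))))
      (O.Gm _ _ _ _ _ (mem_im s 0) (hξ s)))
    have := O.xm i (t - 2) (im s) (m' i j s)
      (Submodule.smul_mem _ _ (sub_mem (hm1 i j s) (hm1 j i s)))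
    rwa [show t - 2 + 1 = t - 1 by ring] at this
  · have : cd (ν j) = 0 := by
      funext s
      rw [← Fin.cons_self_tail s]
      simp only [ν, cd_sub, cd_add, cd_smul, Pi.sub_apply, Pi.add_apply, Pi.smul_apply, cd_sx, hm3]
      rw [cd_head (fun b => O.D b j) h0, cd_head (fun b => O.G b j) h0,
        O.con _ _ _ t _ _ (hξ _), Pi.zero_apply]
      abel
    rw [cd_smul, this, smul_zero]
  · have h3 : ∑ j, x j • ∑ i, x i • m' i j s = 0 := by
      have h4 : ∑ j, ∑ i, x j • x i • m j i s = ∑ j, ∑ i, x j • x i • m i j s := by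
        rw [Finset.sum_comm]
        exact Finset.sum_congr rfl fun j _ => Finset.sum_congr rfl fun i _ => smul_comm _ _ _
      simp only [m', Pi.smul_apply, Pi.sub_apply, Finset.smul_sum, smul_comm _ (1 / 2 : ℂ),
        smul_sub, Finset.sum_sub_distrib]
      simp only [← Finset.smul_sum (r := (1 / 2 : ℂ)), h4, sub_self]
    have h5 : ∑ j, x j • ν j s = (2 * lam t ^ 2 - c₀) • ξ s := by
      simp only [ν, Pi.sub_apply, Pi.add_apply, Pi.smul_apply, smul_sub, smul_add,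
        Finset.sum_sub_distrib, Finset.sum_add_distrib, h3, smul_comm _ (2 * lam t)]
      rw [← Finset.smul_sum, O.eul _ t _ _ (hξ s), O.gam _ t _ _ (hξ s)]
      module
    simp only [Pi.smul_apply, smul_comm _ (2 * lam t ^ 2 - c₀)⁻¹]
    rw [← Finset.smul_sum, h5, smul_smul, inv_mul_cancel₀ (sub_ne_zero.2 hne), one_smul]

theorem Gn.vn (hx : ∀ i t I v, v ∈ F t I → x i • v ∈ F (t + 1) I) (h : Gn x F q t)
    (h1 : Vn (F (t - 1)) q) : Vn (F t) q := by
  intro ξ hξ h0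
  obtain ⟨η, a, b⟩ := h ξ hξ h0
  choose κ k1 k2 k3 using fun j => h1 (η j) (a j).1 (a j).2
  refine ⟨fun s => ∑ j, x j • κ j s, fun s => Submodule.sum_mem _ fun j _ => ?_, fun hq => ?_,
    funext fun s => ?_⟩
  · have := hx j (t - 1) (im s) _ (k1 j s)
    rwa [sub_add_cancel] at this
  · funext s
    simp [k2 _ hq]
  · rw [cd_sx, b]
    simp only [k3]

end step

/-- Cocycles of the sheaf of a graded module, denominators cleared. -/
def Coc (σ : Type) {M : Type} [AddCommGroup M] [Module ℂ M] [Module (MvPolynomial σ ℂ) M]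
    (ℳ : ℤ → Submodule ℂ M) (q : ℕ) (t : ℤ) (ν : ℕ) (ξ : (Fin (q + 1) → σ) → M) : Prop :=
  (∀ s, ξ s ∈ ℳ (t + ν * (q + 1))) ∧ ∀ s : Fin (q + 2) → σ, ∑ k : Fin (q + 2),
    ((-1) ^ (k : ℕ) * X (s k) ^ ν : MvPolynomial σ ℂ) • ξ (s ∘ k.succAbove) = 0

/-- No new generator of the cohomology module in degree `t`. -/
def Gen (σ : Type) [Fintype σ] {M : Type} [AddCommGroup M] [Module ℂ M]
    [Module (MvPolynomial σ ℂ) M] (ℳ : ℤ → Submodule ℂ M) (q : ℕ) (t : ℤ) : Prop :=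
  ∀ (ν : ℕ) (ξ : (Fin (q + 1) → σ) → M), Coc σ ℳ q t ν ξ →
    ∃ (μ : ℕ) (η : σ → (Fin (q + 1) → σ) → M), (∀ j, Coc σ ℳ q (t - 1) (ν + μ) (η j)) ∧
      ∀ s, ((∏ k, X (s k)) ^ μ : MvPolynomial σ ℂ) • ξ s =
        ∑ j, (X j : MvPolynomial σ ℂ) • η j s

section bridge

variable {σ M V : Type} [Fintype σ] [DecidableEq σ] {R : LR σ} [AddCommGroup M]
  [Module ℂ M] [Module (Pol σ) M] [IsScalarTower ℂ (Pol σ) M] [AddCommGroup V] [Module ℂ V]
  [Module R.L V] [IsScalarTower ℂ R.L V] {ℳ : ℤ → Submodule ℂ M}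
  {Z : ℤ → Finset σ → Submodule ℂ V} {E : M →+ V}

lemma kill {r : ℕ} (s : Fin (r + 1) → σ) {m : M} {k N : ℕ} (h : (X (s 0) : Pol σ) ^ k • m = 0)
    (hk : k ≤ N) : ((∏ l, X (s l)) ^ N : Pol σ) • m = 0 := by
  obtain ⟨d, rfl⟩ := Nat.exists_eq_add_of_le hk
  have e : ((∏ l, X (s l)) ^ (k + d) : Pol σ) =
      (X (s 0) ^ d * (∏ l : Fin r, X (s l.succ)) ^ (k + d)) * X (s 0) ^ k := by
    rw [Fin.prod_univ_succ, mul_pow]
    ring
  rw [e, mul_smul, h, smul_zero]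

theorem Br.gen (h : Br R ℳ Z E) (hC : SD.Cl (X : σ → Pol σ) (SD.w1 σ) ℳ) {q : ℕ} {t : ℤ}
    (hG : Gn (fun i => R.e (X i)) Z q t) : Gen σ ℳ q t := by
  intro ν ξ ⟨h1, h2⟩
  obtain ⟨η', a1, a2⟩ := hG (fun s => (∏ k, R.y (s k)) ^ ν • E (ξ s))
    (fun s => h.mem _ s t ν _ (by exact_mod_cast h1 s)) (by
      funext s
      have e := FR2x.key h ξ ν s
      rw [h2 s, map_zero] at e
      have e2 := congrArg (fun v => (∏ k, R.y (s k)) ^ ν • v) e
      simp only [smul_zero, smul_smul] at e2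
      rw [mul_comm, R.prod_xy, one_smul] at e2
      exact e2.symm)
  choose n hn using fun p : σ × (Fin (q + 1) → σ) => h.sur q p.2 (t - 1) (η' p.1 p.2) ((a1 p.1).1 p.2)
  set μ := Finset.univ.sup n
  choose m m1 m2 using fun j s => hn (j, s) (ν + μ)
    ((Finset.le_sup (Finset.mem_univ (j, s))).trans (Nat.le_add_left _ _))
  have c1 : ∀ p : σ × (Fin (q + 2) → σ), ∃ k : ℕ, (X (p.2 0) : Pol σ) ^ k • ∑ k : Fin (q + 2),
      ((-1) ^ (k : ℕ) * X (p.2 k) ^ (ν + μ) : Pol σ) • m p.1 (p.2 ∘ k.succAbove) = 0 := fun p => by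
    refine h.ker _ ?_ _
    rw [FR2x.key h, ← funext (m2 p.1), (a1 p.1).2, Pi.zero_apply, smul_zero]
  have c2 : ∀ s : Fin (q + 1) → σ, ∃ k : ℕ, (X (s 0) : Pol σ) ^ k •
      (((∏ k, X (s k)) ^ μ : Pol σ) • ξ s - ∑ j, (X j : Pol σ) • m j s) = 0 := fun s => by
    refine h.ker _ ?_ _
    have e := congrArg (fun v => R.e ((∏ k, X (s k)) ^ (ν + μ)) • v) (a2 s)
    simp only [m2, Finset.smul_sum, smul_smul] at e
    rw [map_sub, map_sum, h.smul, sub_eq_zero]
    convert e using 2 with j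
    · rw [pow_add, map_mul]
      linear_combination (-R.e ((∏ k, X (s k)) ^ μ)) * R.prod_xy Finset.univ s ν
    · rw [h.smul]
      congr 1
      linear_combination (-R.e (X j)) * R.prod_xy Finset.univ s (ν + μ)
  choose k1 c1 using c1
  choose k2 c2 using c2
  set N := max (Finset.univ.sup k1) (Finset.univ.sup k2)
  refine ⟨μ + N, fun j s => ((∏ k, X (s k)) ^ N : Pol σ) • m j s, fun j => ⟨fun s => ?_,
    fun s => ?_⟩, fun s => ?_⟩
  · have := hC.aeval (LR.hom_prod Finset.univ s N) (m1 j s)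
    rw [aeval_X_left_apply] at this
    convert this using 2
    simp only [Finset.card_univ, Fintype.card_fin]
    push_cast
    ring
  · rw [← kill s (c1 (j, s)) ((Finset.le_sup (Finset.mem_univ (j, s))).trans (le_max_left _ _) :
      _ ≤ N), Finset.smul_sum]
    refine Finset.sum_congr rfl fun k _ => ?_
    rw [smul_smul, smul_smul, Fin.prod_univ_succAbove (fun l => (X (s l) : Pol σ)) k]
    congr 1
    simp only [Function.comp_apply]
    ring
  · have e := kill s (c2 s) ((Finset.le_sup (Finset.mem_univ s)).trans (le_max_right _ _) : _ ≤ N)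
    rw [smul_sub, sub_eq_zero, smul_smul, ← pow_add, add_comm N, Finset.smul_sum] at e
    rw [e]
    exact Finset.sum_congr rfl fun j _ => smul_comm _ _ _

end bridge

end Pool.Agent.P.MP_b01859_ag.SC
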