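import Pool.Agent.P.MP_b01859_ag.SC.Base

/-!
The steps of the proof, as separate statements.
-/

namespace Pool.Agent.P.MP_b01859_ag.SC

open MvPolynomial Matrix

-- deps:
def S_LAUR : Prop := ∀ (σ : Type) [Fintype σ], Nonempty (LR σ)

-- deps:
def S_OAPI : Prop := ∀ (σ : Type) [Fintype σ] [DecidableEq σ] (R : LR σ),
  (∀ t, Monotone fun I => R.O I t) ∧
  (∀ I t t' f h, f ∈ R.O I t → h ∈ R.O I t' → f * h ∈ R.O I (t + t')) ∧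
  (∀ I t p, Hom p t → R.e p ∈ R.O I t) ∧
  (∀ I s, s ∈ I → R.y s ∈ R.O I (-1)) ∧
  (∀ I t i f, f ∈ R.O I t → R.D i f ∈ R.O I (t - 1)) ∧
  (∀ I t f, f ∈ R.O I t → ∑ i, R.e (X i) * R.D i f = (t : ℂ) • f) ∧
  ∀ (r : ℕ) (s : Fin r → σ) (t : ℤ) (f : R.L), f ∈ R.O (im s) t → ∃ ν₀ : ℕ, ∀ ν : ℕ, ν₀ ≤ ν →
    ∃ p, Hom p (t + ν * r) ∧ f = R.e p * (∏ k, R.y (s k)) ^ ν

-- deps:
def S_CECH : Prop := ∀ (σ : Type) [Fintype σ] [DecidableEq σ] (R : LR σ) (q : ℕ) (t : ℤ),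
  q + 2 ≤ Fintype.card σ → (q = 0 → t < 0) → Vn (fun I => R.O I t) q

-- deps:
def S_CHASE : Prop := ∀ (σ V : Type) [DecidableEq σ] [AddCommGroup V] [Module ℂ V]
  (A B C : Finset σ → Submodule ℂ V) (u : V →ₗ[ℂ] V), Monotone B → (∀ I, A I ≤ B I) →
  (∀ I v, v ∈ B I → (u v = 0 ↔ v ∈ A I)) → (∀ I v, v ∈ B I → u v ∈ C I) →
  (∀ I, I.Nonempty → ∀ w ∈ C I, ∃ v ∈ B I, u v = w) →
  (Vn B 0 → Vn A 0) ∧ ∀ q, Vn B (q + 1) → Vn C q → Vn A (q + 1)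

-- deps: OAPI CECH CHASE
def S_BASE : Prop := ∀ (σ ι : Type) [Fintype σ] [DecidableEq σ] [Fintype ι] (T : VB σ ι)
  (γ : ι → ℤ) (g c₂ : ℤ) (J : Type) [Fintype J] [DecidableEq J] (P : Pk T γ g c₂ J) (R : LR σ)
  (q : ℕ), q + 2 ≤ Fintype.card σ → ∃ t₀, ∀ t, t ≤ t₀ → Vn (P.Z R 0 t) q

-- deps: OAPI
def S_CONN : Prop := ∀ (σ ι : Type) [Fintype σ] [DecidableEq σ] [Fintype ι] (T : VB σ ι)
  (γ : ι → ℤ) (g c₂ : ℤ) (J : Type) [Fintype J] [DecidableEq J] (P : Pk T γ g c₂ J) (R : LR σ),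
  ∃ B, Conn P R B

-- deps:
def S_CHT : Prop := ∀ (σ ι : Type) [Fintype σ] [DecidableEq σ] [Fintype ι] [Nonempty σ]
  (T : VB σ ι) (γ : ι → ℤ) (g c₂ : ℤ) (J : Type) [Fintype J] [DecidableEq J]
  (P : Pk T γ g c₂ J) (R : LR σ) (A B : Matrix J J R.L), Dg P.c 0 A → Dg P.c 0 B →
  P.dL R * A = A * P.dL R → P.dL R * B = B * P.dL R → str P.c A = 0 → str P.c B = 0 →
  ∀ v, Sup P.c 0 v → P.dL R *ᵥ v = 0 → A *ᵥ (B *ᵥ v) + B *ᵥ (A *ᵥ v) = str P.c (A * B) • v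

-- deps: OAPI CHT
def S_OPS : Prop := ∀ (σ ι : Type) [Fintype σ] [DecidableEq σ] [Fintype ι] (T : VB σ ι)
  (γ : ι → ℤ) (g c₂ : ℤ) (J : Type) [Fintype J] [DecidableEq J] (P : Pk T γ g c₂ J) (R : LR σ)
  (B : σ → σ → Matrix J J R.L), Conn P R B →
  Nonempty (Op (fun i => R.e (X i)) (P.Z R 0) (fun t => (t : ℂ) + (g : ℂ) / 2)
    (((g : ℂ) ^ 2 - 4 * c₂) / 2))

-- deps:
def S_STEP : Prop := ∀ (σ L V : Type) [Fintype σ] [DecidableEq σ] [CommRing L] [Algebra ℂ L]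
  [AddCommGroup V] [Module ℂ V] [Module L V] [IsScalarTower ℂ L V] (x : σ → L)
  (F : ℤ → Finset σ → Submodule ℂ V) (lam : ℤ → ℂ) (c₀ : ℂ), Op x F lam c₀ →
  ∀ (q : ℕ) (t : ℤ), 2 * lam t ^ 2 ≠ c₀ → Vn (F (t - 2)) (q + 1) → Vn (F (t - 1)) q → Vn (F t) q

-- deps: OAPI
def S_LIFT : Prop := ∀ (σ ι M : Type) [Fintype σ] [DecidableEq σ] [Fintype ι] [AddCommGroup M]
  [Module ℂ M] [Module (Pol σ) M] [IsScalarTower ℂ (Pol σ) M] (ℳ : ℤ → Submodule ℂ M)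
  (T : VB σ ι) (γ : ι → ℤ) (g c₂ : ℤ) (L : M →ₗ[Pol σ] T.N) (J : Type) [Fintype J]
  [DecidableEq J] (P : Pk T γ g c₂ J) (R : LR σ), SD.Lift ℳ T γ g L →
  SD.Cl (X : σ → Pol σ) (SD.w1 σ) ℳ →
  ∃ E : M →+ (J → R.L), Br R ℳ (fun t => P.Z R 0 (t - g)) E

-- deps:
def S_FR1 : Prop := ∀ (σ M V : Type) [Fintype σ] [DecidableEq σ] (R : LR σ) [AddCommGroup M]
  [Module ℂ M] [Module (Pol σ) M] [IsScalarTower ℂ (Pol σ) M] [AddCommGroup V] [Module ℂ V]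
  [Module R.L V] [IsScalarTower ℂ R.L V] (ℳ : ℤ → Submodule ℂ M)
  (Z : ℤ → Finset σ → Submodule ℂ V) (E : M →+ V), SD.Cl (X : σ → Pol σ) (SD.w1 σ) ℳ →
  Br R ℳ Z E → ∀ (q : ℕ) (t : ℤ), Van σ ℳ q t → Vn (Z t) q

-- deps:
def S_FR2 : Prop := ∀ (σ M V : Type) [Fintype σ] [DecidableEq σ] (R : LR σ) [AddCommGroup M]
  [Module ℂ M] [Module (Pol σ) M] [IsScalarTower ℂ (Pol σ) M] [AddCommGroup V] [Module ℂ V]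
  [Module R.L V] [IsScalarTower ℂ R.L V] (ℳ : ℤ → Submodule ℂ M)
  (Z : ℤ → Finset σ → Submodule ℂ V) (E : M →+ V), SD.Cl (X : σ → Pol σ) (SD.w1 σ) ℳ →
  Br R ℳ Z E → ∀ (q : ℕ) (t : ℤ), Vn (Z t) q → Van σ ℳ q t

-- deps: OAPI
def S_SEC : Prop := ∀ (σ ι : Type) [Fintype σ] [DecidableEq σ] [Fintype ι] [Nonempty σ]
  (T : VB σ ι) (γ : ι → ℤ) (g c₂ : ℤ) (J : Type) [Fintype J] [DecidableEq J]
  (P : Pk T γ g c₂ J) (R : LR σ) (φ : T.N) (α : ℤ), φ ≠ 0 → VB.HomN (SD.w1 σ) γ φ α →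
  ¬ Vn (P.Z R 0 α) 0

-- deps: SD.BOG SD.C2P
def S_EXC : Prop := ∀ (σ ι : Type) [Fintype σ] [Fintype ι] (n : ℕ) (T : VB σ ι)
  (γ : ι → ℤ) (g c₂ : ℤ) (a b : ℂ), SD.Ch n T γ g c₂ a b → ¬ Sp T.ω →
  (∀ t, SD.qq g c₂ t ≠ 0) ∨ ∃ (φ : T.N) (α : ℤ), φ ≠ 0 ∧ VB.HomN (SD.w1 σ) γ φ α ∧
    ∀ t, t ≤ α → SD.qq g c₂ t ≠ 0

-- deps: SG.GEN SG.TOWER
def S_RESF : Prop :=
  ∀ (σ ι : Type) [Fintype σ] [Fintype ι] (T : VB σ ι) (γ : ι → ℤ) (g : ℤ),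
    Gr (SD.w1 σ) γ g T.ω →
    ∃ (I : Type) (_ : Fintype I) (T' : VB σ I) (c γ' : I → ℤ) (d : Matrix I I (Pol σ))
      (j : ι → I), Res T' c γ' g d ∧ Function.Injective j ∧
      (∀ a b, T'.ω (j a) (j b) = T.ω a b) ∧ (∀ a, γ' (j a) = γ a) ∧ (∀ a, c (j a) = 0) ∧
      ∀ a, c a = 0 → ∃ b, j b = a

-- deps:
def S_CERT : Prop :=
  ∀ (σ I : Type) [Fintype σ] [Fintype I] [DecidableEq I] (T : VB σ I) (c γ : I → ℤ) (g : ℤ)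
    (d : Matrix I I (Pol σ)), Res T c γ g d →
    ∃ N : ℕ, ∀ s : σ, ∃ h ψ : Matrix I I (Pol σ),
      SG.Deg c c (-1) h ∧ SG.Hom γ (fun a => γ a + N) h ∧
      (∀ a b, ψ a b ≠ 0 → c a = 0 ∧ c b = 0) ∧ SG.Hom γ (fun a => g - γ a + N) ψ ∧ ψᵀ = -ψ ∧
      d * h + h * d + ψ * of T.ω = (X s : Pol σ) ^ N • (1 : Matrix I I (Pol σ))

-- deps: SD.BN
def S_EUL : Prop :=
  ∀ (σ I : Type) [Fintype σ] [Fintype I] (n : ℕ) (T : VB σ I) (c γ : I → ℤ) (g : ℤ)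
    (d : Matrix I I (Pol σ)), Fintype.card σ = n + 1 → Res T c γ g d →
    ∀ t, SD.hM T γ t = ∑ a, (-1) ^ (c a).natAbs * SD.bn n (t - γ a)

-- deps: EUL SD.BN SD.POLY
def S_MOM : Prop :=
  ∀ (σ I : Type) [Fintype σ] [Fintype I] (n : ℕ) (T : VB σ I) (c γ : I → ℤ) (g c₂ : ℤ)
    (a b : ℂ) (d : Matrix I I (Pol σ)), SD.Ch n T γ g c₂ a b → Res T c γ g d →
    (∑ e, (-1 : ℂ) ^ c e = 2) ∧ (∑ e, (-1 : ℂ) ^ c e * γ e = g) ∧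
      ∑ e, (-1 : ℂ) ^ c e * (γ e : ℂ) ^ 2 = (g : ℂ) ^ 2 - 2 * c₂

-- deps: RESF CERT MOM EXC SD.CHERN
def S_PACK : Prop := ∀ (σ ι : Type) [Fintype σ] [DecidableEq σ] [Fintype ι] (n : ℕ) (T : VB σ ι)
  (γ : ι → ℤ) (g : ℤ), Fintype.card σ = n + 1 → 5 ≤ n → Gr (SD.w1 σ) γ g T.ω → ¬ Sp T.ω →
  ∃ (c₂ : ℤ) (J : Type) (_ : Fintype J) (_ : DecidableEq J), Nonempty (Pk T γ g c₂ J) ∧
    ((∀ t, SD.qq g c₂ t ≠ 0) ∨ ∃ (φ : T.N) (α : ℤ), φ ≠ 0 ∧ VB.HomN (SD.w1 σ) γ φ α ∧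
      ∀ t, t ≤ α → SD.qq g c₂ t ≠ 0)

-- deps: SD.FRL PACK LAUR BASE CONN OPS STEP LIFT FR1 FR2 SEC
def S_MAIN : Prop := ∀ (σ M : Type) [Fintype σ] [AddCommGroup M] [Module ℂ M] [Module (Pol σ) M]
  [IsScalarTower ℂ (Pol σ) M] [Module.Finite (Pol σ) M] (ℳ : ℤ → Submodule ℂ M) (n : ℕ),
  Fintype.card σ = n + 1 → 5 ≤ n → DirectSum.IsInternal ℳ →
  SD.Cl (X : σ → Pol σ) (SD.w1 σ) ℳ → SD.LF2 σ M →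
  SD.SplitM σ ℳ ∨ ∀ (q : ℕ) (T : ℤ), q + 2 ≤ n → (∀ t, t ≤ T - 2 → Van σ ℳ (q + 1) t) →
    ∀ t, t ≤ T → Van σ ℳ q t

end Pool.Agent.P.MP_b01859_ag.SC
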