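import Pool.Agent.P.MP_b01859_ag.SC.Iface

/-! The resolving complex of a bundle with given Chern roots. -/

set_option linter.unusedSectionVars false

namespace Pool.Agent.P.MP_b01859_ag.SC

open MvPolynomial Matrix

variable {σ ι I : Type} [Fintype σ] [DecidableEq σ] [Fintype ι] [Fintype I] {T : VB σ ι}
  {T' : VB σ I} {γ : ι → ℤ} {γ' : I → ℤ} {j : ι → I}

lemma hd_EN (hj : Function.Injective j) (hω : ∀ a b, T'.ω (j a) (j b) = T.ω a b)
    (hγ : ∀ a, γ' (j a) = γ a) (h0 : ∀ a b, (¬ ∃ y, j y = a) → T'.ω a b = 0) {R : Type}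
    [CommRing R] [Algebra ℂ R] (x : σ → R) (N : ℤ → Submodule ℂ R) :
    SD.hd (SD.EN T' γ' x N) = SD.hd (SD.EN T γ x N) := by
  funext t
  let e : (ι → R) →ₗ[ℂ] (I → R) :=
    { toFun := fun f => Function.extend j f 0
      map_add' := fun f h => by simpa using Function.extend_add j f h 0 0
      map_smul' := fun r f => by simpa using Function.extend_smul r j f 0 }
  have e1 : ∀ f a, e f (j a) = f a := fun f a => hj.extend_apply f _ a
  have e0 : ∀ f a, (¬ ∃ y, j y = a) → e f a = 0 := fun f a h => Function.extend_apply' f _ a h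
  have he : Function.Injective e := fun f h hf => funext fun a => by rw [← e1 f, hf, e1]
  have hs : ∀ (n : I → R) a, ∑ s, aeval x (T.ω s a) * n (j s) =
      ∑ s, aeval x (T'.ω s (j a)) * n s := fun n a =>
    Fintype.sum_of_injective j hj _ _ (fun s h => by rw [h0 s _ h, map_zero, zero_mul])
      fun s => by rw [hω]
  have hz : ∀ (n : I → R) a, (¬ ∃ y, j y = a) → ∑ s, aeval x (T'.ω s a) * n s = 0 :=
    fun n a h => Finset.sum_eq_zero fun s _ => by rw [T'.skew, h0 a s h]; simp
  have key : (SD.EN T γ x N t).map e = SD.EN T' γ' x N t := by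
    ext φ
    constructor
    · rintro ⟨ψ, ⟨n, hn, h⟩, rfl⟩
      refine ⟨e n, fun s => ?_, fun a => ?_⟩
      · by_cases hs : ∃ y, j y = s
        · obtain ⟨y, rfl⟩ := hs
          rw [e1, hγ]
          exact hn y
        · rw [e0 _ _ hs]
          exact zero_mem _
      · by_cases ha : ∃ y, j y = a
        · obtain ⟨y, rfl⟩ := ha
          rw [e1, h, ← hs]
          simp only [e1]
        · rw [e0 _ _ ha, hz _ _ ha]
    · rintro ⟨n, hn, h⟩
      refine ⟨φ ∘ j, ⟨n ∘ j, fun s => hγ s ▸ hn (j s), fun a => (h _).trans (hs n a).symm⟩,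
        funext fun a => ?_⟩
      by_cases ha : ∃ y, j y = a
      · obtain ⟨y, rfl⟩ := ha
        exact e1 _ y
      · rw [e0 _ _ ha, h, hz _ _ ha]
  unfold SD.hd
  rw [← key, (Submodule.equivMapOfInjective e he _).finrank_eq]

theorem exists_pk (hRESF : S_RESF) (hCERT : S_CERT) (hMOM : S_MOM) {n : ℕ} {g c₂ : ℤ} {a b : ℂ}
    (hT : SD.Ch n T γ g c₂ a b) :
    ∃ (J : Type) (_ : Fintype J) (_ : DecidableEq J), Nonempty (Pk T γ g c₂ J) := by
  obtain ⟨I, _, T', c, γ', d, j, R, hj, hω, hγ, hcj, hc⟩ := hRESF σ ι T γ g hT.gr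
  classical
  have hC : SD.Ch n T' γ' g c₂ a b := ⟨hT.card, hT.five, R.gr, hT.sum, hT.mul,
    fun A _ _ x N h1 h2 Q h3 => by
      rw [hd_EN hj hω hγ fun x z h => by_contra fun h' => h (hc x (R.sup x z h').1)]
      exact hT.rr A x N h1 h2 Q h3⟩
  obtain ⟨m0, m1, m2⟩ := hMOM σ I n T' c γ' g c₂ a b d hC R
  obtain ⟨N, hN⟩ := hCERT σ I T' c γ' g d R
  have hs : (of T'.ω)ᵀ = -of T'.ω := by
    ext1 x z
    exact T'.skew x z
  have hneg : ∀ x, (-1 : ℂ) ^ (-c x) = (-1 : ℂ) ^ c x := fun x => by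
    rw [_root_.zpow_neg, ← _root_.inv_zpow]
    norm_num
  refine ⟨I, inferInstance, inferInstance, ⟨⟨fun x => -c x, fun x => -γ' x, dᵀ, of T'.ω, j,
    R.cx.transpose, fun x => neg_nonneg.mpr (R.c0 x), hj, fun x => ⟨fun h => hc x (neg_eq_zero.mp h),
      fun ⟨y, h⟩ => by rw [← h, hcj, neg_zero]⟩, fun x => by rw [hγ], hω,
      fun x z h => by simpa using R.sup x z h, ?_, fun s => ?_, by simpa only [hneg] using m0, ?_,
      ?_⟩⟩⟩
  · have := congrArg transpose R.ωd
    rwa [transpose_mul, hs, Matrix.mul_neg, transpose_zero, neg_eq_zero] at this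
  · obtain ⟨h, ψ, e1, e2, e3, e4, e5, e6⟩ := hN s
    refine ⟨N, hᵀ, ψ, e1.transpose, fun x z => ?_, e5, fun x z h0 => by simpa using e3 x z h0,
      fun x z => ?_, ?_⟩
    · exact hom_congr (e2 z x) (by ring)
    · exact hom_congr (e4 x z) (by ring)
    · have := congrArg transpose e6
      rw [transpose_add, transpose_add, transpose_mul, transpose_mul, transpose_mul, hs, e5,
        Matrix.neg_mul, Matrix.mul_neg, neg_neg, transpose_smul, transpose_one,
        add_comm (hᵀ * dᵀ)] at this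
      exact this
  · simp only [hneg]
    push_cast
    simp only [mul_neg, Finset.sum_neg_distrib, m1]
  · simp only [hneg]
    push_cast
    simp only [neg_sq, m2]

end Pool.Agent.P.MP_b01859_ag.SC
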