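import Pool.Agent.P.MP_b01859_ag.SC.Iface

/-! Step CECH. -/

set_option autoImplicit false
set_option linter.unusedSectionVars false

namespace Pool.Agent.P.MP_b01859_ag.SC

open MvPolynomial Matrix

namespace CECHx

variable {σ : Type} [Fintype σ] [DecidableEq σ] (R : LR σ)

lemma wt (d : σ →₀ ℕ) : Finsupp.weight (fun _ : σ => (1 : ℤ)) d = ∑ i, (d i : ℤ) := by
  rw [Finsupp.weight_apply, Finsupp.sum_fintype] <;> simp

lemma mon (A : Finset σ) (ν : ℕ) :
    ((∏ i ∈ A, X i) ^ ν : Pol σ) = monomial (∑ i ∈ A, Finsupp.single i ν) 1 := by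
  rw [← Finset.prod_pow, monomial_sum_one]
  exact Finset.prod_congr rfl fun i _ => X_pow_eq_monomial

lemma mon_apply (A : Finset σ) (ν : ℕ) (i : σ) :
    (∑ j ∈ A, Finsupp.single j ν) i = if i ∈ A then ν else 0 := by
  rw [Finsupp.finsetSum_apply]
  simp [Finsupp.single_apply]

lemma cancel (I : Finset σ) (p : Pol σ) (ν : ℕ) :
    R.e (p * (∏ i ∈ Iᶜ, X i) ^ ν) * (∏ i, R.y i) ^ ν = R.e p * (∏ i ∈ I, R.y i) ^ ν := by
  rw [← Finset.prod_mul_prod_compl I, mul_pow, map_mul]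
  linear_combination (R.e p * (∏ i ∈ I, R.y i) ^ ν) * R.prod_xy Iᶜ (fun i => i) ν

lemma card_add (I : Finset σ) : (I.card : ℤ) + (Iᶜ.card : ℤ) = Fintype.card σ := by
  exact_mod_cast Finset.card_add_card_compl I

lemma fwd {I : Finset σ} {t : ℤ} {f : R.L} (hf : f ∈ R.O I t) : ∃ ν₀ : ℕ, ∀ ν, ν₀ ≤ ν →
    ∃ p : Pol σ, Hom p (t + ν * Fintype.card σ) ∧ (∀ d, coeff d p ≠ 0 → ∀ i ∉ I, ν ≤ d i) ∧
      f = R.e p * (∏ i, R.y i) ^ ν := by
  obtain ⟨ν₀, p, hp, rfl⟩ := hf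
  refine ⟨ν₀, fun ν hν => ?_⟩
  obtain ⟨k, rfl⟩ := Nat.exists_eq_add_of_le hν
  refine ⟨p * (∏ i ∈ I, X i) ^ k * (∏ i ∈ Iᶜ, X i) ^ (ν₀ + k),
    hom_congr ((hp.mul (LR.hom_prod I id k)).mul (LR.hom_prod Iᶜ id (ν₀ + k))) ?_,
    fun d hd i hi => ?_, ?_⟩
  · rw [← card_add I]; push_cast; ring
  · rw [mon Iᶜ, coeff_mul_monomial'] at hd
    split_ifs at hd with h
    · have := h i
      rwa [mon_apply, if_pos (Finset.mem_compl.2 hi)] at this
    · exact absurd rfl hd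
  · rw [cancel, ← R.lift I (fun i => i)]

lemma bwd {I : Finset σ} {t : ℤ} {ν : ℕ} {p : Pol σ} (hp : Hom p (t + ν * Fintype.card σ))
    (h : ∀ d, coeff d p ≠ 0 → ∀ i ∉ I, ν ≤ d i) : R.e p * (∏ i, R.y i) ^ ν ∈ R.O I t := by
  have h0 : modMonomial p (∑ i ∈ Iᶜ, Finsupp.single i ν) = 0 := by
    ext d
    by_cases hd : (∑ i ∈ Iᶜ, Finsupp.single i ν) ≤ d
    · rw [coeff_modMonomial_of_le _ hd, coeff_zero]
    · rw [coeff_modMonomial_of_not_le _ hd, coeff_zero]
      by_contra hc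
      refine hd fun i => ?_
      rw [mon_apply]
      split_ifs with hi
      · exact h d hc i (Finset.mem_compl.1 hi)
      · exact Nat.zero_le _
  have h1 := divMonomial_add_modMonomial p (∑ i ∈ Iᶜ, Finsupp.single i ν)
  rw [h0, add_zero, ← mon, mul_comm] at h1
  refine ⟨ν, divMonomial p (∑ i ∈ Iᶜ, Finsupp.single i ν), fun d hd => ?_, ?_⟩
  · rw [coeff_divMonomial] at hd
    have h2 := hp hd
    have h3 := LR.hom_prod Iᶜ id ν (d := ∑ i ∈ Iᶜ, Finsupp.single i ν) (by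
      simp only [id]
      rw [mon, coeff_monomial, if_pos rfl]
      exact one_ne_zero)
    rw [map_add, h3, ← card_add I] at h2
    linear_combination h2
  · rw [← cancel R I, h1]

end CECHx

open CECHx in
theorem p_CECH :
    S_CECH := by
  intro σ _ _ R q t hq ht ξ hξ hc
  choose ν₀ hν₀ using fun s => fwd R (hξ s)
  obtain ⟨ν, hν⟩ : ∃ ν, ∀ s, ν₀ s ≤ ν :=
    ⟨Finset.univ.sup ν₀, fun s => Finset.le_sup (Finset.mem_univ s)⟩
  choose p p1 p2 p3 using fun s => hν₀ s ν (hν s)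
  let u : Pol σ →ₗ[ℂ] R.L := LinearMap.mulRight ℂ ((∏ i, R.y i) ^ ν) ∘ₗ R.e.toLinearMap
  have hu : ∀ x, u x = R.e x * (∏ i, R.y i) ^ ν := fun _ => rfl
  have hξ' : ξ = fun s => u (p s) := funext p3
  have hp : ∀ s, cd p s = 0 := by
    intro s
    have h1 := congrFun hc s
    rw [hξ', cd_map, hu, Pi.zero_apply] at h1
    refine R.inj ?_
    rw [map_zero]
    linear_combination R.e ((∏ i, X i) ^ ν) * h1 -
      R.e (cd p s) * R.prod_xy Finset.univ (fun i => i) ν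
  have hne : ∀ s : Fin (q + 1) → σ, ∃ i, i ∉ im s := by
    intro s
    by_contra! h
    have h1 : (Finset.univ : Finset σ).card ≤ (im s).card :=
      Finset.card_le_card fun i _ => h i
    have h2 : (im s).card ≤ (Finset.univ : Finset (Fin (q + 1))).card := Finset.card_image_le
    rw [Finset.card_univ] at h1
    rw [Finset.card_univ, Fintype.card_fin] at h2
    omega
  have : Nonempty σ := Fintype.card_pos_iff.1 (by omega)
  obtain ⟨a, ha⟩ : ∃ a : (σ →₀ ℕ) → σ, ∀ d : σ →₀ ℕ, (∃ i, ν ≤ d i) → ν ≤ d (a d) :=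
    ⟨fun d => Classical.epsilon fun i => ν ≤ d i, fun d h => Classical.epsilon_spec h⟩
  obtain ⟨η, hη⟩ : ∃ η : (Fin q → σ) → Pol σ,
      ∀ s d, coeff d (η s) = coeff d (p (Fin.cons (a d) s)) := by
    refine ⟨fun s => ∑ d ∈ Finset.univ.biUnion fun s' => (p s').support,
      monomial d (coeff d (p (Fin.cons (a d) s))), fun s d => ?_⟩
    simp only [coeff_sum, coeff_monomial, Finset.sum_ite_eq']
    split_ifs with h
    · rfl
    · by_contra hc
      exact h (Finset.mem_biUnion.2 ⟨_, Finset.mem_univ _, mem_support_iff.2 (Ne.symm hc)⟩)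
  have η1 : ∀ s, Hom (η s) (t + ν * Fintype.card σ) := fun s d hd => p1 _ (hη s d ▸ hd)
  have η2 : ∀ s d, coeff d (η s) ≠ 0 → ∀ i ∉ im s, ν ≤ d i := by
    intro s d hd i hi
    rw [hη] at hd
    by_cases h : i = a d
    · obtain ⟨j, hj⟩ := hne (Fin.cons (a d) s)
      exact h ▸ ha d ⟨j, p2 _ d hd j hj⟩
    · refine p2 _ d hd i fun hm => ?_
      obtain ⟨k, -, rfl⟩ := Finset.mem_image.1 hm
      revert h hi
      refine Fin.cases ?_ (fun k => ?_) k
      · simp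
      · intro hi _
        exact hi (by simpa using mem_im s k)
  refine ⟨fun s => u (η s), fun s => bwd R (η1 s) (η2 s), fun h0 => ?_, ?_⟩
  · funext s
    have : η s = 0 := by
      ext d
      by_contra hd
      have h1 := η1 s hd
      have h2 : ∑ _i : σ, (ν : ℤ) ≤ ∑ i, (d i : ℤ) := Finset.sum_le_sum fun i _ => by
        refine Int.ofNat_le.2 (η2 s d hd i fun hm => ?_)
        obtain ⟨k, -, -⟩ := Finset.mem_image.1 hm
        exact absurd k.2 (by omega)
      rw [wt] at h1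
      rw [Finset.sum_const, Finset.card_univ, nsmul_eq_mul, h1, mul_comm] at h2
      have := ht h0
      omega
    simp [this]
  · funext s
    rw [cd_map, hξ']
    refine congrArg u (MvPolynomial.ext _ _ fun d => ?_)
    have h1 := cd_map (lcoeff ℂ d) η s
    have h2 := cd_map (lcoeff ℂ d) p (Fin.cons (a d) s)
    rw [hp, map_zero, cd_cons] at h2
    simp only [lcoeff_apply, hη] at h1 h2
    rw [← h1]
    exact (sub_eq_zero.1 h2).symm

end Pool.Agent.P.MP_b01859_ag.SC
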