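import Pool.Agent.P.MP_b01859_ag.SC.Iface

/-! Step CERT. -/

set_option autoImplicit false

namespace Pool.Agent.P.MP_b01859_ag.SC

open MvPolynomial Matrix SG

variable {σ I : Type} [Fintype I]

omit [Fintype I] in
lemma cert_skew (T : VB σ I) : (of T.ω)ᵀ = -of T.ω := by
  ext1 a b
  exact T.skew a b

lemma cert_pl (T : VB σ I) (Z : Matrix I I (Pol σ)) :
    of T.ω * (Z * of T.ω) + (Z * of T.ω)ᵀ * of T.ω = trace (Z * of T.ω) • of T.ω := by
  ext1 i j
  have h1 : (of T.ω * (Z * of T.ω)) i j = ∑ a, ∑ b, Z a b * (T.ω i a * T.ω b j) := by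
    simp [mul_apply, Finset.mul_sum, mul_left_comm]
  have h2 : ((Z * of T.ω)ᵀ * of T.ω) i j = ∑ a, ∑ b, Z a b * (T.ω b i * T.ω a j) := by
    simp only [mul_apply, transpose_apply, of_apply, Finset.sum_mul, mul_assoc]
  have h3 : (trace (Z * of T.ω) • of T.ω) i j = ∑ a, ∑ b, Z a b * (T.ω b a * T.ω i j) := by
    simp [trace, mul_apply, Finset.sum_mul, mul_assoc]
  rw [Matrix.add_apply, h1, h2, h3, ← Finset.sum_add_distrib]
  refine Finset.sum_congr rfl fun a _ => ?_
  rw [← Finset.sum_add_distrib]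
  refine Finset.sum_congr rfl fun b _ => ?_
  have e1 := T.pl i a b j
  have e2 := T.skew i b
  have e3 := T.skew a b
  linear_combination Z a b * e1 + Z a b * T.ω a j * e2 - Z a b * T.ω i j * e3

lemma Res.kill {T : VB σ I} {c γ : I → ℤ} {g : ℤ} {d : Matrix I I (Pol σ)} (R : Res T c γ g d)
    {Y : Matrix I I (Pol σ)} (hY : Deg c c (-1) Y) : of T.ω * Y = 0 := by
  ext1 a b
  rw [mul_apply]
  refine Finset.sum_eq_zero fun e _ => ?_
  by_cases h : Y e b = 0
  · simp [h]
  · have h1 := hY e b h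
    have h2 := R.c0 b
    have h3 : T.ω a e = 0 := by_contra fun h4 => by have := (R.sup a e h4).2; omega
    simp [h3]

lemma Res.col {T : VB σ I} {c γ : I → ℤ} {g : ℤ} {d : Matrix I I (Pol σ)} (R : Res T c γ g d)
    {k : ℤ} {v : I → Pol σ} (hv : Supp c k v) (h1 : d *ᵥ v = 0) (h2 : of T.ω *ᵥ v = 0) :
    ∃ u, Supp c (k - 1) u ∧ d *ᵥ u = v := by
  rcases lt_trichotomy k 0 with h | rfl | h
  · exact R.ex k (by omega) v hv h1
  · exact R.ex0 v hv h2
  · have : v = 0 := hv.eq_zero fun a => by have := R.c0 a; omega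
    exact ⟨0, Supp.zero, by simp [this]⟩

lemma Res.null {T : VB σ I} {c γ : I → ℤ} {g : ℤ} {d : Matrix I I (Pol σ)} (R : Res T c γ g d)
    (N L : ℤ) (hL : ∀ a, L ≤ c a) (k : ℕ) :
    ∀ ρ : Matrix I I (Pol σ), Deg c c 0 ρ → SG.Hom γ (fun a => γ a + N) ρ → d * ρ = ρ * d →
      of T.ω * ρ = 0 → (∀ a b, ρ a b ≠ 0 → c b < L + k) →
      ∃ h, Deg c c (-1) h ∧ SG.Hom γ (fun a => γ a + N) h ∧ d * h + h * d = ρ := by
  classical
  induction k with
  | zero =>
    intro ρ _ _ _ _ h
    refine ⟨0, Deg.zero, SG.Hom.zero, ?_⟩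
    ext1 a b
    by_contra h1
    have h2 := h a b fun h3 => h1 (by simp [h3])
    have := hL b
    omega
  | succ k ih =>
    intro ρ h0 hh hd hω hs
    have hcol : ∀ b, c b = L + k → ∃ u, Supp c (L + k - 1) u ∧
        (∀ a, Hom (u a) (γ b + N - γ a)) ∧ d *ᵥ u = ρᵀ b := by
      intro b hb
      obtain ⟨u, hu, e⟩ := R.col (k := L + k) (v := ρᵀ b)
        (fun a h => by have := h0 a b h; omega)
        (by
          funext a
          have h1 : (d *ᵥ ρᵀ b) a = (ρ * d) a b := by rw [← hd]; rfl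
          rw [h1, mul_apply]
          refine Finset.sum_eq_zero fun e _ => ?_
          by_cases h2 : d e b = 0
          · simp [h2]
          · have h3 := R.cx.deg e b h2
            have h4 : ρ a e = 0 := by_contra fun h5 => by
              have := hs a e h5
              push_cast at this
              omega
            simp [h4])
        (by
          funext a
          have h1 : (of T.ω *ᵥ ρᵀ b) a = (of T.ω * ρ) a b := rfl
          rw [h1, hω]
          rfl)
      refine ⟨comp γ (γ b + N) u, hu.comp _ _, fun a =>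
        weightedHomogeneousComponent_isWeightedHomogeneous _ _, ?_⟩
      rw [R.cx.hom.mulVec_comp, e]
      funext a
      exact (hh a b).weightedHomogeneousComponent_same
    choose! u hu1 hu2 hu3 using hcol
    let h' : Matrix I I (Pol σ) := of fun a b => if c b = L + k then u b a else 0
    have d1 : Deg c c (-1) h' := by
      intro a b h
      by_cases hb : c b = L + k
      · have := hu1 b hb a (by simpa [h', hb] using h)
        omega
      · exact absurd (by simp [h', hb]) h
    have d2 : SG.Hom γ (fun a => γ a + N) h' := by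
      intro a b
      by_cases hb : c b = L + k
      · simpa [h', hb] using hu2 b hb a
      · simp only [h', of_apply, if_neg hb]
        exact isWeightedHomogeneous_zero ℂ _ _
    have d3 : SG.Hom (fun a => γ a + N) (fun a => γ a + N) d := by
      intro a b
      have := R.cx.hom a b
      rwa [show γ b - γ a = γ b + N - (γ a + N) by ring] at this
    obtain ⟨h, e1, e2, e3⟩ := ih (ρ - (d * h' + h' * d))
      (h0.sub ((R.cx.deg.mul d1 rfl).add (d1.mul R.cx.deg rfl)))
      (hh.sub ((R.cx.hom.mul d2).add (d2.mul d3)))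
      (by
        rw [Matrix.mul_sub, Matrix.sub_mul, hd, Matrix.mul_add, Matrix.add_mul,
          ← Matrix.mul_assoc d d, R.cx.sq, Matrix.mul_assoc h' d d, R.cx.sq]
        simp [Matrix.mul_assoc])
      (by
        rw [Matrix.mul_sub, hω, Matrix.mul_add, ← Matrix.mul_assoc, R.ωd, ← Matrix.mul_assoc,
          R.kill d1]
        simp)
      (by
        intro a b hne
        by_contra hb
        apply hne
        have k1 : (h' * d) a b = 0 := by
          rw [mul_apply]
          refine Finset.sum_eq_zero fun e _ => ?_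
          by_cases h2 : d e b = 0
          · simp [h2]
          · have h3 := R.cx.deg e b h2
            have h4 : ¬ c e = L + k := by omega
            simp [h', h4]
        rw [Matrix.sub_apply, Matrix.add_apply, k1, add_zero]
        by_cases hb' : c b = L + k
        · have k2 : (d * h') a b = (d *ᵥ u b) a := by
            simp [mul_apply, h', hb', mulVec, dotProduct]
          rw [k2, hu3 b hb']
          simp
        · have k2 : (d * h') a b = 0 := by simp [mul_apply, h', hb']
          have k3 : ρ a b = 0 := by_contra fun h5 => by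
            have := hs a b h5
            push_cast at this
            omega
          rw [k2, k3, sub_zero])
    refine ⟨h + h', e1.add d1, e2.add d2, ?_⟩
    rw [Matrix.mul_add, Matrix.add_mul, ← sub_eq_zero]
    rw [← sub_eq_zero] at e3
    rw [← e3]
    abel

lemma exists_pow_eq [Fintype σ] (T : VB σ I) {γ : I → ℤ} {g : ℤ} (hG : Gr (SD.w1 σ) γ g T.ω) :
    ∃ N : ℕ, ∀ s : σ, ∃ μ : I → I → Pol σ, (∀ a b, Hom (μ a b) (N - (γ a + γ b - g))) ∧
      (∀ a b, T.ω a b = 0 → μ a b = 0) ∧ ∑ a, ∑ b, μ a b * T.ω a b = X s ^ N := by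
  classical
  have h1 : ∀ s : σ, ∃ N : ℕ, (X s : Pol σ) ^ N ∈
      Ideal.span (Set.range fun ab : I × I => T.ω ab.1 ab.2) := by
    intro s
    change X s ∈ Ideal.radical _
    rw [Ideal.radical_eq_sInf, Ideal.mem_sInf]
    rintro p ⟨hp1, hp2⟩
    by_contra h
    obtain ⟨i, j, h2⟩ := T.LF p hp2 s h
    exact h2 (hp1 (Ideal.subset_span ⟨(i, j), rfl⟩))
  choose n hn using h1
  refine ⟨Finset.univ.sup n, fun s => ?_⟩
  have h2 := Ideal.pow_mem_of_pow_mem _ (hn s) (Finset.le_sup (f := n) (Finset.mem_univ s))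
  generalize Finset.univ.sup n = N at h2
  obtain ⟨μ, hμ⟩ := (Ideal.mem_span_range_iff_exists_fun).mp h2
  refine ⟨fun a b => if T.ω a b = 0 then 0 else
    weightedHomogeneousComponent (fun _ => (1 : ℤ)) (N - (γ a + γ b - g)) (μ (a, b)),
    fun a b => ?_, fun a b h => if_pos h, ?_⟩
  · dsimp only
    split_ifs
    · exact isWeightedHomogeneous_zero ℂ _ _
    · exact weightedHomogeneousComponent_isWeightedHomogeneous _ _
  · have h3 : Hom ((X s : Pol σ) ^ N) N := by
      simpa using (isWeightedHomogeneous_X ℂ (fun _ : σ => (1 : ℤ)) s).pow N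
    rw [← h3.weightedHomogeneousComponent_same, ← hμ, Fintype.sum_prod_type, map_sum]
    refine Finset.sum_congr rfl fun a _ => ?_
    rw [map_sum]
    refine Finset.sum_congr rfl fun b _ => ?_
    dsimp only
    split_ifs with h
    · simp [h]
    · rw [mul_comm, mul_comm (μ (a, b)), ← comp_mul (hG a b)]
      congr 2
      ring

theorem p_CERT :
    S_CERT := by
  intro σ I _ _ _ T c γ g d R
  obtain ⟨N, hN⟩ := exists_pow_eq T R.gr
  refine ⟨N, fun s => ?_⟩
  obtain ⟨μ, m1, m2, m3⟩ := hN s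
  let Z : Matrix I I (Pol σ) := (of μ)ᵀ
  have s1 : ∀ a b, μ a b ≠ 0 → c a = 0 ∧ c b = 0 := fun a b h => R.sup a b fun h1 => h (m2 a b h1)
  have s2 : ∀ a b, (Z - Zᵀ) a b ≠ 0 → c a = 0 ∧ c b = 0 := by
    intro a b h
    by_cases h1 : μ a b = 0
    · exact (s1 b a (by simpa [Z, h1] using h)).symm
    · exact s1 a b h1
  have s3 : SG.Hom γ (fun a => g - γ a + N) (Z - Zᵀ) := by
    refine SG.Hom.sub (fun a b => ?_) fun a b => ?_
    · have := m1 b a
      rwa [show (N : ℤ) - (γ b + γ a - g) = g - γ b + N - γ a by ring] at this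
    · have := m1 a b
      rwa [show (N : ℤ) - (γ a + γ b - g) = g - γ b + N - γ a by ring] at this
  have s4 : trace (Z * of T.ω) = X s ^ N := by
    rw [← m3, Finset.sum_comm]
    simp [trace, mul_apply, Z]
  have s5 : of T.ω * ((Z - Zᵀ) * of T.ω) = (X s : Pol σ) ^ N • of T.ω := by
    rw [← s4, ← cert_pl, transpose_mul, cert_skew, Matrix.sub_mul, Matrix.mul_sub]
    rw [Matrix.neg_mul, Matrix.neg_mul, Matrix.mul_assoc, sub_eq_add_neg]
  have s6 : d * (Z - Zᵀ) = 0 := by
    ext1 a b
    rw [mul_apply]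
    refine Finset.sum_eq_zero fun e _ => ?_
    by_cases h : (Z - Zᵀ) e b = 0
    · rw [h, mul_zero]
    · have h1 := (s2 e b h).1
      have h2 : d a e = 0 := by_contra fun h3 => by
        have := R.cx.deg a e h3
        have := R.c0 a
        omega
      rw [h2, zero_mul]
  have s7 : Deg c c 0 ((Z - Zᵀ) * of T.ω) :=
    Deg.mul (c' := fun _ => 0) (k := 0) (l := 0) (fun a b h => by simpa using (s2 a b h).1)
      (fun a b h => by simpa using (R.sup a b h).2.symm) rfl
  have s8 : SG.Hom γ (fun a => γ a + N) ((Z - Zᵀ) * of T.ω) := by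
    refine s3.mul fun a b => ?_
    have := R.gr a b
    rwa [show γ a + γ b - g = γ b + N - (g - γ a + N) by ring] at this
  have s9 : SG.Hom γ (fun a => γ a + N) ((X s : Pol σ) ^ N • (1 : Matrix I I (Pol σ))) := by
    intro a b
    have h3 : Hom ((X s : Pol σ) ^ N) N := by
      simpa using (isWeightedHomogeneous_X ℂ (fun _ : σ => (1 : ℤ)) s).pow N
    have := h3.mul ((SG.Hom.one (g := γ)) a b)
    rwa [show (N : ℤ) + (γ b - γ a) = γ b + N - γ a by ring] at this
  obtain ⟨L, hL⟩ := (Set.finite_range c).bddBelow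
  obtain ⟨h, e1, e2, e3⟩ := R.null N L (fun a => hL ⟨a, rfl⟩) (1 - L).toNat
    ((X s : Pol σ) ^ N • 1 - (Z - Zᵀ) * of T.ω) ((Deg.one.smul _).sub s7) (s9.sub s8)
    (by
      rw [Matrix.mul_sub, ← Matrix.mul_assoc, s6, Matrix.sub_mul _ _ d, Matrix.mul_assoc _ _ d,
        R.ωd]
      simp)
    (by rw [Matrix.mul_sub, s5]; simp)
    (fun a b _ => by have := R.c0 b; omega)
  exact ⟨h, Z - Zᵀ, e1, e2, s2, s3, by simp, by rw [e3]; simp⟩

end Pool.Agent.P.MP_b01859_ag.SC
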