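import Pool.Agent.P.MP_b01859_ag.SC.Iface

/-! Step CHASE. -/

set_option autoImplicit false

namespace Pool.Agent.P.MP_b01859_ag.SC

open MvPolynomial Matrix

theorem p_CHASE :
    S_CHASE := by
  intro σ V _ _ _ A B C u hB hAB hker hu hsur
  refine ⟨fun h ξ hξ hc => ?_, fun q h1 h2 ξ hξ hc => ?_⟩
  · obtain ⟨η, -, h0, he⟩ := h ξ (fun s => hAB _ (hξ s)) hc
    refine ⟨η, fun s => ?_, h0, he⟩
    rw [h0 rfl]
    exact zero_mem _
  · obtain ⟨η, hη, -, he⟩ := h1 ξ (fun s => hAB _ (hξ s)) hc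
    obtain ⟨κ, hκ, h0, hk⟩ := h2 (fun s => u (η s)) (fun s => hu _ _ (hη s)) (by
      funext s
      rw [cd_map, he]
      exact (hker _ _ (hAB _ (hξ s))).2 (hξ s))
    have hl : ∀ s : Fin q → σ, ∃ v ∈ B (im s), u v = κ s := by
      intro s
      rcases Nat.eq_zero_or_pos q with hq | hq
      · exact ⟨0, zero_mem _, by rw [h0 hq]; simp⟩
      · exact hsur _ ⟨_, mem_im s ⟨0, hq⟩⟩ _ (hκ s)
    choose κ' hκ' hu' using hl
    have hc' : Cc B (cd κ') := Cc.cd hB hκ'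
    refine ⟨η - cd κ', fun s => ?_, fun h => absurd h (Nat.succ_ne_zero q), ?_⟩
    · refine (hker _ _ (sub_mem (hη s) (hc' s))).1 ?_
      rw [map_sub, ← cd_map, show (fun s => u (κ' s)) = κ from funext hu', hk]
      exact sub_self _
    · rw [cd_sub, cd_cd, he, sub_zero]

end Pool.Agent.P.MP_b01859_ag.SC
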