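import Pool.Agent.P.MP_b01859_ag.SC.Iface

/-! Step CHT. -/

set_option autoImplicit false

namespace Pool.Agent.P.MP_b01859_ag.SC

open MvPolynomial Matrix

section gen

variable {J A : Type} [Fintype J] [CommRing A] [Algebra ℂ A]

lemma cht_add (c : J → ℤ) (B B' : Matrix J J A) : str c (B + B') = str c B + str c B' := by
  simp [str, Finset.sum_add_distrib]

lemma cht_smul (c : J → ℤ) (f : A) (B : Matrix J J A) : str c (f • B) = f * str c B := by
  simp [str, Finset.mul_sum]

lemma cht_comm {c : J → ℤ} {d Y : Matrix J J A} (hd : Dg c 1 d) :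
    str c (d * Y + Y * d) = 0 := by
  have h1 : str c (d * Y) = ∑ a, ∑ b, (-1 : ℂ) ^ c a • (d a b * Y b a) := by
    simp [str, mul_apply, Finset.smul_sum]
  have h2 : str c (Y * d) = ∑ a, ∑ b, (-1 : ℂ) ^ c b • (d a b * Y b a) := by
    rw [Finset.sum_comm]
    simp only [str, mul_apply, Finset.smul_sum]
    exact Finset.sum_congr rfl fun a _ => Finset.sum_congr rfl fun b _ => by rw [mul_comm]
  rw [cht_add, h1, h2, ← Finset.sum_add_distrib]
  refine Finset.sum_eq_zero fun a _ => ?_
  rw [← Finset.sum_add_distrib]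
  refine Finset.sum_eq_zero fun b _ => ?_
  by_cases h : d a b = 0
  · simp [h]
  · rw [hd a b h, zpow_add₀ (by norm_num), zpow_one, mul_neg_one, neg_smul, neg_add_cancel]

omit [Algebra ℂ A] in
lemma cht_dg {c : J → ℤ} {B B' : Matrix J J A} {k l m : ℤ} (h : Dg c k B) (h' : Dg c l B')
    (hm : k + l = m) : Dg c m (B * B') := by
  intro a e h0
  rw [mul_apply] at h0
  obtain ⟨b, -, hb⟩ := Finset.exists_ne_zero_of_sum_ne_zero h0
  have h1 := h a b (left_ne_zero_of_mul hb)
  have h2 := h' b e (right_ne_zero_of_mul hb)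
  omega

omit [Algebra ℂ A] in
lemma cht_pl {ω : Matrix J J A} (hs : ωᵀ = -ω)
    (hp : ∀ i j k l, ω i j * ω k l - ω i k * ω j l + ω i l * ω j k = 0) (Z : Matrix J J A) :
    ω * Z * ω + ω * (ω * Z)ᵀ = trace (ω * Z) • ω := by
  have hs' : ∀ a b, ω b a = -ω a b := fun a b => congrFun (congrFun hs a) b
  ext1 i j
  have h1 : (ω * Z * ω) i j = ∑ a, ∑ b, Z a b * (ω i a * ω b j) := by
    rw [Finset.sum_comm]
    simp only [mul_apply, Finset.sum_mul]
    exact Finset.sum_congr rfl fun a _ => Finset.sum_congr rfl fun b _ => by ring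
  have h2 : (ω * (ω * Z)ᵀ) i j = ∑ a, ∑ b, Z a b * (ω i b * ω j a) := by
    rw [Finset.sum_comm]
    simp only [mul_apply, transpose_apply, Finset.mul_sum]
    exact Finset.sum_congr rfl fun a _ => Finset.sum_congr rfl fun b _ => by ring
  have h3 : (trace (ω * Z) • ω) i j = ∑ a, ∑ b, Z a b * (ω b a * ω i j) := by
    rw [Finset.sum_comm]
    simp only [trace, diag, mul_apply, Matrix.smul_apply, smul_eq_mul, Finset.sum_mul]
    exact Finset.sum_congr rfl fun a _ => Finset.sum_congr rfl fun b _ => by ring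
  rw [Matrix.add_apply, h1, h2, h3, ← Finset.sum_add_distrib]
  refine Finset.sum_congr rfl fun a _ => ?_
  rw [← Finset.sum_add_distrib]
  refine Finset.sum_congr rfl fun b _ => ?_
  have e1 := hp i a b j
  have e2 := hs' a j
  have e3 := hs' a b
  linear_combination Z a b * e1 + Z a b * ω i b * e2 - Z a b * ω i j * e3

lemma cht_main [DecidableEq J] {c : J → ℤ} {d h ψ ω : Matrix J J A} {f f' : A} (hf : f' * f = 1)
    (pos : ∀ x, 0 ≤ c x) (hd : Dg c 1 d) (hh : Dg c (-1) h) (hs : ωᵀ = -ω)
    (hp : ∀ i j k l, ω i j * ω k l - ω i k * ω j l + ω i l * ω j k = 0)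
    (ω0 : ∀ x z, ω x z ≠ 0 → c x = 0) (dω : d * ω = 0)
    (e : d * h + h * d + ω * ψ = f • (1 : Matrix J J A)) (B B' : Matrix J J A) (hB : Dg c 0 B)
    (hB' : Dg c 0 B') (dB : d * B = B * d) (dB' : d * B' = B' * d) (sB : str c B = 0)
    (sB' : str c B' = 0) (v : J → A) (hv : Sup c 0 v) (dv : d *ᵥ v = 0) :
    B *ᵥ (B' *ᵥ v) + B' *ᵥ (B *ᵥ v) = str c (B * B') • v := by
  have key : ∀ U, Dg c 0 U → d * U = U * d → U * ω + ω * Uᵀ = str c U • ω := by
    intro U hU dU
    have hY : Dg c (-1) (h * U) := cht_dg hh hU rfl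
    have e1 : f • U = d * (h * U) + h * U * d + ω * (ψ * U) := by
      have := congrArg (· * U) e
      simp only [Matrix.add_mul, Matrix.smul_mul, Matrix.one_mul] at this
      rw [← this, Matrix.mul_assoc h d, dU]
      simp only [Matrix.mul_assoc]
    generalize h * U = Y at hY e1
    have k1 : Y * ω = 0 := by
      ext1 a b
      rw [mul_apply]
      refine Finset.sum_eq_zero fun x _ => ?_
      by_cases h0 : Y a x = 0
      · rw [h0, zero_mul]
      · have h1 := hY a x h0
        have h2 := pos a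
        have h3 : ω x b = 0 := by_contra fun h4 => by have := ω0 x b h4; omega
        rw [h3, mul_zero]
    have k2 : ω * dᵀ = 0 := by
      have := congrArg transpose dω
      rwa [transpose_mul, hs, Matrix.neg_mul, transpose_zero, neg_eq_zero] at this
    have k3 : ω * Yᵀ = 0 := by
      have := congrArg transpose k1
      rwa [transpose_mul, hs, Matrix.neg_mul, transpose_zero, neg_eq_zero] at this
    have k4 : str c (ω * (ψ * U)) = trace (ω * (ψ * U)) := by
      refine Finset.sum_congr rfl fun a _ => ?_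
      by_cases h0 : c a = 0
      · simp [h0]
      · have : (ω * (ψ * U)) a a = 0 := by
          rw [mul_apply]
          refine Finset.sum_eq_zero fun x _ => ?_
          have h3 : ω a x = 0 := by_contra fun h4 => h0 (ω0 a x h4)
          rw [h3, zero_mul]
        simp [this]
    have e2 : f • (U * ω + ω * Uᵀ) = f • (str c U • ω) := by
      rw [smul_add, ← Matrix.smul_mul, ← Matrix.mul_smul, ← transpose_smul, smul_smul,
        ← cht_smul, e1, cht_add, cht_comm hd, zero_add, k4, ← cht_pl hs hp,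
        Matrix.add_mul, Matrix.add_mul, transpose_add, transpose_add, Matrix.mul_add,
        Matrix.mul_add, Matrix.mul_assoc d, k1, Matrix.mul_assoc Y, dω,
        transpose_mul d, transpose_mul Y, ← Matrix.mul_assoc ω Yᵀ, k3, ← Matrix.mul_assoc ω dᵀ, k2]
      simp
    have := congrArg (f' • ·) e2
    simpa only [smul_smul, ← mul_assoc, hf, one_mul, one_smul] using this
  have a1 := key B hB dB
  have a2 := key B' hB' dB'
  have a3 := key (B * B') (cht_dg hB hB' rfl) (by
    rw [← Matrix.mul_assoc, dB, Matrix.mul_assoc, dB', Matrix.mul_assoc])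
  rw [sB, zero_smul] at a1
  rw [sB', zero_smul] at a2
  have b1 : ω * Bᵀ = -(B * ω) := eq_neg_of_add_eq_zero_right a1
  have b2 : ω * B'ᵀ = -(B' * ω) := eq_neg_of_add_eq_zero_right a2
  have a4 : B * B' * ω + B' * B * ω = str c (B * B') • ω := by
    rw [← a3, transpose_mul, ← Matrix.mul_assoc ω, b2, Matrix.neg_mul, Matrix.mul_assoc B' ω, b1]
    simp [Matrix.mul_assoc]
  have c1 : h *ᵥ v = 0 := by
    funext a
    refine Finset.sum_eq_zero fun x _ => ?_
    by_cases h0 : h a x = 0
    · simp [h0]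
    · have h1 := hh a x h0
      have h2 := pos a
      have h3 : v x = 0 := by_contra fun h4 => by have := hv x h4; omega
      rw [h3, mul_zero]
  have c2 : ω *ᵥ (f' • ψ *ᵥ v) = v := by
    have := congrArg (· *ᵥ v) e
    simp only [add_mulVec, ← mulVec_mulVec, c1, dv, mulVec_zero, zero_add, smul_mulVec,
      one_mulVec] at this
    rw [mulVec_smul, this, smul_smul, hf, one_smul]
  rw [← c2]
  generalize f' • ψ *ᵥ v = u
  simp only [mulVec_mulVec, ← Matrix.mul_assoc]
  rw [← add_mulVec, a4, smul_mulVec]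

end gen

theorem p_CHT :
    S_CHT := by
  intro σ ι _ _ _ _ T γ g c₂ J _ _ P R A B hA hB dA dB sA sB v hv dv
  obtain ⟨N, h, ψ, hh, -, -, -, -, e⟩ := P.cert (Classical.arbitrary σ)
  have hz : ∀ x z, (¬ ∃ a, P.j a = x) → P.ω x z = 0 ∧ P.ω z x = 0 := fun x z hx =>
    ⟨by_contra fun h0 => hx ((P.c0 x).mp (P.ω0 x z h0).1),
      by_contra fun h0 => hx ((P.c0 x).mp (P.ω0 z x h0).2)⟩
  have hs : ∀ x z, P.ω z x = -P.ω x z := by
    intro x z
    by_cases hx : ∃ a, P.j a = x
    · by_cases hz' : ∃ a, P.j a = z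
      · obtain ⟨a, rfl⟩ := hx
        obtain ⟨b, rfl⟩ := hz'
        rw [P.ωj, P.ωj, T.skew]
      · simp [(hz z x hz').1, (hz z x hz').2]
    · simp [(hz x z hx).1, (hz x z hx).2]
  have hp : ∀ i j k l, P.ω i j * P.ω k l - P.ω i k * P.ω j l + P.ω i l * P.ω j k = 0 := by
    intro i j k l
    by_cases hi : ∃ a, P.j a = i
    · by_cases hj : ∃ a, P.j a = j
      · by_cases hk : ∃ a, P.j a = k
        · by_cases hl : ∃ a, P.j a = l
          · obtain ⟨a, rfl⟩ := hi
            obtain ⟨b, rfl⟩ := hj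
            obtain ⟨a', rfl⟩ := hk
            obtain ⟨b', rfl⟩ := hl
            simp only [P.ωj]
            exact T.pl a b a' b'
          · simp [fun z => (hz l z hl).2]
        · simp [fun z => (hz k z hk).1, fun z => (hz k z hk).2]
      · simp [fun z => (hz j z hj).1, fun z => (hz j z hj).2]
    · simp [fun z => (hz i z hi).1]
  have hne : ∀ p : Pol σ, R.e p ≠ 0 → p ≠ 0 := fun p h0 h1 => h0 (by rw [h1, map_zero])
  refine cht_main (h := h.map R.e) (ψ := ψ.map R.e) (ω := P.ω.map R.e)
    (f := R.e (X (Classical.arbitrary σ)) ^ N) (f' := R.y (Classical.arbitrary σ) ^ N) ?_ P.pos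
    (fun a b h0 => P.cx.deg a b (hne _ h0)) (fun a b h0 => hh a b (hne _ h0)) ?_ ?_
    (fun a b h0 => (P.ω0 a b (hne _ h0)).1) ?_ ?_ A B hA hB dA dB sA sB v hv dv
  · rw [← mul_pow, mul_comm, R.xy, one_pow]
  · ext1 a b
    simp only [transpose_apply, map_apply, Matrix.neg_apply]
    rw [hs, map_neg]
  · intro i j k l
    simpa using congrArg R.e (hp i j k l)
  · change P.d.map R.e * _ = _
    rw [← Matrix.map_mul, P.dω]
    simp
  · have := congrArg (fun U => U.map R.e) e
    simp only [Matrix.map_add _ (map_add R.e), Matrix.map_mul] at this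
    refine this.trans ?_
    ext1 a b
    by_cases hab : a = b <;> simp [hab]

end Pool.Agent.P.MP_b01859_ag.SC
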