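import Pool.Agent.P.MP_b01859_ag.SC.Iface

/-! Step CONN. -/

set_option autoImplicit false
set_option linter.unusedSectionVars false

namespace Pool.Agent.P.MP_b01859_ag.SC

open MvPolynomial Matrix

namespace CONNx

variable {J L : Type} [Fintype J] [DecidableEq J] [CommRing L] [Algebra ℂ L]

/-- Matrices of cohomological degree `k` and internal degree `t`. -/
def MM (O : ℤ → Submodule ℂ L) (c γ : J → ℤ) (k t : ℤ) : Submodule ℂ (Matrix J J L) where
  carrier := {A | ∀ a b, (c a ≠ c b + k → A a b = 0) ∧ A a b ∈ O (γ b - γ a + t)}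
  add_mem' := fun hA hB a b => ⟨fun h => by
    rw [Matrix.add_apply, (hA a b).1 h, (hB a b).1 h, add_zero], add_mem (hA a b).2 (hB a b).2⟩
  zero_mem' := fun _ _ => ⟨fun _ => rfl, zero_mem _⟩
  smul_mem' := fun z _ hA a b => ⟨fun h => by rw [Matrix.smul_apply, (hA a b).1 h, smul_zero],
    Submodule.smul_mem _ z (hA a b).2⟩

variable {O : ℤ → Submodule ℂ L} {c γ : J → ℤ} {k k' t t' : ℤ} {A B : Matrix J J L} {f : L}

lemma mm_mul (hO : ∀ t t' f h, f ∈ O t → h ∈ O t' → f * h ∈ O (t + t')) (hA : A ∈ MM O c γ k t)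
    (hB : B ∈ MM O c γ k' t') : A * B ∈ MM O c γ (k + k') (t + t') := fun a b => by
  rw [mul_apply]
  refine ⟨fun h => Finset.sum_eq_zero fun z _ => ?_, sum_mem fun z _ => ?_⟩
  · by_cases e : c a = c z + k
    · rw [(hB z b).1 (by omega), mul_zero]
    · rw [(hA a z).1 e, zero_mul]
  · rw [show γ b - γ a + (t + t') = γ z - γ a + t + (γ b - γ z + t') by ring]
    exact hO _ _ _ _ (hA a z).2 (hB z b).2

lemma mm_smul (hO : ∀ t t' f h, f ∈ O t → h ∈ O t' → f * h ∈ O (t + t')) (hf : f ∈ O t)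
    (hA : A ∈ MM O c γ k t') : f • A ∈ MM O c γ k (t + t') := fun a b => by
  rw [Matrix.smul_apply, smul_eq_mul]
  refine ⟨fun h => by rw [(hA a b).1 h, mul_zero], ?_⟩
  rw [show γ b - γ a + (t + t') = t + (γ b - γ a + t') by ring]
  exact hO _ _ _ _ hf (hA a b).2

lemma mm_diag {v : J → L} (hv : ∀ a, v a ∈ O 0) : diagonal v ∈ MM O c γ 0 0 := fun a b => by
  by_cases e : a = b
  · subst e
    exact ⟨fun h => absurd (add_zero _).symm h, by simpa using hv a⟩
  · rw [diagonal_apply_ne _ e]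
    exact ⟨fun _ => rfl, zero_mem _⟩

/-- The supertrace as a linear map. -/
noncomputable def sl (c : J → ℤ) : Matrix J J L →ₗ[L] L where
  toFun := str c
  map_add' A B := by simp [str, Finset.sum_add_distrib]
  map_smul' f A := by simp [str, Finset.mul_sum]

lemma mm_str (hA : A ∈ MM O c γ 0 t) : sl c A ∈ O t :=
  sum_mem fun a _ => Submodule.smul_mem _ _ (by simpa using (hA a a).2)

lemma sl_diag (c : J → ℤ) (v : J → ℂ) :
    sl c (diagonal fun a => algebraMap ℂ L (v a)) = algebraMap ℂ L (∑ a, (-1) ^ c a * v a) := by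
  simp [sl, str, Algebra.smul_def]

lemma leib (D : Derivation ℂ L L) (A B : Matrix J J L) :
    (A * B).map D = A * B.map D + A.map D * B := by
  ext a b
  simp [mul_apply, Finset.sum_add_distrib, mul_comm]

end CONNx

open CONNx in
theorem p_CONN (hOAPI : S_OAPI) :
    S_CONN := by
  intro σ ι _ _ _ T γ g c₂ J _ _ P R
  suffices h : ∀ s, ∃ B : σ → Matrix J J R.L,
      (∀ i, B i ∈ MM (R.O {s}) P.c P.gJ 0 (-1) ∧
        P.dL R * B i - B i * P.dL R = (P.dL R).map (R.D i) ∧ str P.c (B i) = 0) ∧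
      ∑ i, R.e (X i) • B i = diagonal fun a => algebraMap ℂ R.L ((P.gJ a : ℂ) + (g : ℂ) / 2) by
    choose B h1 h2 using h
    exact ⟨B, fun s i a b h => by_contra fun k => h (((h1 s i).1 a b).1 k),
      fun s i a b => ((h1 s i).1 a b).2, fun s i => (h1 s i).2.1, fun s i => (h1 s i).2.2, h2⟩
  intro s
  obtain ⟨-, o2, o3, o4, o5, o6, -⟩ := hOAPI σ R
  have hO := o2 {s}
  have hy := o4 {s} s (Finset.mem_singleton_self s)
  have hC : ∀ z : ℂ, algebraMap ℂ R.L z ∈ R.O {s} 0 := fun z => by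
    rw [← R.e.commutes]
    exact o3 _ _ _ (isWeightedHomogeneous_C _ z)
  have hX : ∀ i, R.e (X i) ∈ R.O {s} 1 := fun i => o3 _ _ _ (isWeightedHomogeneous_X ℂ _ i)
  have hyN : ∀ n : ℕ, R.y s ^ n ∈ R.O {s} (-n) := fun n => by
    induction n with
    | zero => simpa using hC 1
    | succ n ih =>
      rw [pow_succ, Nat.cast_succ, neg_add]
      exact hO _ _ _ _ ih hy
  obtain ⟨N, h, ψ, a1, a2, -, a3, -, a4⟩ := P.cert s
  obtain ⟨δ, hδ⟩ : ∃ δ, δ = P.dL R := ⟨_, rfl⟩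
  rw [← hδ]
  have d0 : ∀ a b, P.c a ≠ P.c b + 1 → δ a b = 0 := fun a b k => by
    rw [hδ, Pk.dL, map_apply, by_contra fun k' => k (P.cx.deg a b k'), map_zero]
  have d1 : ∀ a b, δ a b ∈ R.O {s} (P.gJ b - P.gJ a) := fun a b =>
    hδ ▸ o3 _ _ _ (P.cx.hom a b)
  have mφ : ∀ i, δ.map (R.D i) ∈ MM (R.O {s}) P.c P.gJ 1 (-1) := fun i a b =>
    ⟨fun k => by rw [map_apply, d0 a b k, map_zero], o5 _ _ i _ (d1 a b)⟩
  have mh : h.map R.e ∈ MM (R.O {s}) P.c P.gJ (-1) N := fun a b =>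
    ⟨fun k => by rw [map_apply, by_contra fun k' => k (a1 a b k'), map_zero],
      o3 _ _ _ (hom_congr (a2 a b) (by ring))⟩
  have dd : ∀ i, δ.map (R.D i) * δ = -(δ * δ.map (R.D i)) := fun i => by
    have e : δ * δ = 0 := by rw [hδ, Pk.dL, ← Matrix.map_mul, P.cx.sq]; simp
    rw [eq_neg_iff_add_eq_zero, add_comm, ← leib, e]
    simp
  have hψ : ∀ i, ψ.map R.e * δ.map (R.D i) = 0 := fun i => by
    ext a b
    rw [mul_apply]
    refine Finset.sum_eq_zero fun z _ => ?_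
    by_cases e : ψ a z = 0
    · simp [e]
    · have := (a3 a z e).2
      have := P.pos b
      rw [(mφ i z b).1 (by omega), mul_zero]
  have ce : δ * h.map R.e + h.map R.e * δ + P.ω.map R.e * ψ.map R.e =
      (R.e (X s) ^ N) • (1 : Matrix J J R.L) := by
    have := congrArg R.e.mapMatrix a4
    rw [map_add, map_add, map_mul, map_mul, map_mul] at this
    rw [hδ]
    refine this.trans ?_
    ext a b
    by_cases e : a = b <;> simp [e]
  obtain ⟨B0, hB0⟩ : ∃ B0 : σ → Matrix J J R.L,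
    B0 = fun i => R.y s ^ N • (h.map R.e * δ.map (R.D i)) := ⟨_, rfl⟩
  have m0 : ∀ i, B0 i ∈ MM (R.O {s}) P.c P.gJ 0 (-1) := fun i => by
    simpa [hB0] using mm_smul hO (hyN N) (mm_mul hO mh (mφ i))
  have c0 : ∀ i, δ * B0 i - B0 i * δ = δ.map (R.D i) := fun i => by
    have e := congrArg (· * δ.map (R.D i)) ce
    simp only [add_mul, mul_assoc, hψ, mul_zero, add_zero, smul_mul_assoc, one_mul] at e
    simp only [hB0, mul_smul_comm, smul_mul_assoc, mul_assoc, dd, mul_neg, smul_neg,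
      sub_neg_eq_add, ← smul_add, e, smul_smul]
    rw [← mul_pow, mul_comm, R.xy, one_pow, one_smul]
  obtain ⟨Γ, hΓ⟩ : ∃ Γ : Matrix J J R.L,
    Γ = diagonal fun a => algebraMap ℂ R.L ((P.gJ a : ℂ) + (g : ℂ) / 2) := ⟨_, rfl⟩
  have sΓ : sl P.c Γ = 0 := by
    rw [hΓ, sl_diag]
    simp only [mul_add, Finset.sum_add_distrib, ← Finset.sum_mul, P.s0, P.s1]
    rw [show -(g : ℂ) + 2 * (g / 2) = 0 by ring, map_zero]
  have s1 : sl P.c (1 : Matrix J J R.L) = 2 := by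
    have := sl_diag (L := R.L) P.c fun _ => 1
    simp only [map_one, diagonal_one, mul_one, P.s0, map_ofNat] at this
    exact this
  have cΓ : δ * Γ - Γ * δ = ∑ i, R.e (X i) • δ.map (R.D i) := by
    ext a b
    simp only [hΓ, Matrix.sub_apply, mul_diagonal, diagonal_mul, Matrix.sum_apply,
      Matrix.smul_apply, map_apply, smul_eq_mul, o6 _ _ _ (d1 a b)]
    rw [Algebra.smul_def, Int.cast_sub, map_sub, map_add, map_add]
    ring
  rw [← hΓ]
  obtain ⟨ρ, hρ⟩ : ∃ ρ, ρ = Γ - ∑ i, R.e (X i) • B0 i := ⟨_, rfl⟩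
  have mρ : ρ ∈ MM (R.O {s}) P.c P.gJ 0 0 := hρ ▸ sub_mem (hΓ ▸ mm_diag fun _ => hC _)
    (sum_mem fun i _ => by simpa using mm_smul hO (hX i) (m0 i))
  have cρ : δ * ρ = ρ * δ := by
    rw [← sub_eq_zero, hρ, mul_sub, sub_mul, sub_sub_sub_comm, cΓ, Finset.mul_sum, Finset.sum_mul,
      ← Finset.sum_sub_distrib]
    simp only [mul_smul_comm, smul_mul_assoc, ← smul_sub, c0, sub_self]
  obtain ⟨B1, hB1⟩ : ∃ B1 : σ → Matrix J J R.L,
    B1 = fun i => B0 i + (if i = s then R.y s else 0) • ρ := ⟨_, rfl⟩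
  have m1 : ∀ i, B1 i ∈ MM (R.O {s}) P.c P.gJ 0 (-1) := fun i => hB1 ▸ add_mem (m0 i) (by
    simpa using mm_smul hO (t := -1) (f := if i = s then R.y s else 0)
      (by split_ifs; exacts [hy, zero_mem _]) mρ)
  have e1 : ∑ i, R.e (X i) • B1 i = Γ := by
    simp [hB1, Finset.sum_add_distrib, smul_smul, R.xy, hρ]
  have h2 : algebraMap ℂ R.L 2⁻¹ * 2 = 1 := by
    rw [← map_ofNat (algebraMap ℂ R.L) 2, ← map_mul]
    simp
  refine ⟨fun i => B1 i - (algebraMap ℂ R.L 2⁻¹ * sl P.c (B1 i)) • 1, fun i => ⟨?_, ?_, ?_⟩, ?_⟩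
  · refine sub_mem (m1 i) ?_
    simpa using mm_smul hO (hO _ _ _ _ (hC 2⁻¹) (mm_str (m1 i)))
      (mm_diag (c := P.c) (γ := P.gJ) (v := fun _ => 1) fun _ => by simpa using hC 1)
  · simp only [hB1, mul_sub, sub_mul, mul_add, add_mul, mul_smul_comm, smul_mul_assoc, cρ, mul_one,
      one_mul, ← c0]
    abel
  · show sl P.c _ = 0
    rw [map_sub, map_smul, s1, smul_eq_mul]
    linear_combination (-sl P.c (B1 i)) * h2
  · simp only [smul_sub, Finset.sum_sub_distrib, e1, smul_smul, ← Finset.sum_smul, mul_left_comm,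
      ← Finset.mul_sum]
    rw [← e1, map_sum] at sΓ
    simp only [map_smul, smul_eq_mul] at sΓ
    rw [sΓ, mul_zero, zero_smul, sub_zero]

end Pool.Agent.P.MP_b01859_ag.SC
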