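import Pool.Agent.P.MP_b01859_ag.SC.Iface

/-! Step EUL. -/

set_option autoImplicit false

namespace Pool.Agent.P.MP_b01859_ag.SC

open MvPolynomial Matrix SG Module

lemma rank_map {V W : Type} [AddCommGroup V] [Module ℂ V] [AddCommGroup W] [Module ℂ W]
    (f : V →ₗ[ℂ] W) (p : Submodule ℂ V) [FiniteDimensional ℂ p] :
    finrank ℂ (p.map f) + finrank ℂ (p ⊓ LinearMap.ker f : Submodule ℂ V) = finrank ℂ p := by
  have h := LinearMap.finrank_range_add_finrank_ker (f.domRestrict p)
  rw [LinearMap.range_domRestrict, LinearMap.ker_domRestrict] at h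
  rw [← h, ← Submodule.finrank_map_subtype_eq p (Submodule.comap p.subtype _),
    Submodule.map_comap_subtype]

/-- A product of subspaces. -/
def piEq {I V : Type} [AddCommGroup V] [Module ℂ V] (p : I → Submodule ℂ V) :
    Submodule.pi Set.univ p ≃ₗ[ℂ] ∀ a, p a where
  toFun v a := ⟨v.1 a, v.2 a trivial⟩
  map_add' _ _ := rfl
  map_smul' _ _ := rfl
  invFun v := ⟨fun a => v a, fun a _ => (v a).2⟩
  left_inv _ := rfl
  right_inv _ := rfl

variable {σ I : Type} [Fintype σ] [Fintype I]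

/-- Vectors of given cohomological and internal degree. -/
noncomputable def VV (σ : Type) (c γ : I → ℤ) (t k : ℤ) : Submodule ℂ (I → Pol σ) :=
  Submodule.pi Set.univ fun a => if c a = k then SD.SS σ (t - γ a) else ⊥

omit [Fintype σ] [Fintype I] in
lemma mem_VV {c γ : I → ℤ} {t k : ℤ} {v : I → Pol σ} :
    v ∈ VV σ c γ t k ↔ Supp c k v ∧ ∀ a, Hom (v a) (t - γ a) := by
  rw [VV, Submodule.mem_pi]
  refine ⟨fun h => ⟨fun a h1 => ?_, fun a => ?_⟩, fun ⟨h1, h2⟩ a _ => ?_⟩
  · by_contra h2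
    have := h a trivial
    rw [if_neg h2] at this
    exact h1 this
  · have := h a trivial
    split_ifs at this
    · exact this
    · rw [(Submodule.mem_bot ℂ).mp this]
      exact isWeightedHomogeneous_zero ℂ _ _
  · split_ifs with h
    · exact h2 a
    · exact by_contra fun h3 => h (h1 a h3)

lemma fin_VV (c γ : I → ℤ) (t k : ℤ) : FiniteDimensional ℂ (VV σ c γ t k) ∧
    (finrank ℂ (VV σ c γ t k) : ℤ) = ∑ a, if c a = k then SD.hd (SD.SS σ) (t - γ a) else 0 := by
  have : ∀ a, FiniteDimensional ℂ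
      (if c a = k then SD.SS σ (t - γ a) else ⊥ : Submodule ℂ (Pol σ)) := fun a => by
    by_cases h : c a = k
    · rw [if_pos h]
      infer_instance
    · rw [if_neg h]
      infer_instance
  refine ⟨(piEq _).symm.finiteDimensional, ?_⟩
  rw [VV, (piEq _).finrank_eq, finrank_pi_fintype]
  push_cast
  refine Finset.sum_congr rfl fun a _ => ?_
  by_cases h : c a = k
  · rw [if_pos h, if_pos h]
    rfl
  · rw [if_neg h, if_neg h]
    simp

omit [Fintype σ] [Fintype I] in
lemma comp_self {γ : I → ℤ} {t : ℤ} {v : I → Pol σ} (h : ∀ a, Hom (v a) (t - γ a)) :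
    comp γ t v = v := funext fun a => (h a).weightedHomogeneousComponent_same

omit [Fintype σ] in
lemma map_VV {c γ : I → ℤ} {d : Matrix I I (Pol σ)} (h : Cx c γ d) (t k : ℤ) {v : I → Pol σ}
    (hv : v ∈ VV σ c γ t k) (h1 : ∃ u, Supp c (k - 1) u ∧ d *ᵥ u = v) :
    v ∈ (VV σ c γ t (k - 1)).map (d.mulVecLin.restrictScalars ℂ) := by
  obtain ⟨u, hu, e⟩ := h1
  refine ⟨comp γ t u, mem_VV.mpr ⟨hu.comp _ _, fun a =>
    weightedHomogeneousComponent_isWeightedHomogeneous _ _⟩, ?_⟩
  change d *ᵥ _ = _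
  rw [h.hom.mulVec_comp, e, comp_self (mem_VV.mp hv).2]

omit [Fintype σ] in
lemma map_VV' {c γ : I → ℤ} {d : Matrix I I (Pol σ)} (h : Cx c γ d) (t k : ℤ) {u : I → Pol σ}
    (hu : u ∈ VV σ c γ t (k - 1)) : d *ᵥ u ∈ VV σ c γ t k := by
  refine mem_VV.mpr ⟨h.deg.mulVec (mem_VV.mp hu).1 (by ring), fun a => ?_⟩
  rw [← comp_self (mem_VV.mp hu).2, h.hom.mulVec_comp]
  exact weightedHomogeneousComponent_isWeightedHomogeneous _ _

theorem p_EUL (hBN : SD.S_BN) :
    S_EUL := by
  intro σ I _ _ n T c γ g d hn R t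
  have hfin := fun k => (fin_VV (σ := σ) c γ t k).1
  have hdim := fun k => (fin_VV (σ := σ) c γ t k).2
  rw [(hBN.2.2.2.2.2.2 σ n hn).1] at hdim
  let D : (I → Pol σ) →ₗ[ℂ] I → Pol σ := d.mulVecLin.restrictScalars ℂ
  let W : (I → Pol σ) →ₗ[ℂ] I → Pol σ := (of T.ω)ᵀ.mulVecLin.restrictScalars ℂ
  have hW : ∀ v, W v = -(of T.ω *ᵥ v) := fun v => by
    have : (of T.ω)ᵀ = -of T.ω := by
      ext1 a b
      exact T.skew a b
    change (of T.ω)ᵀ *ᵥ v = _
    rw [this, neg_mulVec]
  have hWa : ∀ v a, W v a = ∑ s, aeval X (T.ω s a) * v s := fun v a => by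
    change ((of T.ω)ᵀ *ᵥ v) a = _
    simp [mulVec, dotProduct]
  let r : ℤ → ℤ := fun k => finrank ℂ ((VV σ c γ t k).map D)
  have h1 : ∀ k, k ≤ -1 → r k + r (k - 1) = finrank ℂ (VV σ c γ t k) := by
    intro k hk
    have e : VV σ c γ t k ⊓ LinearMap.ker D = (VV σ c γ t (k - 1)).map D := by
      refine le_antisymm (fun v hv => ?_) ?_
      · exact map_VV R.cx t k hv.1 (R.ex k hk v (mem_VV.mp hv.1).1 hv.2)
      · rintro _ ⟨u, hu, rfl⟩
        refine ⟨map_VV' R.cx t k hu, ?_⟩
        change d *ᵥ (d *ᵥ u) = 0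
        rw [mulVec_mulVec, R.cx.sq, zero_mulVec]
    have := rank_map D (VV σ c γ t k)
    rw [e] at this
    simp only [r]
    exact_mod_cast this
  have h2 : SD.hM T γ t + r (-1) = finrank ℂ (VV σ c γ t 0) := by
    have e : VV σ c γ t 0 ⊓ LinearMap.ker W = (VV σ c γ t (-1)).map D := by
      refine le_antisymm (fun v hv => ?_) ?_
      · refine map_VV R.cx t 0 hv.1 (R.ex0 v (mem_VV.mp hv.1).1 ?_)
        have := LinearMap.mem_ker.mp hv.2
        rwa [hW, neg_eq_zero] at this
      · rintro _ ⟨u, hu, rfl⟩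
        refine ⟨map_VV' R.cx t 0 hu, ?_⟩
        change W (d *ᵥ u) = 0
        rw [hW, mulVec_mulVec, R.ωd, zero_mulVec, neg_zero]
    have e' : (VV σ c γ t 0).map W = SD.EN T γ X (SD.SS σ) t := by
      refine le_antisymm ?_ ?_
      · rintro _ ⟨v, hv, rfl⟩
        exact ⟨v, (mem_VV.mp hv).2, hWa v⟩
      · rintro φ ⟨v, hv, e⟩
        refine ⟨cut c 0 v, mem_VV.mpr ⟨supp_cut c 0 v, fun a => ?_⟩, funext fun a => ?_⟩
        · unfold cut
          split_ifs
          · exact hv a
          · exact isWeightedHomogeneous_zero ℂ _ _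
        · rw [hWa, e]
          refine Finset.sum_congr rfl fun s _ => ?_
          by_cases h : T.ω s a = 0
          · simp [h]
          · simp [cut, (R.sup s a h).1]
    have := rank_map W (VV σ c γ t 0)
    rw [e, e'] at this
    simp only [r, SD.hM, SD.hd]
    exact_mod_cast this
  have h3 : ∀ m : ℕ, SD.hM T γ t =
      ∑ a, (if (c a).natAbs ≤ m then (-1) ^ (c a).natAbs * SD.bn n (t - γ a) else 0) -
        (-1) ^ m * r (-m - 1) := by
    intro m
    induction m with
    | zero =>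
      rw [hdim] at h2
      have : ∀ a, (if (c a).natAbs ≤ 0 then (-1) ^ (c a).natAbs * SD.bn n (t - γ a) else 0) =
          if c a = 0 then SD.bn n (t - γ a) else 0 := fun a => by
        by_cases h : c a = 0 <;> simp [h]
      simp only [this, ← h2]
      simp
    | succ m ih =>
      have h4 := h1 (-m - 1) (by omega)
      rw [hdim] at h4
      have : ∀ a, (if (c a).natAbs ≤ m + 1 then (-1) ^ (c a).natAbs * SD.bn n (t - γ a) else 0) =
          (if (c a).natAbs ≤ m then (-1) ^ (c a).natAbs * SD.bn n (t - γ a) else 0) +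
          (-1) ^ (m + 1) * if c a = -m - 1 then SD.bn n (t - γ a) else 0 := fun a => by
        have := R.c0 a
        by_cases h : c a = -m - 1
        · have e : (c a).natAbs = m + 1 := by omega
          rw [if_pos h, e]
          simp
        · rw [if_neg h, mul_zero, add_zero]
          exact if_congr (by omega) rfl rfl
      simp only [this, Finset.sum_add_distrib, ← Finset.mul_sum, ← h4]
      rw [ih]
      push_cast
      rw [show (-((m : ℤ) + 1) - 1) = -m - 1 - 1 by ring]
      ring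
  let m := Finset.univ.sup fun a => (c a).natAbs
  have hm : ∀ a, (c a).natAbs ≤ m := fun a =>
    Finset.le_sup (f := fun a => (c a).natAbs) (Finset.mem_univ a)
  have h5 : r (-m - 1) = 0 := by
    have : VV σ c γ t (-m - 1) = ⊥ := by
      rw [eq_bot_iff]
      intro v hv
      exact (mem_VV.mp hv).1.eq_zero fun a => by have := hm a; omega
    simp [r, this]
  rw [h3 m, h5]
  simp [hm]

end Pool.Agent.P.MP_b01859_ag.SC
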