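import Pool.Agent.P.MP_b01859_ag.SC.Iface

/-! Step EXC. -/

set_option autoImplicit false

namespace Pool.Agent.P.MP_b01859_ag.SC

open MvPolynomial Matrix

theorem p_EXC (hBOG : SD.S_BOG) (hC2P : SD.S_C2P) :
    S_EXC := by
  intro σ ι _ _ n T γ g c₂ a b h hs
  rcases le_or_gt (4 * c₂) (g ^ 2) with e | e
  · obtain ⟨φ, α, h1, h2, h3⟩ := hBOG σ ι n T γ g c₂ a b h e
    have h4 := hC2P σ ι n T γ g c₂ a b h hs φ α h1 h2
    refine .inr ⟨φ, α, VB.ne_zero_of_prim h2, h1, fun t ht => ne_of_gt ?_⟩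
    unfold SD.qq at h4 ⊢
    nlinarith [mul_nonneg (sub_nonneg.2 ht) (show 0 ≤ -(t + α + g) by omega)]
  · refine .inl fun t => ne_of_gt ?_
    unfold SD.qq
    nlinarith [sq_nonneg (2 * t + g)]

end Pool.Agent.P.MP_b01859_ag.SC
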