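import Pool.Agent.P.MP_b01859_ag.SC.Iface

/-! Step FR1. -/

set_option autoImplicit false

namespace Pool.Agent.P.MP_b01859_ag.SC

open MvPolynomial Matrix

namespace FR1x

variable {σ M V : Type} {R : LR σ} [AddCommGroup M] [Module (Pol σ) M] [AddCommGroup V]
  [Module ℂ V] [Module R.L V] [IsScalarTower ℂ R.L V] {E : M →+ V}

lemma key (hE : ∀ f m, E (f • m) = R.e f • E m) {r : ℕ} (m : (Fin r → σ) → M) (ν : ℕ)
    (s : Fin (r + 1) → σ) :
    cd (fun s' => (∏ k, R.y (s' k)) ^ ν • E (m s')) s = (∏ k, R.y (s k)) ^ ν •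
      E (∑ k : Fin (r + 1), ((-1) ^ (k : ℕ) * X (s k) ^ ν : Pol σ) • m (s ∘ k.succAbove)) := by
  rw [map_sum, Finset.smul_sum, cd]
  refine Finset.sum_congr rfl fun k _ => ?_
  rw [hE, smul_smul, ← algebraMap_smul R.L ((-1 : ℂ) ^ (k : ℕ)), smul_smul]
  congr 1
  have h : (R.e (X (s k)) * R.y (s k)) ^ ν = 1 := by rw [R.xy, one_pow]
  rw [Fin.prod_univ_succAbove _ k]
  simp only [map_pow, map_neg, map_one, map_mul, mul_pow, Function.comp_apply] at h ⊢
  linear_combination (-((-1) ^ (k : ℕ) * (∏ j, R.y (s (k.succAbove j))) ^ ν)) * h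

omit [Module ℂ V] [IsScalarTower ℂ R.L V] in
lemma canc (hE : ∀ f m, E (f • m) = R.e f • E m) {r : ℕ} (s : Fin r → σ) (ν μ : ℕ) (m : M) :
    (∏ k, R.y (s k)) ^ (ν + μ) • E (((∏ k, X (s k)) ^ μ : Pol σ) • m) =
      (∏ k, R.y (s k)) ^ ν • E m := by
  rw [hE, smul_smul]
  congr 1
  linear_combination (∏ k, R.y (s k)) ^ ν * R.prod_xy Finset.univ s μ

end FR1x

theorem p_FR1 :
    S_FR1 := by
  intro σ M V _ _ R _ _ _ _ _ _ _ _ ℳ Z E hC hB q t hV ξ hξ hc
  choose ν₀ h₀ using fun s => hB.sur q s t (ξ s) (hξ s)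
  set ν := Finset.univ.sup ν₀
  choose m hm hξm using fun s => h₀ s ν (Finset.le_sup (Finset.mem_univ s))
  set w : (Fin (q + 2) → σ) → M := fun s =>
    ∑ k : Fin (q + 2), ((-1) ^ (k : ℕ) * X (s k) ^ ν : Pol σ) • m (s ∘ k.succAbove) with hw
  have hw0 : ∀ s, E (w s) = 0 := fun s => by
    have h1 := FR1x.key hB.smul m ν s
    rw [← funext hξm, hc] at h1
    have h2 : E (w s) = (R.e ((∏ k, X (s k)) ^ ν) * (∏ k, R.y (s k)) ^ ν) • E (w s) := by
      rw [R.prod_xy, one_smul]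
    rw [h2, mul_smul, ← h1]
    exact smul_zero _
  choose κ hκ using fun s : Fin (q + 2) → σ => hB.ker _ (hw0 s) (s 0)
  set μ₀ := Finset.univ.sup κ
  have hk : ∀ s, ((∏ k, X (s k)) ^ μ₀ : Pol σ) • w s = 0 := fun s => by
    obtain ⟨c, hc⟩ := Nat.exists_eq_add_of_le (Finset.le_sup (f := κ) (Finset.mem_univ s))
    rw [Fin.prod_univ_succ, mul_pow, mul_comm, show μ₀ = κ s + c from hc, pow_add (X (s 0)),
      mul_comm (X (s 0) ^ κ s), ← mul_assoc, mul_smul, hκ, smul_zero]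
  obtain ⟨μ, η, hη, h0, hd⟩ := hV (ν + μ₀) (fun s => ((∏ k, X (s k)) ^ μ₀ : Pol σ) • m s)
    (fun s => by
      have h := hC.aeval (LR.hom_prod Finset.univ s μ₀) (hm s)
      rw [aeval_X_left_apply] at h
      convert h using 2
      simp only [Finset.card_univ, Fintype.card_fin]
      push_cast
      ring)
    (fun s => by
      rw [← hk s, hw, Finset.smul_sum]
      refine Finset.sum_congr rfl fun k _ => ?_
      rw [smul_smul, smul_smul, Fin.prod_univ_succAbove (fun j => (X (s j) : Pol σ)) k]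
      congr 1
      simp only [Function.comp_apply]
      ring)
  refine ⟨fun s => (∏ k, R.y (s k)) ^ (ν + μ₀ + μ) • E (η s), fun s => hB.mem _ s t _ _ ?_,
    fun h => ?_, funext fun s => ?_⟩
  · simpa using hη s
  · funext s
    simp [h0 h]
  · rw [FR1x.key hB.smul, ← hd, FR1x.canc hB.smul, FR1x.canc hB.smul, ← hξm]

end Pool.Agent.P.MP_b01859_ag.SC
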