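import Pool.Agent.P.MP_b01859_ag.SC.Iface

/-! Step LAUR. -/

set_option autoImplicit false

namespace Pool.Agent.P.MP_b01859_ag.SC

open MvPolynomial Matrix

namespace LAURx

open TrivSqZeroExt in
theorem ext {A L : Type} [CommRing A] [Algebra ℂ A] [Field L] [Algebra ℂ L] [Algebra A L]
    [IsScalarTower ℂ A L] [IsFractionRing A L] (d : Derivation ℂ A A) :
    ∃ D : Derivation ℂ L L, ∀ f, D (algebraMap A L f) = algebraMap A L (d f) := by
  let φ : A →ₐ[ℂ] TrivSqZeroExt L L :=
    { toFun := fun f => inl (algebraMap A L f) + inr (algebraMap A L (d f))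
      map_one' := by ext <;> simp
      map_mul' := fun f g => by ext <;> simp [mul_comm, -DualNumber.inr_eq_smul_eps]
      map_zero' := by ext <;> simp
      map_add' := fun f g => by ext <;> simp [-DualNumber.inr_eq_smul_eps]
      commutes' := fun c => by
        ext
        · simp [algebraMap_eq_inl', ← IsScalarTower.algebraMap_apply]
        · simp [algebraMap_eq_inl'] }
  have hu : ∀ y : nonZeroDivisors A, IsUnit (φ y) := fun y =>
    isUnit_iff_isUnit_fst.2 (by simpa [φ] using IsLocalization.map_units L y)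
  let ψ : L →ₐ[ℂ] TrivSqZeroExt L L := IsLocalization.liftAlgHom hu
  have h1 : ∀ f, ψ (algebraMap A L f) = φ f := fun f => IsLocalization.lift_eq hu f
  have h2 : ∀ x, (ψ x).fst = x := by
    have : ((fstHom ℂ L L).comp ψ).toRingHom = RingHom.id L :=
      IsLocalization.ringHom_ext (nonZeroDivisors A) (RingHom.ext fun f => by simp [h1, φ])
    exact fun x => RingHom.congr_fun this x
  refine ⟨Derivation.mk' (((sndHom L L).restrictScalars ℂ).comp ψ.toLinearMap) fun a b => ?_,
    fun f => ?_⟩
  · simp [h2, mul_comm]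
  · simp [h1, φ, -DualNumber.inr_eq_smul_eps]

end LAURx

theorem p_LAUR :
    S_LAUR := by
  intro σ _
  choose D hD using fun i : σ => LAURx.ext (L := FractionRing (Pol σ)) (pderiv i)
  have hi := IsFractionRing.injective (Pol σ) (FractionRing (Pol σ))
  exact ⟨{
    L := FractionRing (Pol σ)
    e := IsScalarTower.toAlgHom ℂ _ _
    y := fun s => (algebraMap (Pol σ) _ (X s))⁻¹
    D := D
    inj := hi
    xy := fun s => mul_inv_cancel₀ ((map_ne_zero_iff _ hi).2 (X_ne_zero s))
    De := hD }⟩

end Pool.Agent.P.MP_b01859_ag.SC
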