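import Pool.Agent.P.MP_b01859_ag.SC.Iface

/-! Step LIFT. -/

set_option autoImplicit false
set_option linter.unusedSectionVars false

namespace Pool.Agent.P.MP_b01859_ag.SC

open MvPolynomial Matrix

namespace LIFTx

variable {σ ι : Type} [Fintype σ] [DecidableEq σ] [Fintype ι] {T : VB σ ι} {γ : ι → ℤ} {g c₂ : ℤ}
  {J : Type} [Fintype J] [DecidableEq J] (P : Pk T γ g c₂ J)

theorem ext_eq (φ : ι → Pol σ) (v : J → Pol σ) (h0 : SG.Supp P.c 0 v) (h : ∀ a, φ a = v (P.j a)) :
    Function.extend P.j φ 0 = v := by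
  funext x
  by_cases hx : ∃ a, P.j a = x
  · obtain ⟨a, rfl⟩ := hx
    rw [P.inj.extend_apply, h]
  · rw [Function.extend_apply' _ _ _ hx]
    exact (by_contra fun e => hx ((P.c0 x).1 (h0 x (Ne.symm e))))

theorem supp_ext (φ : ι → Pol σ) : SG.Supp P.c 0 (Function.extend P.j φ 0) := fun x h =>
  (P.c0 x).2 (by_contra fun hx => h (Function.extend_apply' _ _ _ hx))

theorem om (v : J → Pol σ) (a : ι) : (P.ω *ᵥ v) (P.j a) = ∑ s, T.ω s a * -v (P.j s) := by
  refine (Fintype.sum_of_injective P.j P.inj _ _ (fun x hx => ?_) fun s => ?_).symm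
  · exact mul_eq_zero_of_left (by_contra fun e => hx ((P.c0 x).1 (P.ω0 _ x e).2)) _
  · rw [T.skew a s, neg_mul_neg, ← P.ωj]

theorem supp_om (v : J → Pol σ) : SG.Supp P.c 0 (P.ω *ᵥ v) := fun x h => by
  obtain ⟨z, -, hz⟩ := Finset.exists_ne_zero_of_sum_ne_zero h
  exact (P.ω0 x z (left_ne_zero_of_mul hz)).1

theorem dL (R : LR σ) (u : R.L) (v : J → Pol σ) (x : J) :
    (P.dL R *ᵥ fun z => u * R.e (v z)) x = u * R.e ((P.d *ᵥ v) x) := by
  simp only [Pk.dL, mulVec, dotProduct, map_apply, map_sum, map_mul, Finset.mul_sum, mul_left_comm]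

end LIFTx

open LIFTx in
theorem p_LIFT (hOAPI : S_OAPI) :
    S_LIFT := by
  intro σ ι M _ _ _ _ _ _ _ ℳ T γ g c₂ L J _ _ P R hL _
  obtain ⟨-, omul, oemb, oinv, -, -, osur⟩ := hOAPI σ R
  have o1 : ∀ I, (1 : R.L) ∈ R.O I 0 := fun I =>
    map_one R.e ▸ oemb I 0 1 (isWeightedHomogeneous_one _ _)
  have hE : ∀ (f : Pol σ) (φ ψ : ι → Pol σ), Function.extend P.j (f • φ + ψ) 0 =
      f • Function.extend P.j φ 0 + Function.extend P.j ψ 0 := fun f φ ψ =>
    ext_eq P _ _ (((supp_ext P φ).smul f).add (supp_ext P ψ)) fun a => by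
      simp [P.inj.extend_apply]
  have h0 : Function.extend P.j (0 : ι → Pol σ) (0 : J → Pol σ) = 0 :=
    ext_eq P _ _ SG.Supp.zero fun _ => rfl
  refine ⟨AddMonoidHom.mk' (fun m => P.ext R (L m).1) fun m m' => funext fun x => ?_,
    fun f m => funext fun x => ?_, fun r s t ν m hm => ?_, fun r s t v hv => ?_,
    fun m hm => hL.ker m (VB.N_ext fun a => R.inj ?_)⟩
  · have := congrFun (hE 1 (L m).1 (L m').1) x
    simp only [one_smul] at this
    simp [Pk.ext, this]
  · have := congrFun (hE f (L m).1 0) x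
    simp only [add_zero, h0] at this
    simp [Pk.ext, this]
  · obtain ⟨n, -, hn⟩ := (hL.img _ _).2 ⟨m, hm, rfl⟩
    have h1 : ∀ A : Finset (Fin r), ∏ k ∈ A, R.y (s k) ∈ R.O (im s) (-A.card) := fun A => by
      induction A using Finset.induction_on with
      | empty => simpa using o1 _
      | insert a A ha ih =>
        rw [Finset.prod_insert ha, Finset.card_insert_of_notMem ha]
        convert omul _ _ _ _ _ (oinv _ _ (mem_im s a)) ih using 2
        push_cast; ring
    have h2 : ∀ ν : ℕ, (∏ k, R.y (s k)) ^ ν ∈ R.O (im s) (-(ν * r)) := fun ν => by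
      induction ν with
      | zero => simpa using o1 _
      | succ ν ih =>
        rw [pow_succ]
        convert omul _ _ _ _ _ ih (h1 Finset.univ) using 2
        simp; ring
    refine ⟨⟨fun x hx => supp_ext P (L m).1 x fun e => hx (by simp [Pk.ext, e]), fun x => ?_⟩,
      funext fun x => (dL P R _ _ x).trans ?_⟩
    · by_cases hx : ∃ a, P.j a = x
      · obtain ⟨a, rfl⟩ := hx
        convert omul _ _ _ _ _ (h2 ν) (oemb _ _ _ (hL.hom _ m hm a)) using 1
        · rw [P.gj]; congr 1; ring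
        · simp [Pk.ext, P.inj.extend_apply]
      · simp [Pk.ext, Function.extend_apply' _ _ _ hx]
    · rw [ext_eq P _ (P.ω *ᵥ Function.extend P.j (-n) 0) (supp_om P _) fun a => by
        simp [om, hn, P.inj.extend_apply], mulVec_mulVec, P.dω]
      simp
  · obtain ⟨N, h, ψ, hd, -, -, -, hψ, hc⟩ := P.cert (s 0)
    choose μ hμ using fun x => osur _ s _ _ (hv.1.2 x)
    choose p hp hvp using fun x => hμ x _ (Finset.le_sup (f := μ) (Finset.mem_univ x))
    generalize Finset.univ.sup μ = ν₁ at hp hvp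
    have hz : ∀ f, (∏ k, R.y (s k)) ^ ν₁ * R.e f = 0 → f = 0 := fun f e => R.inj <| by
      rw [map_zero, ← one_mul (R.e f), ← R.prod_xy Finset.univ s ν₁, mul_assoc, e, mul_zero]
    have h1 : SG.Supp P.c 0 p := fun x hx => hv.1.1 x fun e =>
      hx (hz _ (by rw [mul_comm, ← hvp, e]))
    have h2 : P.d *ᵥ p = 0 := funext fun x => hz _ <| by
      rw [← dL, show (fun z => _) = v from funext fun z => by rw [hvp, mul_comm], hv.2]; rfl
    have h3 : h *ᵥ p = 0 := (hd.mulVec h1 rfl).eq_zero fun a e => by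
      have := P.pos a; omega
    have h4 := congrArg (· *ᵥ p) hc
    simp only [add_mulVec, ← mulVec_mulVec, h2, h3, mulVec_zero, zero_add, smul_mulVec,
      one_mulVec] at h4
    refine ⟨ν₁ + N, fun ν hν => ?_⟩
    obtain ⟨k, rfl⟩ := Nat.exists_eq_add_of_le hν
    have h5 : P.ω *ᵥ (((∏ i : Fin r, X (s i.succ)) ^ N * (∏ i, X (s i)) ^ k : Pol σ) • ψ *ᵥ p) =
        ((∏ i, X (s i)) ^ (N + k) : Pol σ) • p := by
      rw [mulVec_smul, h4, smul_smul, pow_add, Fin.prod_univ_succ (n := r)]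
      congr 1; ring
    obtain ⟨m, hm, e⟩ := (hL.img (t + (ν₁ + N + k : ℕ) * (r + 1))
      fun a => (((∏ i, X (s i)) ^ (N + k) : Pol σ) • p) (P.j a)).1
      ⟨fun a => -(((∏ i : Fin r, X (s i.succ)) ^ N * (∏ i, X (s i)) ^ k : Pol σ) • ψ *ᵥ p) (P.j a),
        fun a => neg_mem (hom_congr (((LR.hom_prod _ _ N).mul (LR.hom_prod _ s k)).mul
          (IsWeightedHomogeneous.sum _ _ (N + t + ν₁ * (r + 1) - γ a) fun z _ =>
            hom_congr ((hψ _ z).mul (hp z)) (by rw [P.gj]; push_cast; ring))) (by simp; ring)),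
        fun a => by simp only [← h5, om, aeval_X_left_apply]⟩
    refine ⟨m, hm, funext fun x => ?_⟩
    simp only [AddMonoidHom.mk'_apply, Pk.ext, Pi.smul_apply, smul_eq_mul]
    rw [ext_eq P _ _ (h1.smul _) fun a => congrFun e a, hvp, R.lift _ s _ _ (N + k)]
    simp only [Pi.smul_apply, smul_eq_mul, add_assoc, mul_comm]
  · simpa [Pk.ext, P.inj.extend_apply] using congrFun hm (P.j a)

end Pool.Agent.P.MP_b01859_ag.SC
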