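import Pool.Agent.P.MP_b01859_ag.SC.Iface

/-! Step OAPI. -/

set_option autoImplicit false

namespace Pool.Agent.P.MP_b01859_ag.SC

open MvPolynomial Matrix

namespace OAPIx

variable {σ : Type} (R : LR σ)

lemma ext {κ : Type} [DecidableEq κ] {A B : Finset κ} (h : A ⊆ B) (s : κ → σ) (p : Pol σ) (ν : ℕ) :
    R.e p * (∏ i ∈ A, R.y (s i)) ^ ν =
      R.e (p * (∏ i ∈ B \ A, X (s i)) ^ ν) * (∏ i ∈ B, R.y (s i)) ^ ν := by
  rw [map_mul, ← Finset.prod_sdiff h, mul_pow]
  linear_combination (-(R.e p * (∏ i ∈ A, R.y (s i)) ^ ν)) * R.prod_xy (B \ A) s ν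

lemma mul {I : Finset σ} {t t' : ℤ} {f h : R.L} (hf : f ∈ R.O I t) (hh : h ∈ R.O I t') :
    f * h ∈ R.O I (t + t') := by
  obtain ⟨ν, p, hp, rfl⟩ := hf
  obtain ⟨ν', p', hp', rfl⟩ := hh
  exact ⟨ν + ν', p * p', hom_congr (hp.mul hp') (by push_cast; ring), by
    rw [map_mul, pow_add]; ring⟩

lemma pol (I : Finset σ) {t : ℤ} {p : Pol σ} (h : Hom p t) : R.e p ∈ R.O I t :=
  ⟨0, p, hom_congr h (by simp), by simp⟩

variable [DecidableEq σ]

lemma mono (t : ℤ) : Monotone fun I => R.O I t := by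
  rintro I I' h _ ⟨ν, p, hp, rfl⟩
  refine ⟨ν, _, hom_congr (hp.mul (LR.hom_prod (I' \ I) (fun i => i) ν)) ?_,
    ext R h (fun i => i) p ν⟩
  rw [← Finset.card_sdiff_add_card_eq_card h]
  push_cast
  ring

lemma inv {I : Finset σ} {s : σ} (h : s ∈ I) : R.y s ∈ R.O I (-1) :=
  mono R _ (Finset.singleton_subset_iff.2 h)
    ⟨1, 1, hom_congr (isWeightedHomogeneous_one ℂ _) (by simp), by simp⟩

omit [DecidableEq σ] in
lemma dy (i s : σ) : R.D i (R.y s) = -(R.y s * R.y s * R.e (pderiv i (X s))) := by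
  have h := congrArg (R.D i) (R.xy s)
  rw [Derivation.leibniz, R.De, Derivation.map_one_eq_zero, smul_eq_mul, smul_eq_mul] at h
  linear_combination R.y s * h - R.D i (R.y s) * R.xy s

variable [Fintype σ]

/-- the three properties together -/
def Q (I : Finset σ) (t : ℤ) (f : R.L) : Prop :=
  f ∈ R.O I t ∧ (∀ i, R.D i f ∈ R.O I (t - 1)) ∧ ∑ i, R.e (X i) * R.D i f = (t : ℂ) • f

lemma qmul {I : Finset σ} {t t' : ℤ} {f h : R.L} (hf : Q R I t f) (hh : Q R I t' h) :
    Q R I (t + t') (f * h) := by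
  refine ⟨mul R hf.1 hh.1, fun i => ?_, ?_⟩
  · rw [Derivation.leibniz, smul_eq_mul, smul_eq_mul]
    refine add_mem ?_ ?_
    · have := mul R hf.1 (hh.2.1 i)
      rwa [show t + (t' - 1) = t + t' - 1 by ring] at this
    · have := mul R hh.1 (hf.2.1 i)
      rwa [show t' + (t - 1) = t + t' - 1 by ring] at this
  · have e : ∀ i, R.e (X i) * R.D i (f * h) =
        f * (R.e (X i) * R.D i h) + h * (R.e (X i) * R.D i f) := fun i => by
      rw [Derivation.leibniz, smul_eq_mul, smul_eq_mul]; ring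
    simp only [e]
    rw [Finset.sum_add_distrib, ← Finset.mul_sum, ← Finset.mul_sum, hf.2.2, hh.2.2, Int.cast_add,
      add_smul, mul_smul_comm, mul_smul_comm, mul_comm h f, add_comm]

lemma qpol (I : Finset σ) {t : ℤ} {p : Pol σ} (h : Hom p t) : Q R I t (R.e p) := by
  refine ⟨pol R I h, fun i => R.De i p ▸ pol R I (h.pderiv (by simp)), ?_⟩
  have e := euler h
  rw [dr_eq_sum] at e
  simp only [der_X, Matrix.one_apply, apply_ite C, C_1, C_0, ite_mul, one_mul, zero_mul,
    Finset.sum_ite_eq, Finset.mem_univ, if_true] at e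
  simp only [R.De, ← map_mul]
  rw [← map_sum, ← map_smul, smul_eq_C_mul, ← e]
  exact congrArg _ (Finset.sum_congr rfl fun i _ => mul_comm _ _)

lemma qinv {I : Finset σ} {s : σ} (h : s ∈ I) : Q R I (-1) (R.y s) := by
  refine ⟨inv R h, fun i => ?_, ?_⟩
  · rw [dy]
    have := mul R (mul R (inv R h) (inv R h))
      (pol R I ((isWeightedHomogeneous_X ℂ (fun _ : σ => (1 : ℤ)) s).pderiv (i := i) (n' := 0)
        (by simp)))
    exact neg_mem (by simpa using this)
  · simp only [dy, pderiv_X, Pi.single_apply, apply_ite R.e, map_one, map_zero, mul_ite, mul_one,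
      mul_zero, mul_neg, Finset.sum_neg_distrib, Finset.sum_ite_eq, Finset.mem_univ, if_true]
    rw [← mul_assoc, R.xy]
    simp

lemma qall {I : Finset σ} {t : ℤ} {f : R.L} (h : f ∈ R.O I t) : Q R I t f := by
  obtain ⟨ν, p, hp, rfl⟩ := h
  have one : Q R I 0 1 := map_one R.e ▸ qpol R I (isWeightedHomogeneous_one ℂ _)
  have h1 : ∀ A : Finset σ, A ⊆ I → Q R I (-A.card) (∏ i ∈ A, R.y i) := by
    intro A
    induction A using Finset.induction_on with
    | empty => exact fun _ => by simpa using one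
    | insert a A ha ih =>
      intro hA
      have := qmul R (qinv R (hA (Finset.mem_insert_self a A)))
        (ih ((Finset.subset_insert a A).trans hA))
      rwa [Finset.prod_insert ha, Finset.card_insert_of_notMem ha,
        show -((A.card + 1 : ℕ) : ℤ) = -1 + -A.card by push_cast; ring]
  have h2 : ∀ k : ℕ, Q R I (-(k * I.card)) ((∏ i ∈ I, R.y i) ^ k) := by
    intro k
    induction k with
    | zero => simpa using one
    | succ k ih =>
      have := qmul R ih (h1 I (Finset.Subset.refl _))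
      rwa [pow_succ, show -(((k + 1 : ℕ) : ℤ) * I.card) = -(k * I.card) + -I.card by
        push_cast; ring]
  have := qmul R (qpol R I hp) (h2 ν)
  rwa [add_neg_cancel_right] at this

end OAPIx

theorem p_OAPI :
    S_OAPI := by
  intro σ _ _ R
  refine ⟨OAPIx.mono R, fun _ _ _ _ _ => OAPIx.mul R, fun I _ _ => OAPIx.pol R I,
    fun _ _ => OAPIx.inv R, fun _ _ i _ h => (OAPIx.qall R h).2.1 i,
    fun _ _ _ h => (OAPIx.qall R h).2.2, ?_⟩
  rintro r s t _ ⟨ν₀, p, hp, rfl⟩
  obtain ⟨K, hK, hi, e⟩ := Finset.exists_subset_injOn_image_eq_of_surjOn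
    (f := s) (Set.univ : Set (Fin r)) (im s) fun x hx => by
      obtain ⟨k, -, rfl⟩ := Finset.mem_image.1 hx
      exact ⟨k, trivial, rfl⟩
  refine ⟨ν₀, fun ν hν => ?_⟩
  obtain ⟨k, rfl⟩ := Nat.exists_eq_add_of_le hν
  rw [← e, Finset.card_image_of_injOn hi] at hp
  refine ⟨_, hom_congr ((hp.mul (LR.hom_prod K s k)).mul
    (LR.hom_prod (Finset.univ \ K) s (ν₀ + k))) ?_, ?_⟩
  · have := Finset.card_sdiff_add_card_eq_card (Finset.subset_univ K)
    rw [Finset.card_univ, Fintype.card_fin] at this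
    have h2 : (r : ℤ) = (Finset.univ \ K).card + K.card := by exact_mod_cast this.symm
    rw [h2]
    push_cast
    ring
  · rw [← e, Finset.prod_image hi, R.lift K s p ν₀ k, OAPIx.ext R (Finset.subset_univ K)]

end Pool.Agent.P.MP_b01859_ag.SC
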