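import Pool.Agent.P.MP_b01859_ag.SC.Iface

/-! Step OPS. -/

set_option autoImplicit false

namespace Pool.Agent.P.MP_b01859_ag.SC

open MvPolynomial Matrix

namespace OPSx

variable {J A : Type} [CommRing A] [Algebra ℂ A] [Fintype J]

/-- The supertrace as a linear map. -/
noncomputable def strL (c : J → ℤ) : Matrix J J A →ₗ[A] A where
  toFun := str c
  map_add' B C := by simp [str, Finset.sum_add_distrib]
  map_smul' f B := by simp [str, Finset.mul_sum]

lemma strL_apply (c : J → ℤ) (B : Matrix J J A) : strL c B = str c B := rfl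

lemma str_comm {c : J → ℤ} {B : Matrix J J A} (h : Dg c 0 B) (C : Matrix J J A) :
    strL c (B * C) = strL c (C * B) := by
  simp only [strL_apply, str, Matrix.mul_apply, Finset.smul_sum]
  rw [Finset.sum_comm]
  refine Finset.sum_congr rfl fun b _ => Finset.sum_congr rfl fun a _ => ?_
  by_cases h0 : B a b = 0
  · simp [h0]
  · rw [h a b h0, add_zero, mul_comm]

omit [Algebra ℂ A] [Fintype J] in
lemma dg_sub {c : J → ℤ} {B C : Matrix J J A} (h : Dg c 0 B) (h' : Dg c 0 C) : Dg c 0 (B - C) :=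
  fun a b h0 => by
    by_cases h1 : B a b = 0
    · exact h' a b fun h2 => h0 (by simp [h1, h2])
    · exact h a b h1

/-- A matrix as an operator. -/
noncomputable def mv (B : Matrix J J A) : (J → A) →ₗ[ℂ] (J → A) := B.mulVecLin.restrictScalars ℂ

lemma mv_apply (B : Matrix J J A) (v : J → A) : mv B v = B *ᵥ v := rfl

/-- A covariant derivative. -/
noncomputable def cov (D : Derivation ℂ A A) (B : Matrix J J A) : (J → A) →ₗ[ℂ] (J → A) :=
  D.toLinearMap.compLeft J + mv B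

lemma cov_apply (D : Derivation ℂ A A) (B : Matrix J J A) (v : J → A) :
    cov D B v = (fun a => D (v a)) + B *ᵥ v := rfl

/-- The cocycle. -/
noncomputable def zz (c : J → ℤ) (D D' : Derivation ℂ A A) (S S' U U' : Matrix J J A) :
    (J → A) →ₗ[ℂ] (J → A) :=
  (2 : ℂ) • (mv (U - S) ∘ₗ cov D' U' - mv (U' - S') ∘ₗ cov D U) -
    (mv (U - S) ∘ₗ mv (U' - S') - mv (U' - S') ∘ₗ mv (U - S)) +
    (strL c (S * U') - strL c (S' * U)) • LinearMap.id

lemma zz_apply (c : J → ℤ) (D D' : Derivation ℂ A A) (S S' U U' : Matrix J J A) (v : J → A) :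
    zz c D D' S S' U U' v = (2 : ℂ) • ((U - S) *ᵥ cov D' U' v - (U' - S') *ᵥ cov D U v) -
      ((U - S) *ᵥ (U' - S') *ᵥ v - (U' - S') *ᵥ (U - S) *ᵥ v) +
      (strL c (S * U') - strL c (S' * U)) • v := rfl

lemma der_mulVec (D : Derivation ℂ A A) (d : Matrix J J A) (v : J → A) (h : d *ᵥ v = 0) :
    d *ᵥ (fun a => D (v a)) + d.map D *ᵥ v = 0 := by
  funext a
  have := congrArg D (congrFun h a)
  simp only [mulVec, dotProduct, map_sum, Derivation.leibniz, smul_eq_mul, Pi.zero_apply,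
    map_zero, Finset.sum_add_distrib] at this
  simpa [mulVec, dotProduct, mul_comm] using this

end OPSx

open OPSx in
theorem p_OPS (hOAPI : S_OAPI) (hCHT : S_CHT) :
    S_OPS := by
  intro σ ι _ _ _ T γ g c₂ J _ _ P R B hB
  obtain ⟨o1, o2, o3, -, o5, o6, -⟩ := hOAPI σ R
  obtain ⟨Γ, hΓ⟩ : ∃ Γ : Matrix J J R.L,
    Γ = diagonal fun a => algebraMap ℂ R.L ((P.gJ a : ℂ) + (g : ℂ) / 2) := ⟨_, rfl⟩
  have eul : ∀ s, ∑ i, R.e (X i) • B s i = Γ := fun s => hΓ ▸ hB.eul s
  have dΓ : Dg P.c 0 Γ := fun a b h => by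
    rw [hΓ] at h
    by_cases e : a = b
    · simp [e]
    · exact absurd (diagonal_apply_ne _ e) h
  have oc : ∀ {I t t' f}, f ∈ R.O I t → t = t' → f ∈ R.O I t' := fun h e => e ▸ h
  have mem : ∀ {s I}, s ∈ I → ∀ i a b, B s i a b ∈ R.O I (P.gJ b - P.gJ a - 1) :=
    fun h i a b => o1 _ (Finset.singleton_subset_iff.2 h) (hB.mem _ i a b)
  have hF : ∀ {A : Matrix J J R.L} {I t v}, Dg P.c 0 A →
      (∀ a b, A a b ∈ R.O I (P.gJ b - P.gJ a - 1)) → v ∈ P.F R 0 t I →
      A *ᵥ v ∈ P.F R 0 (t - 1) I := by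
    intro A I t v h1 h2 hv
    refine ⟨fun a h => ?_, fun a => Submodule.sum_mem _ fun b _ =>
      oc (o2 _ _ _ _ _ (h2 a b) (hv.2 b)) (by ring)⟩
    obtain ⟨b, -, hb⟩ := Finset.exists_ne_zero_of_sum_ne_zero h
    rw [h1 a b (left_ne_zero_of_mul hb), hv.1 b (right_ne_zero_of_mul hb), add_zero]
  have hS : ∀ {I k t t' f v}, f ∈ R.O I k → v ∈ P.Z R 0 t I → t' = t + k →
      f • v ∈ P.Z R 0 t' I := by
    intro I k t t' f v hf hv e
    exact ⟨⟨fun a h => hv.1.1 a (right_ne_zero_of_mul h),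
      fun a => oc (o2 _ _ _ _ _ hf (hv.1.2 a)) (by rw [e]; ring)⟩,
      by rw [mulVec_smul, hv.2, smul_zero]⟩
  have com : ∀ s u i, P.dL R * (B u i - B s i) = (B u i - B s i) * P.dL R := fun s u i => by
    have h := (hB.com u i).trans (hB.com s i).symm
    rw [mul_sub, sub_mul]
    rw [sub_eq_sub_iff_sub_eq_sub] at h
    exact h
  have ha : ∀ {s u I t v}, s ∈ I → u ∈ I → ∀ i, v ∈ P.Z R 0 t I →
      (B u i - B s i) *ᵥ v ∈ P.Z R 0 (t - 1) I := by
    intro s u I t v hs hu i hv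
    exact ⟨hF (dg_sub (hB.deg u i) (hB.deg s i)) (fun a b => sub_mem (mem hu i a b) (mem hs i a b))
      hv.1, by rw [mulVec_mulVec, com, ← mulVec_mulVec, hv.2, mulVec_zero]⟩
  have hD : ∀ s j t I v, s ∈ I → v ∈ P.Z R 0 t I →
      cov (R.D j) (B s j) v ∈ P.Z R 0 (t - 1) I := by
    intro s j t I v hs hv
    rw [cov_apply]
    refine ⟨add_mem ⟨fun a h => hv.1.1 a fun h0 => h (by simp [h0]),
      fun a => oc (o5 _ _ j _ (hv.1.2 a)) (by ring)⟩ (hF (hB.deg s j) (mem hs j) hv.1), ?_⟩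
    rw [mulVec_add, mulVec_mulVec, sub_eq_iff_eq_add.1 (hB.com s j), add_mulVec, ← mulVec_mulVec,
      hv.2, mulVec_zero, add_zero]
    exact der_mulVec _ _ _ hv.2
  have h2 : ∀ {s u I}, s ∈ I → u ∈ I → ∀ i j, strL P.c (B s i * B u j) ∈ R.O I (-2) :=
    fun hs hu i j => Submodule.sum_mem _ fun a _ => Submodule.smul_mem _ _
      (Submodule.sum_mem _ fun b _ => oc (o2 _ _ _ _ _ (mem hs i a b) (mem hu j b a)) (by ring))
  have hE : ∀ s t I v, v ∈ P.Z R 0 t I →
      ∑ j, R.e (X j) • cov (R.D j) (B s j) v = ((t : ℂ) + (g : ℂ) / 2) • v := by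
    intro s t I v hv
    simp only [cov_apply, smul_add, Finset.sum_add_distrib, ← smul_mulVec, ← sum_mulVec, eul]
    funext a
    have := o6 _ _ _ (hv.1.2 a)
    simp only [Pi.add_apply, Finset.sum_apply, Pi.smul_apply, smul_eq_mul, this, hΓ,
      mulVec_diagonal, ← Algebra.smul_def, ← add_smul]
    congr 1
    push_cast
    ring
  have a0 : ∀ s u, ∑ i, R.e (X i) • (B u i - B s i) = 0 := fun s u => by
    simp only [smul_sub, Finset.sum_sub_distrib, eul, sub_self]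
  refine ⟨{
    D := fun s j => cov (R.D j) (B s j)
    G := fun s j => strL P.c (Γ * B s j) • LinearMap.id
    Z := fun s u i j => zz P.c (R.D i) (R.D j) (B s i) (B s j) (B u i) (B u j)
    mono := fun t I I' h v hv => ⟨⟨hv.1.1, fun a => o1 _ h (hv.1.2 a)⟩, hv.2⟩
    xm := fun i t I v hv => hS (o3 I 1 _ (isWeightedHomogeneous_X ℂ _ _)) hv rfl
    Dm := hD
    Gm := fun s j t I v hs hv => hS (k := -1) ?_ hv rfl
    Zm := fun s u i j t I v hs hu hv => ?_
    anti := fun s u i j v => ?_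
    coc := fun s u w i j t I v hv => ?_
    con := fun s u j t I v hv => ?_
    eul := hE
    gam := fun s t I v hv => ?_ }⟩
  · refine Submodule.sum_mem _ fun a _ => Submodule.smul_mem _ _ ?_
    rw [hΓ, diagonal_mul, ← Algebra.smul_def]
    exact Submodule.smul_mem _ _ (oc (mem hs j a a) (by ring))
  · rw [zz_apply]
    refine add_mem ?_ (hS (sub_mem (h2 hs hu i j) (h2 hs hu j i)) hv rfl)
    rw [show t - 2 = t - 1 - 1 by ring]
    exact sub_mem (Submodule.smul_mem _ _ (sub_mem (ha hs hu i (hD _ _ _ _ _ hu hv))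
      (ha hs hu j (hD _ _ _ _ _ hu hv))))
      (sub_mem (ha hs hu i (ha hs hu j hv)) (ha hs hu j (ha hs hu i hv)))
  · simp only [zz_apply, smul_sub, sub_smul]
    abel
  · have : Nonempty σ := ⟨s⟩
    have c : ∀ i j, (B u i - B s i) *ᵥ (B w j - B u j) *ᵥ v + (B w j - B u j) *ᵥ
        (B u i - B s i) *ᵥ v = strL P.c ((B u i - B s i) * (B w j - B u j)) • v := fun i j =>
      hCHT σ ι T γ g c₂ J P R _ _ (dg_sub (hB.deg _ _) (hB.deg _ _))
        (dg_sub (hB.deg _ _) (hB.deg _ _)) (com _ _ _) (com _ _ _)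
        (by rw [← strL_apply, map_sub, strL_apply, strL_apply, hB.tr, hB.tr, sub_zero])
        (by rw [← strL_apply, map_sub, strL_apply, strL_apply, hB.tr, hB.tr, sub_zero]) v hv.1.1 hv.2
    have c1 := c i j
    have c2 := c j i
    simp only [zz_apply, cov_apply, two_smul, sub_mulVec, mulVec_sub, mulVec_add, sub_mul, mul_sub,
      map_sub, sub_smul, str_comm (hB.deg u j) (B u i)] at c1 c2 ⊢
    linear_combination (exp := 1) c2 - c1
  · have e1 : ∑ i, R.e (X i) • zz P.c (R.D i) (R.D j) (B s i) (B s j) (B u i) (B u j) v =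
        (2 : ℂ) • ((∑ i, R.e (X i) • (B u i - B s i)) *ᵥ cov (R.D j) (B u j) v -
          (B u j - B s j) *ᵥ ∑ i, R.e (X i) • cov (R.D i) (B u i) v) -
        ((∑ i, R.e (X i) • (B u i - B s i)) *ᵥ (B u j - B s j) *ᵥ v -
          (B u j - B s j) *ᵥ (∑ i, R.e (X i) • (B u i - B s i)) *ᵥ v) +
        (strL P.c ((∑ i, R.e (X i) • B s i) * B u j) -
          strL P.c (B s j * ∑ i, R.e (X i) • B u i)) • v := by
      simp only [zz_apply, sum_mulVec, mulVec_sum, smul_mulVec, mulVec_smul, Finset.sum_mul,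
        Finset.mul_sum, map_sum, smul_mul_assoc, mul_smul_comm, map_smul, ← Finset.sum_sub_distrib,
        Finset.smul_sum, Finset.sum_smul, ← Finset.sum_add_distrib]
      refine Finset.sum_congr rfl fun i _ => ?_
      simp only [smul_add, smul_sub, sub_smul, smul_smul, smul_eq_mul, smul_comm (2 : ℂ)]
    rw [e1, a0, eul, eul, hE u t I v hv, ← str_comm dΓ]
    simp only [zero_mulVec, mulVec_zero, cov_apply, mulVec_smul, LinearMap.smul_apply,
      LinearMap.id_apply, sub_mulVec, sub_smul, mul_smul, smul_sub, smul_add, smul_zero]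
    abel
  · simp only [LinearMap.smul_apply, LinearMap.id_apply, smul_smul, ← Finset.sum_smul]
    have e : ∑ j, R.e (X j) * strL P.c (Γ * B s j) = strL P.c (Γ * Γ) := by
      conv_rhs => rw [← eul s]
      conv_rhs => enter [2, 1]; rw [eul s]
      simp only [Finset.mul_sum, map_sum, mul_smul_comm, map_smul, smul_eq_mul]
    rw [e, ← algebraMap_smul R.L (((g : ℂ) ^ 2 - 4 * c₂) / 2)]
    congr 1
    have e2 : ((g : ℂ) ^ 2 - 4 * c₂) / 2 =
        ∑ a, (-1 : ℂ) ^ P.c a * (((P.gJ a : ℂ) + (g : ℂ) / 2) * ((P.gJ a : ℂ) + (g : ℂ) / 2)) := by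
      have : ∀ a, (-1 : ℂ) ^ P.c a * (((P.gJ a : ℂ) + (g : ℂ) / 2) * ((P.gJ a : ℂ) + (g : ℂ) / 2)) =
          (-1 : ℂ) ^ P.c a * (P.gJ a : ℂ) ^ 2 + g * ((-1 : ℂ) ^ P.c a * P.gJ a) +
            g ^ 2 / 4 * (-1 : ℂ) ^ P.c a := fun a => by ring
      simp only [this, Finset.sum_add_distrib, ← Finset.mul_sum, P.s0, P.s1, P.s2]
      ring
    rw [e2, map_sum, hΓ, diagonal_mul_diagonal, strL_apply, str]
    refine Finset.sum_congr rfl fun a _ => ?_
    rw [diagonal_apply_eq, Algebra.smul_def, map_mul, map_mul]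

end Pool.Agent.P.MP_b01859_ag.SC
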