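import Pool.Agent.P.MP_b01859_ag.SC.Iface

/-! Step RESF. -/

set_option autoImplicit false

namespace Pool.Agent.P.MP_b01859_ag.SC

open MvPolynomial Matrix SG

variable {σ : Type}

lemma ex_old {J K : Type} [Fintype J] [Fintype K] {cJ : J → ℤ} {cK : K → ℤ}
    {A : Matrix J J (Pol σ)} {ψ : Matrix J K (Pol σ)} {δ : Matrix K K (Pol σ)} {k : ℤ}
    (hK : ∀ e, cK e < k) {v : J ⊕ K → Pol σ} (hv : Supp (Sum.elim cJ cK) k v)
    (h : ∃ u, Supp cJ (k - 1) u ∧ A *ᵥ u = v ∘ Sum.inl) :
    ∃ u, Supp (Sum.elim cJ cK) (k - 1) u ∧ fromBlocks A ψ 0 δ *ᵥ u = v := by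
  obtain ⟨u, hu, e⟩ := h
  refine ⟨Sum.elim u 0, ?_, ?_⟩
  · rintro (a | a) h
    · exact hu a h
    · exact absurd rfl h
  · funext a
    rcases a with a | a
    · simpa [fromBlocks_mulVec] using congrFun e a
    · have : v (.inr a) = 0 := by_contra fun h => by
        have h1 := hv _ h
        have h2 := hK a
        simp only [Sum.elim_inr] at h1
        omega
      simp [fromBlocks_mulVec, this]

lemma ex_new {J K : Type} [Fintype J] [Fintype K] {cJ : J → ℤ} {cK : K → ℤ}
    {A : Matrix J J (Pol σ)} {ψ : Matrix J K (Pol σ)} {δ : Matrix K K (Pol σ)} {k : ℤ}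
    (h : ∀ y q, Supp cJ k y → Supp cK k q → A *ᵥ y + ψ *ᵥ q = 0 → δ *ᵥ q = 0 →
      ∃ q', Supp cK (k - 1) q' ∧ ψ *ᵥ q' = y ∧ δ *ᵥ q' = q) :
    Ex (Sum.elim cJ cK) (fromBlocks A ψ 0 δ) k := by
  intro v hv h0
  rw [fromBlocks_mulVec] at h0
  obtain ⟨q, hq, e1, e2⟩ := h (v ∘ Sum.inl) (v ∘ Sum.inr)
    (fun a h => hv (.inl a) h) (fun a h => hv (.inr a) h)
    (funext fun a => congrFun h0 (.inl a))
    (funext fun a => by simpa using congrFun h0 (.inr a))
  refine ⟨Sum.elim 0 q, ?_, ?_⟩
  · rintro (a | a) h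
    · exact absurd rfl h
    · exact hq a h
  · funext a
    rcases a with a | a
    · simpa [fromBlocks_mulVec] using congrFun e1 a
    · simpa [fromBlocks_mulVec] using congrFun e2 a

/-- Extension by zero rows. -/
noncomputable def ext0 {ι : Type} (K : Type) (T : VB σ ι) : VB σ (ι ⊕ K) where
  ω := fromBlocks (of T.ω) 0 0 0
  skew := by
    rintro (a | a) (b | b)
    · exact T.skew a b
    all_goals simp
  pl := by
    rintro (a | a) (b | b) (c | c) (d | d)
    · exact T.pl a b c d
    all_goals simp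
  LF := fun p hp s hs => by
    obtain ⟨i, j, h⟩ := T.LF p hp s hs
    exact ⟨.inl i, .inl j, h⟩

/-- The first steps of a resolution. -/
structure Res' {I : Type} [Fintype I] (T : VB σ I) (c γ : I → ℤ) (g : ℤ)
    (d : Matrix I I (Pol σ)) : Prop where
  gr : Gr (SD.w1 σ) γ g T.ω
  cx : Cx c γ d
  c0 : ∀ a, c a ≤ 0
  sup : ∀ a b, T.ω a b ≠ 0 → c a = 0 ∧ c b = 0
  ωd : of T.ω * d = 0
  ex0 : ∀ v, Supp c 0 v → of T.ω *ᵥ v = 0 → ∃ u, Supp c (-1) u ∧ d *ᵥ u = v

lemma ext0_gr {ι K : Type} {T : VB σ ι} {γ : ι → ℤ} {g : ℤ} (h : Gr (SD.w1 σ) γ g T.ω)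
    (gK : K → ℤ) : Gr (SD.w1 σ) (Sum.elim γ gK) g (ext0 K T).ω := by
  rintro (a | a) (b | b)
  · exact h a b
  all_goals exact isWeightedHomogeneous_zero ℂ _ _

lemma Res'.ext {J K : Type} [Fintype J] [Fintype K] {T : VB σ J} {c γ : J → ℤ} {g : ℤ}
    {A : Matrix J J (Pol σ)} (R : Res' T c γ g A) {cK gK : K → ℤ}
    {ψ : Matrix J K (Pol σ)} {δ : Matrix K K (Pol σ)}
    (hC : Cx (Sum.elim c cK) (Sum.elim γ gK) (fromBlocks A ψ 0 δ)) (hK : ∀ e, cK e ≤ -2) :
    Res' (ext0 K T) (Sum.elim c cK) (Sum.elim γ gK) g (fromBlocks A ψ 0 δ) := by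
  refine ⟨ext0_gr R.gr gK, hC, ?_, ?_, ?_, fun v hv h0 => ?_⟩
  · rintro (a | a)
    · exact R.c0 a
    · have := hK a
      simp only [Sum.elim_inr]
      omega
  · rintro (a | a) (b | b) h
    · exact R.sup a b h
    all_goals exact absurd rfl h
  · have h1 : of T.ω * ψ = 0 := by
      ext1 a e
      rw [mul_apply]
      refine Finset.sum_eq_zero fun b _ => ?_
      by_cases h : ψ b e = 0
      · simp [h]
      · have h2 := hC.deg (.inl b) (.inr e) h
        have h3 := hK e
        simp only [Sum.elim_inl, Sum.elim_inr] at h2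
        have h4 : T.ω a b = 0 := by_contra fun h5 => by have := (R.sup a b h5).2; omega
        simp [h4]
    change fromBlocks (of T.ω) 0 0 0 * _ = _
    rw [fromBlocks_multiply, R.ωd, h1]
    simp
  · refine ex_old (k := 0) (fun e => by have := hK e; omega) hv
      (R.ex0 _ (fun a h => hv (.inl a) h) ?_)
    have h1 : fromBlocks (of T.ω) 0 0 0 *ᵥ v = 0 := h0
    rw [fromBlocks_mulVec] at h1
    funext a
    simpa using congrFun h1 (.inl a)

theorem p_RESF (hGEN : SG.S_GEN) (hTOWER : SG.S_TOWER) :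
    S_RESF := by
  intro σ ι _ _ T γ g hG
  have hω : SG.Hom (fun a => g - γ a) γ (of T.ω) := by
    intro a b
    have := hG a b
    rwa [show γ a + γ b - g = γ b - (g - γ a) by ring] at this
  obtain ⟨K1, _, g1, V, hV, hV1, hV2, -⟩ := hGEN σ ι γ (LinearMap.ker (of T.ω).mulVecLin)
    fun v hv t => by
      rw [LinearMap.mem_ker, mulVecLin_apply] at hv ⊢
      rw [hω.mulVec_comp, hv, comp_zero]
  have hωV : of T.ω * V = 0 := by
    classical
    ext1 a b
    have := congrFun (LinearMap.mem_ker.mp (hV1 (Pi.single b 1))) a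
    rw [mulVecLin_apply, mulVec_mulVec] at this
    simpa using this
  have R1 : Res' (ext0 K1 T) (Sum.elim (fun _ : ι => (0 : ℤ)) fun _ : K1 => -1) (Sum.elim γ g1) g
      (fromBlocks 0 V 0 0) := by
    refine ⟨ext0_gr hG g1, ⟨?_, ?_, by simp [fromBlocks_multiply]⟩, ?_, ?_, ?_, fun v hv h0 => ?_⟩
    · rintro (a | a) (b | b) h <;> simp_all
    · rintro (a | a) (b | b)
      · exact isWeightedHomogeneous_zero ℂ _ _
      · exact hV a b
      · exact isWeightedHomogeneous_zero ℂ _ _
      · exact isWeightedHomogeneous_zero ℂ _ _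
    · rintro (a | a) <;> simp
    · rintro (a | a) (b | b) h
      · exact ⟨rfl, rfl⟩
      all_goals exact absurd rfl h
    · change fromBlocks (of T.ω) 0 0 0 * _ = _
      rw [fromBlocks_multiply, hωV]
      simp
    · have h1 : fromBlocks (of T.ω) 0 0 0 *ᵥ v = 0 := h0
      rw [fromBlocks_mulVec] at h1
      obtain ⟨w, hw⟩ := hV2 (v ∘ Sum.inl) (by
        rw [LinearMap.mem_ker, mulVecLin_apply]
        funext a
        simpa using congrFun h1 (.inl a))
      refine ⟨Sum.elim 0 w, ?_, ?_⟩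
      · rintro (a | a) h <;> simp_all
      · funext a
        rcases a with a | a
        · simpa [fromBlocks_mulVec] using congrFun hw a
        · have : v (.inr a) = 0 := by_contra fun h => by simpa using hv _ h
          simp [fromBlocks_mulVec, this]
  obtain ⟨K2, _, c2, g2, ψ2, δ2, hC2, hK2, hE2, -⟩ := hTOWER σ _ _ _ _ (-1) 1 R1.cx
  have R2 := R1.ext hC2 fun e => by have := (hK2 e).2; omega
  have E2 := ex_new (hE2 (-1) (by norm_num) le_rfl)
  obtain ⟨K3, _, c3, g3, ψ3, δ3, hC3, hK3, hE3, hI3⟩ :=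
    hTOWER σ _ _ _ _ (-2) (Fintype.card σ + 1) R2.cx
  have R3 := R2.ext hC3 fun e => by have := (hK3 e).2; omega
  have hlo : ∀ a, -2 ≤ Sum.elim (Sum.elim (fun _ : ι => (0 : ℤ)) fun _ : K1 => -1) c2 a := by
    rintro ((a | a) | a)
    · simp
    · simp
    · simpa using (hK2 a).1
  refine ⟨_, inferInstance, _, _, _, _, fun a => .inl (.inl (.inl a)),
    ⟨R3.gr, R3.cx, R3.c0, R3.sup, R3.ωd, R3.ex0, fun k hk => ?_⟩, fun a b h => by simpa using h,
    fun a b => rfl, fun a => rfl, fun a => rfl, ?_⟩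
  · rcases eq_or_lt_of_le hk with rfl | hk
    · intro v hv h0
      rw [fromBlocks_mulVec] at h0
      have h1 : v ∘ Sum.inr = 0 := funext fun a => by_contra fun h => by
        have h1 := hv _ h
        have h2 := (hK3 a).2
        simp only [Sum.elim_inr] at h1
        omega
      refine ex_old (fun e => by have := (hK3 e).2; omega) hv
        (E2 _ (fun a h => hv (.inl a) h) ?_)
      funext a
      simpa [h1] using congrFun h0 (.inl a)
    · by_cases h : -2 - ((Fintype.card σ + 1 : ℕ) : ℤ) < k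
      · exact ex_new (hE3 k h (by omega))
      · intro v hv h0
        refine ⟨0, Supp.zero, ?_⟩
        rw [fromBlocks_mulVec] at h0
        have h1 : v ∘ Sum.inl = 0 := funext fun a => by_contra fun h' => by
          have h1 := hv (.inl a) h'
          have h2 := hlo a
          simp only [Sum.elim_inl] at h1
          push_cast at h
          omega
        have h2 : v ∘ Sum.inr = 0 := by
          refine hI3 (by omega) E2 _ (fun a h' => ?_) ?_ ?_
          · have h1 := hv (.inr a) h'
            have h2 := (hK3 a).1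
            simp only [Sum.elim_inr] at h1
            omega
          · funext a
            simpa [h1] using congrFun h0 (.inl a)
          · funext a
            simpa using congrFun h0 (.inr a)
        funext a
        rcases a with a | a
        · simpa using (congrFun h1 a).symm
        · simpa using (congrFun h2 a).symm
  · rintro (((a | a) | a) | a) h
    · exact ⟨a, rfl⟩
    · simp at h
    · have := (hK2 a).2
      simp only [Sum.elim_inl, Sum.elim_inr] at h
      omega
    · have := (hK3 a).2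
      simp only [Sum.elim_inr] at h
      omega

end Pool.Agent.P.MP_b01859_ag.SC
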