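import Pool.Agent.P.MP_b01859_ag.SC.Iface

/-! Step SEC. -/

set_option autoImplicit false

namespace Pool.Agent.P.MP_b01859_ag.SC

open MvPolynomial Matrix

theorem p_SEC (hOAPI : S_OAPI) :
    S_SEC := by
  intro σ ι _ _ _ _ T γ g c₂ J _ _ P R φ α h0 hφ hV
  obtain ⟨s₀⟩ := ‹Nonempty σ›
  obtain ⟨a, b, hab⟩ := T.LF ⊥ Ideal.isPrime_bot s₀ (by simp)
  set u : J → Pol σ := Function.extend P.j φ.1 0 with hu
  have u1 : ∀ k, u (P.j k) = φ.1 k := fun k => P.inj.extend_apply _ _ k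
  have u0 : ∀ x, P.c x ≠ 0 → u x = 0 := fun x hx =>
    Function.extend_apply' _ _ x fun h => hx ((P.c0 x).2 h)
  have key : T.ω a b • u =
      φ.1 a • (fun x => P.ω x (P.j b)) - φ.1 b • fun x => P.ω x (P.j a) := by
    funext x
    simp only [Pi.smul_apply, Pi.sub_apply, smul_eq_mul]
    by_cases hx : P.c x = 0
    · obtain ⟨k, rfl⟩ := (P.c0 x).1 hx
      rw [u1, P.ωj, P.ωj, T.skew b k, T.skew a k]
      linear_combination φ.2 a b k
    · have e : ∀ z, P.ω x z = 0 := fun z => by_contra fun h => hx (P.ω0 x z h).1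
      simp [u0 x hx, e]
  have col : ∀ z, P.d *ᵥ (fun x => P.ω x z) = 0 := fun z => funext fun x =>
    congrFun (congrFun P.dω x) z
  have du : P.d *ᵥ u = 0 := by
    have : T.ω a b • P.d *ᵥ u = 0 := by
      rw [← mulVec_smul, key, mulVec_sub, mulVec_smul, mulVec_smul, col, col]; simp
    exact (smul_eq_zero.1 this).resolve_left (by simpa using hab)
  have hC : Cc (P.Z R 0 α) (fun _ : Fin (0 + 1) → σ => P.ext R φ.1) := by
    refine fun s => ⟨⟨fun x hx => ?_, fun x => ?_⟩, ?_⟩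
    · exact by_contra fun h => hx (by show R.e (u x) = 0; rw [u0 x h, map_zero])
    · refine (hOAPI σ R).2.2.1 _ _ (u x) ?_
      by_cases hx : P.c x = 0
      · obtain ⟨k, rfl⟩ := (P.c0 x).1 hx
        rw [u1, P.gj]
        exact hom_congr (hφ k) (by ring)
      · rw [u0 x hx]
        exact isWeightedHomogeneous_zero _ _ _
    · funext x
      have := congrArg R.e (congrFun du x)
      simpa [Pk.dL, Pk.ext, mulVec, dotProduct, map_sum] using this
  obtain ⟨η, -, h1, h2⟩ := hV _ hC (by funext s; simp [cd, Fin.sum_univ_two])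
  rw [h1 rfl, cd_zero] at h2
  refine h0 (VB.N_ext fun k => R.inj ?_)
  have : (0 : R.L) = R.e (u (P.j k)) := congrFun (congrFun h2 fun _ => s₀) (P.j k)
  rw [← u1, ← this]
  simp

end Pool.Agent.P.MP_b01859_ag.SC
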