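import Pool.Agent.P.MP_b01859_ag.SD.Com
import Pool.Agent.P.MP_b01859_ag.SG.TGEN
import Pool.Agent.P.MP_b01859_ag.SG.TKILL
import Pool.Agent.P.MP_b01859_ag.SG.TTOWER
import Pool.Agent.P.MP_b01859_ag.SC.Gen
import Pool.Agent.P.MP_b01859_ag.SC.Pack
import Pool.Agent.P.MP_b01859_ag.SC.TLAUR
import Pool.Agent.P.MP_b01859_ag.SC.TOAPI
import Pool.Agent.P.MP_b01859_ag.SC.TCECH
import Pool.Agent.P.MP_b01859_ag.SC.TCHASE
import Pool.Agent.P.MP_b01859_ag.SC.TBASE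
import Pool.Agent.P.MP_b01859_ag.SC.TCONN
import Pool.Agent.P.MP_b01859_ag.SC.TCHT
import Pool.Agent.P.MP_b01859_ag.SC.TOPS
import Pool.Agent.P.MP_b01859_ag.SC.TLIFT
import Pool.Agent.P.MP_b01859_ag.SC.TFR1
import Pool.Agent.P.MP_b01859_ag.SC.TSEC
import Pool.Agent.P.MP_b01859_ag.SC.TEXC
import Pool.Agent.P.MP_b01859_ag.SC.TRESF
import Pool.Agent.P.MP_b01859_ag.SC.TCERT
import Pool.Agent.P.MP_b01859_ag.SC.TEUL
import Pool.Agent.P.MP_b01859_ag.SC.TMOM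

/-!
Generators of the cohomology modules of a rank 2 bundle, and the staircase of initial degrees.
-/

namespace Pool.Agent.P.MP_b01859_ag.SC

open MvPolynomial Matrix Filter

/-- Initial degrees from the one step rule. -/
lemma stairs (n : ℕ) (W : ℕ → ℤ → Prop) (hn : 1 ≤ n)
    (base : ∀ q, q + 1 ≤ n → ∃ t₀, ∀ t, t ≤ t₀ → W q t) (sec : ∃ t, ¬ W 0 t)
    (step : ∀ q t, W 0 (t - 1) → W (q + 1) (t - 2) → W q (t - 1) → W q t) :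
    ∃ b : ℕ → ℤ, (∀ q, q + 1 ≤ n → ¬ W q (b q) ∧ ∀ t, t < b q → W q t) ∧
      ∀ q, q + 2 ≤ n → ¬ W (q + 1) (b q - 2) ∧ b (q + 1) ≤ b q - 2 := by
  have least : ∀ q t, q + 1 ≤ n → ¬ W q t → ∃ β, β ≤ t ∧ ¬ W q β ∧ ∀ u, u < β → W q u := by
    intro q t hq ht
    obtain ⟨t₀, h₀⟩ := base q hq
    obtain ⟨β, h1, h2⟩ := Int.exists_least_of_bdd (P := fun u => ¬ W q u)
      ⟨t₀, fun u hu => by_contra fun h => hu (h₀ u (by omega))⟩ ⟨t, ht⟩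
    exact ⟨β, h2 t ht, h1, fun u hu => by_contra fun h => absurd (h2 u h) (by omega)⟩
  obtain ⟨t, ht⟩ := sec
  obtain ⟨b₀, -, h1, h2⟩ := least 0 t hn ht
  have ex : ∀ q, q + 1 ≤ n → ∃ β, β ≤ b₀ ∧ ¬ W q β ∧ ∀ u, u < β → W q u := by
    intro q
    induction q with
    | zero => exact fun _ => ⟨b₀, le_rfl, h1, h2⟩
    | succ q ih =>
      intro hq
      obtain ⟨β, a1, a2, a3⟩ := ih (by omega)
      obtain ⟨β', a4, a5⟩ := least (q + 1) (β - 2) hq fun h =>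
        a2 (step q β (h2 _ (by omega)) h (a3 _ (by omega)))
      exact ⟨β', by omega, a5⟩
  choose! b hb using ex
  refine ⟨b, fun q hq => (hb q hq).2, fun q hq => ?_⟩
  obtain ⟨a1, a2, a3⟩ := hb q (by omega)
  have h : ¬ W (q + 1) (b q - 2) := fun h => a2 (step q _ (h2 _ (by omega)) h (a3 _ (by omega)))
  exact ⟨h, by_contra fun h' => h ((hb (q + 1) hq).2.2 _ (by omega))⟩

variable {σ M : Type} [Fintype σ] [AddCommGroup M] [Module ℂ M] [Module (Pol σ) M]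
  [IsScalarTower ℂ (Pol σ) M] [Module.Finite (Pol σ) M] {ℳ : ℤ → Submodule ℂ M} {n : ℕ}

theorem core (hcard : Fintype.card σ = n + 1) (hn : 5 ≤ n) (hint : DirectSum.IsInternal ℳ)
    (hgr : SD.Cl (X : σ → Pol σ) (SD.w1 σ) ℳ) (hfree : SD.LF2 σ M) :
    ∃ (c₁ c₂ : ℤ) (a b : ℂ), a + b = c₁ ∧ a * b = c₂ ∧
      (∀ᶠ t : ℤ in atTop, (Module.finrank ℂ (ℳ t) : ℂ) =
        (∏ i ∈ Finset.range n, (t + a + i + 1) + ∏ i ∈ Finset.range n, (t + b + i + 1)) /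
          n.factorial) ∧
      (SD.SplitM σ ℳ ∨ (∀ (q : ℕ) (t : ℤ), Van σ ℳ 0 (t - 1) ∨ t ^ 2 + c₁ * t + c₂ ≠ 0 →
        Van σ ℳ (q + 1) (t - 2) → Gen σ ℳ q t) ∧
        ∃ b : ℕ → ℤ, (∀ q, q + 1 ≤ n → ¬ Van σ ℳ q (b q) ∧ ∀ t, t < b q → Van σ ℳ q t) ∧
          ∀ q, q + 2 ≤ n → ¬ Van σ ℳ (q + 1) (b q - 2) ∧ b (q + 1) ≤ b q - 2) := by
  classical
  obtain ⟨s₀⟩ : Nonempty σ := Fintype.card_pos_iff.1 (by omega)
  have : Nonempty σ := ⟨s₀⟩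
  obtain ⟨ι, _, T, γ, g, L, c₂, a, b, hL, hS, hC, -, hH⟩ :=
    SD.setup SD.q_FRL SD.q_FRH SD.q_CHERN SD.q_DISC SD.q_BN hcard hn hint hgr hfree
  refine ⟨-g, c₂, a, b, by rw [hC.sum]; simp, hC.mul, hH, ?_⟩
  by_cases hsp : Sp T.ω
  · exact Or.inl (hS hsp)
  right
  obtain ⟨J, _, _, ⟨P⟩⟩ := exists_pk (p_RESF SG.p_GEN (SG.p_TOWER (SG.p_KILL SG.p_GEN))) p_CERT
    (p_MOM (p_EUL SD.q_BN) SD.q_BN SD.q_POLY) hC
  obtain ⟨R⟩ := p_LAUR σ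
  obtain ⟨B, hB⟩ := p_CONN p_OAPI σ ι T γ g c₂ J P R
  obtain ⟨Q⟩ := p_OPS p_OAPI p_CHT σ ι T γ g c₂ J P R B hB
  obtain ⟨E, hE⟩ := p_LIFT p_OAPI σ ι M ℳ T γ g c₂ L J P R hL hgr
  have f1 := p_FR1 σ M _ R ℳ _ E hgr hE
  have f2 := p_FR2 σ M _ R ℳ _ E hgr hE
  have sec : ∀ (φ : T.N) α t, φ ≠ 0 → VB.HomN (SD.w1 σ) γ φ α → α + g ≤ t → ¬ Van σ ℳ 0 t := by
    intro φ α t h0 hφ ht h
    refine p_SEC p_OAPI σ ι T γ g c₂ J P R ((X s₀ : Pol σ) ^ (t - g - α).toNat • φ) (t - g)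
      (fun e => h0 (VB.smul_eq_zero' (pow_ne_zero _ (X_ne_zero s₀)) e))
      ((hφ.smul ((isWeightedHomogeneous_X ℂ _ s₀).pow _)).congr ?_) (f1 0 t h)
    simp only [nsmul_eq_mul, mul_one]
    omega
  have gn : ∀ (q : ℕ) (t : ℤ), Van σ ℳ 0 (t - 1) ∨ t ^ 2 + -g * t + c₂ ≠ 0 →
      Van σ ℳ (q + 1) (t - 2) → Gn (fun i => R.e (X i)) (fun t => P.Z R 0 (t - g)) q t := by
    intro q t h1 h2
    have h3 : SD.qq g c₂ (t - g) ≠ 0 := by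
      rcases h1 with h1 | h1
      · rcases p_EXC SD.q_BOG SD.q_C2P σ ι n T γ g c₂ a b hC hsp with h | ⟨φ, α, h0, hφ, h⟩
        · exact h _
        · exact h _ (by_contra fun ht => sec φ α _ h0 hφ (by omega) h1)
      · exact fun h => h1 (by unfold SD.qq at h; linear_combination h)
    have h4 := Q.gn (q := q) (t := t - g) (fun h => h3 (by
      have h5 : ((SD.qq g c₂ (t - g) : ℤ) : ℂ) = 0 := by
        unfold SD.qq
        push_cast at h ⊢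
        linear_combination h / 2
      exact_mod_cast h5)) (by rw [sub_right_comm]; exact f1 _ _ h2)
    unfold Gn at h4 ⊢
    rw [sub_right_comm] at h4
    exact h4
  have xm : ∀ i u I (v : J → R.L), v ∈ P.Z R 0 (u - g) I →
      R.e (X i) • v ∈ P.Z R 0 (u + 1 - g) I := fun i u I v hv => by
    have := Q.xm i _ I v hv
    rwa [sub_add_eq_add_sub] at this
  refine ⟨fun q t h1 h2 => hE.gen hgr (gn q t h1 h2), stairs n (Van σ ℳ) (by omega)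
    (fun q hq => ?_) ?_ fun q t h1 h2 h3 => ?_⟩
  · obtain ⟨t₀, h₀⟩ := p_BASE p_OAPI p_CECH p_CHASE σ ι T γ g c₂ J P R q (by omega)
    exact ⟨t₀ + g, fun t ht => f2 q t (h₀ _ (by omega))⟩
  · obtain ⟨i, k, h⟩ := T.LF ⊥ Ideal.isPrime_bot s₀ (by simp)
    exact ⟨_, sec (T.row i) _ _ (fun e => h (congrArg (fun φ : T.N => φ.1 k) e))
      (VB.row_hom hC.gr i) le_rfl⟩
  · exact f2 q t (Gn.vn (F := fun t => P.Z R 0 (t - g)) xm (gn q t (.inl h1) h2) (f1 _ _ h3))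

/-- The initial degrees of the cohomology modules of a bundle that does not split. -/
theorem staircase (hcard : Fintype.card σ = n + 1) (hn : 5 ≤ n) (hint : DirectSum.IsInternal ℳ)
    (hgr : SD.Cl (X : σ → Pol σ) (SD.w1 σ) ℳ) (hfree : SD.LF2 σ M) :
    SD.SplitM σ ℳ ∨
      ∃ b : ℕ → ℤ, (∀ q, q + 1 ≤ n → ¬ Van σ ℳ q (b q) ∧ ∀ t, t < b q → Van σ ℳ q t) ∧
        ∀ q, q + 2 ≤ n → ¬ Van σ ℳ (q + 1) (b q - 2) ∧ b (q + 1) ≤ b q - 2 := by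
  obtain ⟨_, _, _, _, -, -, -, h⟩ := core hcard hn hint hgr hfree
  exact h.imp id And.right

/-- One vanishing cohomology module splits the bundle. -/
theorem split_of_van (hcard : Fintype.card σ = n + 1) (hn : 5 ≤ n)
    (hint : DirectSum.IsInternal ℳ) (hgr : SD.Cl (X : σ → Pol σ) (SD.w1 σ) ℳ)
    (hfree : SD.LF2 σ M) {q : ℕ} (hq : q + 1 ≤ n) (h : ∀ t, Van σ ℳ q t) : SD.SplitM σ ℳ :=
  (staircase hcard hn hint hgr hfree).resolve_right fun ⟨_, hb, _⟩ => (hb q hq).1 (h _)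

end Pool.Agent.P.MP_b01859_ag.SC
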