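import Pool.Agent.P.MP_b01859_ag.SC.Iface

/-! Step BASE. -/

set_option autoImplicit false

namespace Pool.Agent.P.MP_b01859_ag.SC

open MvPolynomial Matrix

namespace BASEx

variable {σ ι : Type} [Fintype σ] [DecidableEq σ] [Fintype ι] {T : VB σ ι} {γ : ι → ℤ}
  {g c₂ : ℤ} {J : Type} [Fintype J] [DecidableEq J] (P : Pk T γ g c₂ J) (R : LR σ)

omit [Fintype ι] in
theorem mv (hO : S_OAPI) {A : Matrix J J (Pol σ)} {j m k t : ℤ} (h1 : SG.Deg P.c P.c j A)
    (h2 : SG.Hom P.gJ (fun x => P.gJ x + m) A) {I : Finset σ} {w : J → R.L}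
    (hw : w ∈ P.F R k t I) : A.map R.e *ᵥ w ∈ P.F R (k + j) (t + m) I := by
  obtain ⟨-, om, oe, -⟩ := hO σ R
  refine ⟨fun a ha => ?_, fun a => ?_⟩
  · obtain ⟨b, -, hb⟩ := Finset.exists_ne_zero_of_sum_ne_zero ha
    have e1 : A a b ≠ 0 := fun h => hb (by simp [h])
    have e2 : w b ≠ 0 := fun h => hb (by simp [h])
    rw [h1 a b e1, hw.1 b e2]
  · refine Submodule.sum_mem _ fun b _ => ?_
    have := om I _ _ _ _ (oe I _ _ (h2 a b)) (hw.2 b)
    rw [show P.gJ b + m - P.gJ a + (t - P.gJ b) = t + m - P.gJ a by ring] at this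
    exact this

theorem ypow (hO : S_OAPI) {I : Finset σ} {s : σ} (hs : s ∈ I) (N : ℕ) :
    R.y s ^ N ∈ R.O I (-N) := by
  obtain ⟨-, om, oe, oy, -⟩ := hO σ R
  induction N with
  | zero => simpa using oe I 0 1 (isWeightedHomogeneous_one _ _)
  | succ N ih =>
    have := om I _ _ _ _ ih (oy I s hs)
    rw [pow_succ]
    convert this using 2
    push_cast
    ring

omit [Fintype ι] in
theorem vnF (hC : S_CECH) (k t : ℤ) (q : ℕ) (hq : q + 2 ≤ Fintype.card σ)
    (ht : ∀ x, t < P.gJ x) : Vn (P.F R k t) q := by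
  intro ξ h1 h2
  have : ∀ x, ∃ η : (Fin q → σ) → R.L, Cc (fun I => R.O I (t - P.gJ x)) η ∧ (q = 0 → η = 0) ∧
      cd η = fun s => ξ s x := fun x =>
    hC σ R q _ hq (fun _ => sub_neg.2 (ht x)) _ (fun s => (h1 s).2 x) (funext fun s => by
      have := cd_map (LinearMap.proj (R := ℂ) (φ := fun _ : J => R.L) x) ξ s
      rw [h2] at this
      exact this)
  choose η e1 e2 e3 using this
  refine ⟨fun s x => if P.c x = k then η x s else 0, fun s => ⟨fun a ha => ?_, fun x => ?_⟩,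
    fun h => ?_, ?_⟩
  · by_contra h
    exact ha (if_neg h)
  · by_cases h : P.c x = k
    · simpa [h] using e1 x s
    · simp [h]
  · funext s x
    simp [e2 x h]
  · funext s x
    have := cd_map (LinearMap.proj (R := ℂ) (φ := fun _ : J => R.L) x)
      (fun s x => if P.c x = k then η x s else 0) s
    refine this.symm.trans ?_
    by_cases h : P.c x = k
    · simpa [h] using congrFun (e3 x) s
    · have h0 : ξ s x = 0 := by
        by_contra h'
        exact h ((h1 s).1 x h')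
      simp [h, h0, cd]

theorem sur (hO : S_OAPI) {k t : ℤ} (hk : 0 ≤ k) {I : Finset σ} (hI : I.Nonempty)
    {w : J → R.L} (hw : w ∈ P.Z R (k + 1) t I) : ∃ v ∈ P.F R k t I, P.dL R *ᵥ v = w := by
  obtain ⟨s, hs⟩ := hI
  obtain ⟨N, h, ψ, h1, h2, -, h4, -, h6⟩ := P.cert s
  have a := mv P R hO h1 h2 hw.1
  refine ⟨R.y s ^ N • (h.map R.e *ᵥ w), ⟨fun x hx => ?_, fun x => ?_⟩, ?_⟩
  · have : (h.map R.e *ᵥ w) x ≠ 0 := fun e => hx (by simp [e])
    rw [a.1 x this]; ring
  · have := (hO σ R).2.1 I _ _ _ _ (ypow R hO hs N) (a.2 x)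
    rw [show -(N : ℤ) + (t + N - P.gJ x) = t - P.gJ x by ring] at this
    exact this
  · have z : ψ.map R.e *ᵥ w = 0 := by
      funext x
      refine Finset.sum_eq_zero fun b _ => ?_
      by_cases e : w b = 0
      · simp [e]
      · have e1 := hw.1.1 b e
        have : ψ x b = 0 := by
          by_contra e'
          have := (h4 x b e').2
          omega
        simp [this]
    have e := congrArg (fun A : Matrix J J (Pol σ) => (R.e : Pol σ →+* R.L).mapMatrix A *ᵥ w) h6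
    simp only [map_add, map_mul, RingHom.mapMatrix_apply, add_mulVec, ← mulVec_mulVec,
      RingHom.coe_coe] at e
    have e0 : P.d.map R.e *ᵥ w = 0 := hw.2
    have e1 : ((X s ^ N : Pol σ) • (1 : Matrix J J (Pol σ))).map R.e *ᵥ w = R.e (X s) ^ N • w := by
      rw [smul_one_eq_diagonal, diagonal_map (map_zero _)]
      funext x
      simp [mulVec_diagonal]
    rw [e0, z, e1] at e
    simp only [mulVec_zero, add_zero] at e
    rw [mulVec_smul, Pk.dL, e, smul_smul, ← mul_pow, mul_comm, R.xy, one_pow, one_smul]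

end BASEx

theorem p_BASE (hOAPI : S_OAPI) (hCECH : S_CECH) (hCHASE : S_CHASE) :
    S_BASE := by
  intro σ ι _ _ _ T γ g c₂ J _ _ P R q hq
  obtain ⟨m, hm⟩ := (Set.finite_range P.gJ).bddBelow
  refine ⟨m - 1, fun t ht => ?_⟩
  have ht' : ∀ x, t < P.gJ x := fun x => by
    have := hm ⟨x, rfl⟩
    omega
  have ch : ∀ k : ℤ, 0 ≤ k → (Vn (P.F R k t) 0 → Vn (P.Z R k t) 0) ∧
      ∀ q, Vn (P.F R k t) (q + 1) → Vn (P.Z R (k + 1) t) q → Vn (P.Z R k t) (q + 1) := by
    intro k hk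
    refine hCHASE σ _ _ _ _ ((P.dL R).mulVecLin.restrictScalars ℂ) ?_ (fun I v hv => hv.1)
      (fun I v hv => ⟨fun h => ⟨hv, h⟩, fun h => h.2⟩) (fun I v hv => ⟨?_, ?_⟩)
      (fun I hI w hw => BASEx.sur P R hOAPI hk hI hw)
    · intro I I' h v hv
      exact ⟨hv.1, fun x => (hOAPI σ R).1 _ h (hv.2 x)⟩
    · have := BASEx.mv P R hOAPI (m := 0) P.cx.deg (by simpa using P.cx.hom) hv
      rw [add_zero] at this
      exact this
    · change P.dL R *ᵥ (P.dL R *ᵥ v) = 0
      rw [mulVec_mulVec, Pk.dL, ← Matrix.map_mul, P.cx.sq]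
      simp
  have key : ∀ q, q + 2 ≤ Fintype.card σ → ∀ k : ℤ, 0 ≤ k → Vn (P.Z R k t) q := by
    intro q
    induction q with
    | zero => exact fun h k hk => (ch k hk).1 (BASEx.vnF P R hCECH k t 0 h ht')
    | succ q ih =>
      exact fun h k hk => (ch k hk).2 q (BASEx.vnF P R hCECH k t _ h ht')
        (ih (by omega) _ (by omega))
  exact key q hq 0 le_rfl

end Pool.Agent.P.MP_b01859_ag.SC
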