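import Pool.Agent.P.MP_b01859_ag.SC.Iface

/-! Step FR2. -/

set_option autoImplicit false
set_option linter.unusedSectionVars false

namespace Pool.Agent.P.MP_b01859_ag.SC

open MvPolynomial Matrix

namespace FR2x

variable {σ M V : Type} [Fintype σ] [DecidableEq σ] {R : LR σ} [AddCommGroup M]
  [Module ℂ M] [Module (Pol σ) M] [AddCommGroup V] [Module ℂ V]
  [Module R.L V] [IsScalarTower ℂ R.L V] {ℳ : ℤ → Submodule ℂ M}
  {Z : ℤ → Finset σ → Submodule ℂ V} {E : M →+ V}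

lemma key (h : Br R ℳ Z E) {r : ℕ} (η : (Fin r → σ) → M) (N : ℕ) (s : Fin (r + 1) → σ) :
    E (∑ k : Fin (r + 1), ((-1) ^ (k : ℕ) * X (s k) ^ N : Pol σ) • η (s ∘ k.succAbove)) =
      R.e ((∏ k, X (s k)) ^ N) • cd (fun s' => (∏ k, R.y (s' k)) ^ N • E (η s')) s := by
  rw [map_sum, cd, Finset.smul_sum]
  refine Finset.sum_congr rfl fun k _ => ?_
  have e := R.prod_xy Finset.univ (s ∘ k.succAbove) N
  rw [h.smul, ← algebraMap_smul R.L ((-1 : ℂ) ^ (k : ℕ)), smul_smul, smul_smul,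
    Fin.prod_univ_succAbove _ k, mul_pow]
  congr 1
  simp only [map_mul, map_pow, map_neg, map_one, Function.comp_apply] at e ⊢
  linear_combination (-((-1) ^ (k : ℕ) * R.e (X (s k)) ^ N)) * e

lemma lift (h : Br R ℳ Z E) {q : ℕ} {t : ℤ} (ν : ℕ) {η : (Fin q → σ) → V} (h1 : Cc (Z t) η)
    (h2 : q = 0 → η = 0) : ∃ (μ : ℕ) (η1 : (Fin q → σ) → M),
      (∀ s, η1 s ∈ ℳ (t + (ν + μ : ℕ) * q)) ∧ (q = 0 → η1 = 0) ∧
      η = fun s => (∏ k, R.y (s k)) ^ (ν + μ) • E (η1 s) := by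
  cases q with
  | zero => exact ⟨0, 0, fun _ => zero_mem _, fun _ => rfl, by rw [h2 rfl]; funext s; simp⟩
  | succ r =>
    choose n hn using fun s => h.sur r s t (η s) (h1 s)
    choose m h3 h4 using fun s => hn s (ν + Finset.univ.sup n)
      ((Finset.le_sup (Finset.mem_univ s)).trans (Nat.le_add_left _ _))
    exact ⟨_, m, fun s => by exact_mod_cast h3 s, fun e => by omega, funext h4⟩

end FR2x

theorem p_FR2 :
    S_FR2 := by
  intro σ M V _ _ R _ _ _ _ _ _ _ _ ℳ Z E hC h q t hV ν ξ h1 h2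
  obtain ⟨η', a1, a2, a3⟩ := hV (fun s => (∏ k, R.y (s k)) ^ ν • E (ξ s))
    (fun s => h.mem _ s t ν _ (by exact_mod_cast h1 s)) (by
      funext s
      have e := FR2x.key h ξ ν s
      rw [h2 s, map_zero] at e
      have e2 := congrArg (fun v => (∏ k, R.y (s k)) ^ ν • v) e
      simp only [smul_zero, smul_smul] at e2
      rw [mul_comm, R.prod_xy, one_smul] at e2
      exact e2.symm)
  obtain ⟨μ, η, b1, b2, b3⟩ := FR2x.lift h ν a1 a2
  have c1 : ∀ s : Fin (q + 1) → σ, ∃ n : ℕ, (X (s 0) : Pol σ) ^ n •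
      (((∏ k, X (s k)) ^ μ : Pol σ) • ξ s - ∑ k : Fin (q + 1),
        ((-1) ^ (k : ℕ) * X (s k) ^ (ν + μ) : Pol σ) • η (s ∘ k.succAbove)) = 0 := fun s => by
    refine h.ker _ ?_ _
    rw [map_sub, FR2x.key h, ← b3, a3, h.smul, smul_smul, sub_eq_zero]
    congr 1
    rw [pow_add, map_mul]
    linear_combination (-R.e ((∏ k, X (s k)) ^ μ)) * R.prod_xy Finset.univ s ν
  choose n hn using c1
  refine ⟨μ + Finset.univ.sup n, fun s => ((∏ k, X (s k)) ^ Finset.univ.sup n : Pol σ) • η s,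
    fun s => ?_, fun e => by rw [b2 e]; funext s; simp, fun s => ?_⟩
  · have := hC.aeval (LR.hom_prod Finset.univ s (Finset.univ.sup n)) (b1 s)
    rw [aeval_X_left_apply] at this
    convert this using 2
    simp only [Finset.card_univ, Fintype.card_fin]
    push_cast
    ring
  · obtain ⟨d, hd⟩ := Nat.exists_eq_add_of_le (Finset.le_sup (f := n) (Finset.mem_univ s))
    have c2 : ((∏ k, X (s k)) ^ Finset.univ.sup n : Pol σ) •
        (((∏ k, X (s k)) ^ μ : Pol σ) • ξ s - ∑ k : Fin (q + 1),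
          ((-1) ^ (k : ℕ) * X (s k) ^ (ν + μ) : Pol σ) • η (s ∘ k.succAbove)) = 0 := by
      have e : ((∏ k, X (s k)) ^ Finset.univ.sup n : Pol σ) =
          (X (s 0) ^ d * (∏ k : Fin q, X (s k.succ)) ^ Finset.univ.sup n) * X (s 0) ^ n s := by
        rw [Fin.prod_univ_succ, mul_pow, hd]
        ring
      rw [e, mul_smul, hn s, smul_zero]
    rw [smul_sub, sub_eq_zero, smul_smul, ← pow_add, add_comm _ μ, Finset.smul_sum] at c2
    rw [c2]
    refine Finset.sum_congr rfl fun k _ => ?_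
    rw [smul_smul, smul_smul, Fin.prod_univ_succAbove _ k]
    congr 1
    simp only [Function.comp_apply]
    ring

end Pool.Agent.P.MP_b01859_ag.SC
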