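import Pool.Agent.P.MP_b01859_ag.SC.Iface

/-! Step MOM. -/

set_option autoImplicit false

namespace Pool.Agent.P.MP_b01859_ag.SC

open MvPolynomial Matrix SG Filter

lemma mom_poly {I : Type} [Fintype I] (ε z : I → ℂ) (a b : ℂ) (P : Polynomial ℂ) (m : ℕ)
    (hd : P.natDegree = m + 2) (hc : P.coeff (m + 2) ≠ 0)
    (h : ∑ e, Polynomial.C (ε e) * SD.sh (z e) P = SD.sh a P + SD.sh b P) :
    ∑ e, ε e = 2 ∧ ∑ e, ε e * z e = a + b ∧ ∑ e, ε e * z e ^ 2 = a ^ 2 + b ^ 2 := by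
  have h1 : ∀ (k : ℕ) (x : ℂ), m ≤ k → (SD.sh x P).coeff k = P.coeff k +
      ((k + 1).choose k : ℕ) * P.coeff (k + 1) * x +
      ((k + 2).choose k : ℕ) * P.coeff (k + 2) * x ^ 2 := by
    intro k x hk
    rw [SD.sh_eq_taylor, Polynomial.taylor_coeff, Polynomial.eval_eq_sum_range' (n := 3)
      (lt_of_le_of_lt (Polynomial.natDegree_hasseDeriv_le P k) (by omega))]
    simp [Finset.sum_range_succ, Polynomial.hasseDeriv_coeff, add_comm]
  have h2 : ∀ k : ℕ, m ≤ k → P.coeff k * (∑ e, ε e - 2) +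
      ((k + 1).choose k : ℕ) * P.coeff (k + 1) * (∑ e, ε e * z e - (a + b)) +
      ((k + 2).choose k : ℕ) * P.coeff (k + 2) * (∑ e, ε e * z e ^ 2 - (a ^ 2 + b ^ 2)) = 0 := by
    intro k hk
    have := congrArg (fun Q => Q.coeff k) h
    simp only [Polynomial.finsetSum_coeff, Polynomial.coeff_C_mul, Polynomial.coeff_add,
      h1 k _ hk] at this
    have e : ∑ e, ε e * (P.coeff k + ((k + 1).choose k : ℕ) * P.coeff (k + 1) * z e +
        ((k + 2).choose k : ℕ) * P.coeff (k + 2) * z e ^ 2) = P.coeff k * ∑ e, ε e +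
        ((k + 1).choose k : ℕ) * P.coeff (k + 1) * ∑ e, ε e * z e +
        ((k + 2).choose k : ℕ) * P.coeff (k + 2) * ∑ e, ε e * z e ^ 2 := by
      simp only [Finset.mul_sum, ← Finset.sum_add_distrib]
      exact Finset.sum_congr rfl fun e _ => by ring
    rw [e] at this
    linear_combination this
  have z1 : P.coeff (m + 3) = 0 := Polynomial.coeff_eq_zero_of_natDegree_lt (by omega)
  have z2 : P.coeff (m + 4) = 0 := Polynomial.coeff_eq_zero_of_natDegree_lt (by omega)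
  have a0 := h2 (m + 2) (by omega)
  have a1 := h2 (m + 1) (by omega)
  have a2 := h2 m le_rfl
  rw [show m + 2 + 1 = m + 3 from rfl, show m + 2 + 2 = m + 4 from rfl, z1, z2] at a0
  rw [show m + 1 + 2 = m + 3 from rfl, show m + 1 + 1 = m + 2 from rfl, z1] at a1
  have b0 : ∑ e, ε e - 2 = 0 := by simpa [hc] using a0
  have c1 : (((m + 2).choose (m + 1) : ℕ) : ℂ) ≠ 0 :=
    Nat.cast_ne_zero.mpr (Nat.choose_pos (by omega)).ne'
  have c2 : (((m + 2).choose m : ℕ) : ℂ) ≠ 0 :=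
    Nat.cast_ne_zero.mpr (Nat.choose_pos (by omega)).ne'
  rw [b0, mul_zero, zero_add, mul_zero, zero_mul, add_zero] at a1
  have b1 := (mul_eq_zero.mp a1).resolve_left (mul_ne_zero c1 hc)
  rw [b0, b1, mul_zero, mul_zero, zero_add, zero_add] at a2
  have b2 := (mul_eq_zero.mp a2).resolve_left (mul_ne_zero c2 hc)
  exact ⟨sub_eq_zero.mp b0, sub_eq_zero.mp b1, sub_eq_zero.mp b2⟩

lemma neg_one_natAbs (k : ℤ) : (-1 : ℂ) ^ k.natAbs = (-1 : ℂ) ^ k := by
  rcases Int.natAbs_eq k with h | h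
  · conv_rhs => rw [h]
    rw [zpow_natCast]
  · conv_rhs => rw [h]
    rw [_root_.zpow_neg, zpow_natCast, ← inv_pow]
    norm_num

theorem p_MOM (hEUL : S_EUL) (hBN : SD.S_BN) (hPOLY : SD.S_POLY) :
    S_MOM := by
  intro σ I _ _ n T c γ g c₂ a b d hC R
  have h1 := hC.rr (Pol σ) X (SD.SS σ) SD.cl_SS SD.sub_SS (SD.bp n)
    (by rw [(hBN.2.2.2.2.2.2 σ n hC.card).1]; exact hBN.2.2.1 n)
  have h2 : SD.EvP (SD.hM T γ)
      (∑ e, Polynomial.C ((-1 : ℂ) ^ c e) * SD.sh (-(γ e : ℂ)) (SD.bp n)) := by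
    have h3 : ∀ᶠ t : ℤ in atTop, ∀ e, (SD.bn n (t - γ e) : ℂ) =
        (SD.bp n).eval ((t - γ e : ℤ) : ℂ) :=
      eventually_all.mpr fun e => SD.ev_shift' (hBN.2.2.1 n) (γ e)
    filter_upwards [h3] with t ht
    rw [hEUL σ I n T c γ g d hC.card R t, Polynomial.eval_finsetSum]
    push_cast
    refine Finset.sum_congr rfl fun e _ => ?_
    rw [ht e, Polynomial.eval_mul, Polynomial.eval_C, SD.eval_sh, neg_one_natAbs]
    push_cast
    rfl
  obtain ⟨m, rfl⟩ : ∃ m, n = m + 2 := ⟨n - 2, by have := hC.five; omega⟩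
  obtain ⟨e0, e1, e2⟩ := mom_poly _ _ a b _ m (hBN.2.2.2.1 _).1
    (by rw [(hBN.2.2.2.1 _).2]; exact inv_ne_zero (Nat.cast_ne_zero.mpr (Nat.factorial_ne_zero _)))
    (hPOLY.2.2.2.1 _ _ _ h2 h1)
  refine ⟨e0, ?_, ?_⟩
  · simp only [mul_neg, Finset.sum_neg_distrib] at e1
    linear_combination -e1 - hC.sum
  · simp only [neg_sq] at e2
    rw [e2]
    linear_combination (a + b - g) * hC.sum - 2 * hC.mul

end Pool.Agent.P.MP_b01859_ag.SC
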